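import Mathlib

set_option autoImplicit false

open Filter

namespace Pool.Agent.H304R2

theorem final_asym (c C B ε : ℝ) (j k : ℕ) (hc : 0 < c) (hC : 0 < C) (hk : 1 ≤ k)
    (hj : 1 ≤ j) (hjk : (1 - ε) * k < j) (Y0 : ℕ) :
    ∃ N0 : ℕ, ∀ N : ℕ, N0 ≤ N → ∀ V : ℝ,
      (∀ Y : ℕ, Y0 ≤ Y → C * (Y : ℝ) ^ (2 * k) ≤ N → c * (Y : ℝ) ^ (2 * j) - B ≤ V) →
      (N : ℝ) ^ (1 - ε) ≤ V := by
  have hk0 : (0 : ℝ) < k := by exact_mod_cast hk
  have hj0 : (0 : ℝ) < j := by exact_mod_cast hj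
  set θ : ℝ := j / k with hθ
  have hθ0 : 0 < θ := by positivity
  have hη : 0 < θ - (1 - ε) := by
    rw [hθ, sub_pos, lt_div_iff₀ hk0]; exact hjk
  set c' : ℝ := c / (2 ^ (2 * j) * C ^ θ) with hc'
  have hc'0 : 0 < c' := by positivity
  have t1 : Tendsto (fun N : ℕ => (N : ℝ) ^ θ) atTop atTop :=
    (tendsto_rpow_atTop hθ0).comp tendsto_natCast_atTop_atTop
  have t2 : Tendsto (fun N : ℕ => (N : ℝ) ^ (θ - (1 - ε))) atTop atTop :=
    (tendsto_rpow_atTop hη).comp tendsto_natCast_atTop_atTop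
  have t3 : Tendsto (fun N : ℕ => ((N : ℝ) / C) ^ (1 / (2 * k : ℝ))) atTop atTop :=
    (tendsto_rpow_atTop (by positivity)).comp (tendsto_natCast_atTop_atTop.atTop_div_const hC)
  have hev : ∀ᶠ N : ℕ in atTop, ∀ V : ℝ,
      (∀ Y : ℕ, Y0 ≤ Y → C * (Y : ℝ) ^ (2 * k) ≤ N → c * (Y : ℝ) ^ (2 * j) - B ≤ V) →
      (N : ℝ) ^ (1 - ε) ≤ V := by
    filter_upwards [t1.eventually_ge_atTop (2 * B / c'), t2.eventually_ge_atTop (2 / c'),
      t3.eventually_ge_atTop ((Y0 : ℝ) + 2), eventually_ge_atTop 1] with N h1 h2 h3 h4 V h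
    have hN1 : (1 : ℝ) ≤ N := by exact_mod_cast h4
    have hN0 : (0 : ℝ) < N := by linarith
    set y : ℝ := ((N : ℝ) / C) ^ (1 / (2 * k : ℝ)) with hy
    have hY0 : (0 : ℝ) ≤ Y0 := Nat.cast_nonneg _
    have hy2 : 2 ≤ y := by linarith
    have hyk : y ^ (2 * k) = N / C := by
      rw [hy, ← Real.rpow_natCast, ← Real.rpow_mul (by positivity)]
      push_cast
      have : 1 / (2 * (k : ℝ)) * (2 * k) = 1 := by field_simp
      rw [this, Real.rpow_one]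
    have hyj : y ^ (2 * j) = (N : ℝ) ^ θ / C ^ θ := by
      rw [hy, ← Real.rpow_natCast, ← Real.rpow_mul (by positivity), ← Real.div_rpow (by positivity)
        hC.le]
      congr 1
      push_cast
      rw [hθ]; field_simp
    have f1 : Y0 ≤ ⌊y⌋₊ := Nat.le_floor (by linarith)
    have f2 : (⌊y⌋₊ : ℝ) ≤ y := Nat.floor_le (by linarith)
    have f3 : y / 2 ≤ (⌊y⌋₊ : ℝ) := by
      have := Nat.lt_floor_add_one y
      linarith
    have f4 : C * (⌊y⌋₊ : ℝ) ^ (2 * k) ≤ N := by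
      have g1 : (⌊y⌋₊ : ℝ) ^ (2 * k) ≤ y ^ (2 * k) := pow_le_pow_left₀ (Nat.cast_nonneg _) f2 _
      rw [hyk] at g1
      have g2 : C * (⌊y⌋₊ : ℝ) ^ (2 * k) ≤ C * (N / C) := mul_le_mul_of_nonneg_left g1 hC.le
      have g3 : C * ((N : ℝ) / C) = N := by field_simp
      linarith
    have f5 := h ⌊y⌋₊ f1 f4
    have f6 : (y / 2) ^ (2 * j) ≤ (⌊y⌋₊ : ℝ) ^ (2 * j) :=
      pow_le_pow_left₀ (by linarith) f3 _
    have f7 : c * (y / 2) ^ (2 * j) = c' * (N : ℝ) ^ θ := by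
      rw [div_pow, hyj, hc']; field_simp
    have f8 : c' * (N : ℝ) ^ θ ≤ c * (⌊y⌋₊ : ℝ) ^ (2 * j) := by
      rw [← f7]; exact mul_le_mul_of_nonneg_left f6 hc.le
    have f9 : B ≤ c' / 2 * (N : ℝ) ^ θ := by
      rw [div_le_iff₀ hc'0] at h1
      linarith
    have f10 : (N : ℝ) ^ (1 - ε) ≤ c' / 2 * (N : ℝ) ^ θ := by
      have e : (N : ℝ) ^ θ = (N : ℝ) ^ (1 - ε) * (N : ℝ) ^ (θ - (1 - ε)) := by
        rw [← Real.rpow_add hN0]; congr 1; ring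
      rw [e]
      rw [div_le_iff₀ hc'0] at h2
      have : 0 < (N : ℝ) ^ (1 - ε) := by positivity
      nlinarith
    linarith
  obtain ⟨N0, hN0⟩ := eventually_atTop.mp hev
  exact ⟨N0, hN0⟩

end Pool.Agent.H304R2
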