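import Mathlib

set_option autoImplicit false

namespace Pool.Agent.H304R2

/-- norm form `v1^2 + b v1 v2 + c v2^2` -/
def Nm (b c : ℤ) (v : ℤ × ℤ) : ℤ := v.1 ^ 2 + b * v.1 * v.2 + c * v.2 ^ 2

/-- multiplication in `Z[w]`, `w^2 = b w - c` -/
def mu (b c : ℤ) (t v : ℤ × ℤ) : ℤ × ℤ :=
  (t.1 * v.1 - c * t.2 * v.2, t.1 * v.2 + t.2 * v.1 + b * t.2 * v.2)

/-- conjugate -/
def cj (b : ℤ) (v : ℤ × ℤ) : ℤ × ℤ := (v.1 + b * v.2, -v.2)

/-- determinant -/
def dt (v w : ℤ × ℤ) : ℤ := v.1 * w.2 - v.2 * w.1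

/-- inner product -/
def Bi (b c : ℤ) (v w : ℤ × ℤ) : ℤ := v.1 * w.1 + b * v.2 * w.1 + c * v.2 * w.2

/-- the polynomial -/
def ff (b c n : ℤ) : ℤ := n ^ 2 + b * n + c

theorem Nm_mu (b c : ℤ) (t v : ℤ × ℤ) : Nm b c (mu b c t v) = Nm b c t * Nm b c v := by
  simp only [Nm, mu]; ring

theorem Nm_cj (b c : ℤ) (v : ℤ × ℤ) : Nm b c (cj b v) = Nm b c v := by
  simp only [Nm, cj]; ring

theorem dt_mu (b c : ℤ) (t v w : ℤ × ℤ) :
    dt (mu b c t v) (mu b c t w) = Nm b c t * dt v w := by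
  simp only [Nm, mu, dt]; ring

theorem Nm_mul_Nm (b c : ℤ) (v w : ℤ × ℤ) (h : dt v w = 1) :
    Nm b c v * Nm b c w = ff b c (Bi b c v w) := by
  have : Nm b c v * Nm b c w = Bi b c v w ^ 2 + b * Bi b c v w * dt v w + c * dt v w ^ 2 := by
    simp only [Nm, Bi, dt]; ring
  rw [this, h, ff]; ring

theorem Nm_smul (b c g : ℤ) (v : ℤ × ℤ) : Nm b c (g * v.1, g * v.2) = g ^ 2 * Nm b c v := by
  simp only [Nm]; ring

/-- mediants: the Farey step -/
theorem exists_step (α β : ℤ × ℤ) (hα : IsCoprime α.1 α.2) (hβ : IsCoprime β.1 β.2)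
    (hD : 2 ≤ dt α β) :
    ∃ w : ℤ × ℤ, dt α w = 1 ∧ 1 ≤ dt w β ∧ dt w β + 1 ≤ dt α β := by
  obtain ⟨x, y, hxy⟩ := hα
  -- w0 = (-y, x): dt α w0 = α1 x + α2 y = 1
  set D := dt α β with hDdef
  set w0 : ℤ × ℤ := (-y, x) with hw0
  have h0 : dt α w0 = 1 := by simp only [dt, hw0]; linarith
  set s := dt w0 β with hs
  -- k with 1 ≤ s + k D ≤ D
  set k : ℤ := - ((s - 1) / D) with hk
  have hDpos : 0 < D := by linarith
  have e1 : s - 1 = D * ((s - 1) / D) + (s - 1) % D := (Int.mul_ediv_add_emod (s - 1) D).symm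
  have e2 := Int.emod_nonneg (s - 1) hDpos.ne'
  have e3 := Int.emod_lt_of_pos (s - 1) hDpos
  set w : ℤ × ℤ := (w0.1 + k * α.1, w0.2 + k * α.2) with hw
  have h1 : dt α w = 1 := by
    have : dt α w = dt α w0 := by simp only [dt, hw]; ring
    rw [this, h0]
  have h2 : dt w β = s + k * D := by simp only [dt, hw, hs, hDdef]; ring
  have h3 : dt w β = (s - 1) % D + 1 := by rw [h2, hk]; linarith
  refine ⟨w, h1, by rw [h3]; linarith, ?_⟩
  by_contra hcon
  have h4 : dt w β = D := by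
    have : dt w β ≤ D := by rw [h3]; linarith
    omega
  -- then β = D (w - α)
  have key1 : D * w.1 = dt w β * α.1 + dt α w * β.1 := by simp only [dt, hDdef]; ring
  have key2 : D * w.2 = dt w β * α.2 + dt α w * β.2 := by simp only [dt, hDdef]; ring
  rw [h4, h1] at key1 key2
  have d1 : D ∣ β.1 := ⟨w.1 - α.1, by linarith⟩
  have d2 : D ∣ β.2 := ⟨w.2 - α.2, by linarith⟩
  have : IsUnit D := hβ.isUnit_of_dvd' d1 d2
  rw [Int.isUnit_iff] at this
  omega

/-- coordinates in the triangle -/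
theorem tri_coord (α β v : ℤ × ℤ) :
    dt α β * v.1 = dt v β * α.1 + dt α v * β.1 ∧ dt α β * v.2 = dt v β * α.2 + dt α v * β.2 := by
  constructor <;> (simp only [dt]; ring)

/-- Farey path lemma -/
theorem path {X : Type*} (φ : ℤ × ℤ → X) : ∀ (n : ℕ) (α β : ℤ × ℤ), IsCoprime α.1 α.2 →
    IsCoprime β.1 β.2 → 0 < α.2 → 0 < β.2 → 1 ≤ dt α β → dt α β ≤ n → φ α ≠ φ β →
    ∃ v w : ℤ × ℤ, dt v w = 1 ∧ φ v ≠ φ w ∧ 0 < v.2 ∧ 0 < w.2 ∧
      (0 ≤ dt v β ∧ 0 ≤ dt α v ∧ dt v β + dt α v ≤ dt α β) ∧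
      (0 ≤ dt w β ∧ 0 ≤ dt α w ∧ dt w β + dt α w ≤ dt α β) := by
  intro n
  induction n with
  | zero => intro α β _ _ _ _ h1 h2; exfalso; push_cast at h2; omega
  | succ n ih =>
    intro α β hα hβ hα2 hβ2 h1 h2 hφ
    have haa : dt α α = 0 := by simp only [dt]; ring
    have hbb : dt β β = 0 := by simp only [dt]; ring
    by_cases hD : dt α β = 1
    · exact ⟨α, β, hD, hφ, hα2, hβ2, ⟨by omega, by omega, by omega⟩, ⟨by omega, by omega, by omega⟩⟩
    · obtain ⟨w, hw1, hw2, hw3⟩ := exists_step α β hα hβ (by omega)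
      have hwpos : 0 < w.2 := by
        have := (tri_coord α β w).2
        by_contra hc
        push Not at hc
        have : dt α β * w.2 ≤ 0 := mul_nonpos_of_nonneg_of_nonpos (by omega) hc
        have h5 : 0 < dt w β * α.2 := mul_pos (by omega) hα2
        have h6 : 0 < dt α w * β.2 := mul_pos (by omega) hβ2
        linarith
      have hwc : IsCoprime w.1 w.2 := by
        refine ⟨-α.2, α.1, ?_⟩
        have : dt α w = 1 := hw1
        simp only [dt] at this
        linarith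
      by_cases hc : φ α = φ w
      · obtain ⟨v, u, g1, g2, g3, g4, ⟨g5, g6, g7⟩, ⟨g8, g9, g10⟩⟩ :=
          ih w β hwc hβ hwpos hβ2 hw2 (by push_cast at h2; omega) (hc ▸ hφ)
        have aux : ∀ x : ℤ × ℤ, 0 ≤ dt x β → 0 ≤ dt w x → dt x β + dt w x ≤ dt w β →
            0 ≤ dt α x ∧ dt x β + dt α x ≤ dt α β := by
          intro x a1 a2 a3
          have pl : dt w β * dt α x = dt x β * dt α w + dt w x * dt α β := by
            simp only [dt]; ring
          rw [hw1] at pl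
          have p1 : 0 ≤ dt α x := by
            by_contra hcc
            push Not at hcc
            have q1 : dt w β * dt α x < 0 := mul_neg_of_pos_of_neg (by omega) hcc
            have q2 : 0 ≤ dt w x * dt α β := mul_nonneg a2 (by omega)
            linarith
          refine ⟨p1, ?_⟩
          by_contra hcc
          push Not at hcc
          have q1 : dt w β * (dt α β - dt x β + 1) ≤ dt w β * dt α x :=
            mul_le_mul_of_nonneg_left (by linarith) (by omega)
          have q2 : dt x β * (dt w β + 1) + dt w x * dt α β ≤ dt w β * dt α β := by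
            calc dt x β * (dt w β + 1) + dt w x * dt α β
                ≤ dt x β * dt α β + dt w x * dt α β := by
                  have := mul_le_mul_of_nonneg_left hw3 a1
                  linarith
              _ = (dt x β + dt w x) * dt α β := by ring
              _ ≤ dt w β * dt α β := mul_le_mul_of_nonneg_right a3 (by omega)
          nlinarith
        exact ⟨v, u, g1, g2, g3, g4, ⟨g5, aux v g5 g6 g7⟩, ⟨g8, aux u g8 g9 g10⟩⟩
      · exact ⟨α, w, hw1, hc, hα2, hwpos, ⟨by omega, by omega, by omega⟩,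
          ⟨by omega, by omega, by omega⟩⟩

end Pool.Agent.H304R2
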