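import Mathlib
import Pool.Agent.H304R2.Basic

set_option autoImplicit false

namespace Pool.Agent.H304R2

/-- slope of a vector, shifted by `b/2` -/
noncomputable def sl (b : ℤ) (v : ℤ × ℤ) : ℝ := (v.1 : ℝ) / (v.2 : ℝ) + (b : ℝ) / 2

/-- half plus: `t1 + b t2 / 2` -/
noncomputable def tp (b : ℤ) (t : ℤ × ℤ) : ℝ := (t.1 : ℝ) + (b : ℝ) * (t.2 : ℝ) / 2

theorem sl_le_iff (b : ℤ) (v w : ℤ × ℤ) (hv : 0 < v.2) (hw : 0 < w.2) :
    sl b v ≤ sl b w ↔ 0 ≤ dt w v := by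
  have hv' : (0 : ℝ) < v.2 := by exact_mod_cast hv
  have hw' : (0 : ℝ) < w.2 := by exact_mod_cast hw
  unfold sl dt
  rw [add_le_add_iff_right, div_le_div_iff₀ hv' hw']
  constructor
  · intro h
    have : ((v.1 * w.2 : ℤ) : ℝ) ≤ ((w.1 * v.2 : ℤ) : ℝ) := by push_cast; linarith
    have := Int.cast_le.mp this
    linarith
  · intro h
    have : ((v.1 * w.2 : ℤ) : ℝ) ≤ ((w.1 * v.2 : ℤ) : ℝ) := by
      exact_mod_cast (by linarith : v.1 * w.2 ≤ w.1 * v.2)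
    push_cast at this
    linarith

theorem abs_coord_le {D p q x y z L : ℤ} (hD : 0 < D) (hp : 0 ≤ p) (hq : 0 ≤ q) (hpq : p + q ≤ D)
    (h : D * z = p * x + q * y) (hx : |x| ≤ L) (hy : |y| ≤ L) : |z| ≤ L := by
  have hL : 0 ≤ L := (abs_nonneg _).trans hx
  have h1 : D * |z| ≤ D * L := by
    calc D * |z| = |D * z| := by rw [abs_mul, abs_of_pos hD]
      _ = |p * x + q * y| := by rw [h]
      _ ≤ |p * x| + |q * y| := abs_add_le _ _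
      _ = p * |x| + q * |y| := by rw [abs_mul, abs_mul, abs_of_nonneg hp, abs_of_nonneg hq]
      _ ≤ p * L + q * L := add_le_add (mul_le_mul_of_nonneg_left hx hp)
          (mul_le_mul_of_nonneg_left hy hq)
      _ = (p + q) * L := by ring
      _ ≤ D * L := mul_le_mul_of_nonneg_right hpq hL
  exact le_of_mul_le_mul_left h1 hD

/-- path lemma with real slopes -/
theorem path_real {X : Type*} (φ : ℤ × ℤ → X) (b : ℤ) (α β : ℤ × ℤ) (L : ℤ)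
    (hα : IsCoprime α.1 α.2) (hβ : IsCoprime β.1 β.2) (hα2 : 0 < α.2) (hβ2 : 0 < β.2)
    (hd : 1 ≤ dt α β) (hφ : φ α ≠ φ β) (h1 : |α.1| ≤ L) (h2 : |α.2| ≤ L) (h3 : |β.1| ≤ L)
    (h4 : |β.2| ≤ L) :
    ∃ v w : ℤ × ℤ, dt v w = 1 ∧ φ v ≠ φ w ∧ 0 < v.2 ∧ 0 < w.2 ∧
      (|v.1| ≤ L ∧ |v.2| ≤ L ∧ |w.1| ≤ L ∧ |w.2| ≤ L) ∧
      (sl b β ≤ sl b v ∧ sl b v ≤ sl b α) ∧ (sl b β ≤ sl b w ∧ sl b w ≤ sl b α) := by
  obtain ⟨v, w, a1, a2, a3, a4, ⟨a5, a6, a7⟩, ⟨a8, a9, a10⟩⟩ :=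
    path φ (dt α β).toNat α β hα hβ hα2 hβ2 hd (by omega) hφ
  have cv := tri_coord α β v
  have cw := tri_coord α β w
  refine ⟨v, w, a1, a2, a3, a4, ⟨?_, ?_, ?_, ?_⟩, ⟨?_, ?_⟩, ⟨?_, ?_⟩⟩
  · exact abs_coord_le (by omega) a5 a6 a7 cv.1 h1 h3
  · exact abs_coord_le (by omega) a5 a6 a7 cv.2 h2 h4
  · exact abs_coord_le (by omega) a8 a9 a10 cw.1 h1 h3
  · exact abs_coord_le (by omega) a8 a9 a10 cw.2 h2 h4
  · rw [sl_le_iff b _ _ hβ2 a3]; exact a5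
  · rw [sl_le_iff b _ _ a3 hα2]; exact a6
  · rw [sl_le_iff b _ _ hβ2 a4]; exact a8
  · rw [sl_le_iff b _ _ a4 hα2]; exact a9

/-- reduce to a primitive vector -/
theorem prim (α : ℤ × ℤ) (hα2 : 0 < α.2) :
    ∃ g : ℤ, ∃ α' : ℤ × ℤ, 0 < g ∧ α = (g * α'.1, g * α'.2) ∧ IsCoprime α'.1 α'.2 ∧
      0 < α'.2 ∧ |α'.1| ≤ |α.1| ∧ |α'.2| ≤ |α.2| := by
  have hg : 0 < Int.gcd α.1 α.2 := Int.gcd_pos_of_ne_zero_right _ hα2.ne'
  obtain ⟨g, hg1, x, y, hxy, hx, hy⟩ : ∃ g : ℤ, 0 < g ∧ ∃ x y : ℤ, IsCoprime x y ∧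
      α.1 = g * x ∧ α.2 = g * y := by
    refine ⟨(Int.gcd α.1 α.2 : ℤ), by exact_mod_cast hg, α.1 / (Int.gcd α.1 α.2 : ℤ),
      α.2 / (Int.gcd α.1 α.2 : ℤ), ?_, ?_, ?_⟩
    · rw [Int.isCoprime_iff_gcd_eq_one]
      exact Int.gcd_ediv_gcd_ediv_gcd hg
    · exact (Int.mul_ediv_cancel' (Int.gcd_dvd_left ..)).symm
    · exact (Int.mul_ediv_cancel' (Int.gcd_dvd_right ..)).symm
  have habs : ∀ z : ℤ, |z| ≤ |g * z| := by
    intro z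
    rw [abs_mul]
    have : 1 ≤ |g| := by rw [abs_of_pos hg1]; omega
    nlinarith [abs_nonneg z]
  refine ⟨g, (x, y), hg1, Prod.ext hx hy, hxy, ?_, ?_, ?_⟩
  · by_contra hc
    push Not at hc
    have : g * y ≤ 0 := mul_nonpos_of_nonneg_of_nonpos hg1.le hc
    rw [← hy] at this
    omega
  · rw [hx]; exact habs x
  · rw [hy]; exact habs y

theorem sl_smul (b g : ℤ) (v : ℤ × ℤ) (hg : 0 < g) : sl b (g * v.1, g * v.2) = sl b v := by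
  unfold sl
  have : (g : ℝ) ≠ 0 := by exact_mod_cast hg.ne'
  simp only [Int.cast_mul]
  rw [mul_div_mul_left _ _ this]

/-- comparison lemma -/
theorem compare {X : Type*} (φ : ℤ × ℤ → X) (b : ℤ)
    (hs : ∀ (g : ℤ) (v : ℤ × ℤ), 0 < g → v ≠ 0 → φ (g * v.1, g * v.2) = φ v)
    (α β : ℤ × ℤ) (L : ℤ)
    (hα2 : 0 < α.2) (hβ2 : 0 < β.2)
    (hφ : φ α ≠ φ β) (h1 : |α.1| ≤ L) (h2 : |α.2| ≤ L) (h3 : |β.1| ≤ L)
    (h4 : |β.2| ≤ L) :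
    ∃ v w : ℤ × ℤ, dt v w = 1 ∧ φ v ≠ φ w ∧ 0 < v.2 ∧ 0 < w.2 ∧
      (|v.1| ≤ L ∧ |v.2| ≤ L ∧ |w.1| ≤ L ∧ |w.2| ≤ L) ∧
      (min (sl b α) (sl b β) ≤ sl b v ∧ sl b v ≤ max (sl b α) (sl b β)) ∧
      (min (sl b α) (sl b β) ≤ sl b w ∧ sl b w ≤ max (sl b α) (sl b β)) := by
  obtain ⟨g, α', hg, e1, c1, p1, l1, l2⟩ := prim α hα2
  obtain ⟨k, β', hk, e2, c2, p2, l3, l4⟩ := prim β hβ2
  have nz : ∀ v : ℤ × ℤ, 0 < v.2 → v ≠ 0 := by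
    intro v hv h
    rw [h] at hv
    simp at hv
  have s1 : sl b α = sl b α' := by rw [e1, sl_smul b g α' hg]
  have s2 : sl b β = sl b β' := by rw [e2, sl_smul b k β' hk]
  have f1 : φ α = φ α' := by rw [e1, hs g α' hg (nz _ p1)]
  have f2 : φ β = φ β' := by rw [e2, hs k β' hk (nz _ p2)]
  rw [f1, f2] at hφ
  rw [s1, s2]
  rcases lt_trichotomy (dt α' β') 0 with hlt | heq | hgt
  · have hd : dt β' α' = - dt α' β' := by simp only [dt]; ring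
    obtain ⟨v, w, a1, a2, a3, a4, a5, a6, a7⟩ := path_real φ b β' α' L c2 c1 p2 p1 (by omega)
      hφ.symm (l3.trans h3) (l4.trans h4) (l1.trans h1) (l2.trans h2)
    exact ⟨v, w, a1, a2, a3, a4, a5, ⟨(min_le_left _ _).trans a6.1, a6.2.trans (le_max_right _ _)⟩,
      ⟨(min_le_left _ _).trans a7.1, a7.2.trans (le_max_right _ _)⟩⟩
  · exfalso
    apply hφ
    congr 1
    simp only [dt] at heq
    have heq' : α'.1 * β'.2 = α'.2 * β'.1 := by linarith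
    have d1 : α'.2 ∣ β'.2 := by
      apply c1.symm.dvd_of_dvd_mul_left
      exact ⟨β'.1, heq'⟩
    have d2 : β'.2 ∣ α'.2 := by
      apply c2.symm.dvd_of_dvd_mul_right
      exact ⟨α'.1, by linarith⟩
    have e : α'.2 = β'.2 := Int.dvd_antisymm p1.le p2.le d1 d2
    refine Prod.ext ?_ e
    rw [e] at heq'
    have : β'.2 * α'.1 = β'.2 * β'.1 := by linarith
    exact mul_left_cancel₀ p2.ne' this
  · obtain ⟨v, w, a1, a2, a3, a4, a5, a6, a7⟩ := path_real φ b α' β' L c1 c2 p1 p2 (by omega)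
      hφ (l1.trans h1) (l2.trans h2) (l3.trans h3) (l4.trans h4)
    exact ⟨v, w, a1, a2, a3, a4, a5, ⟨(min_le_right _ _).trans a6.1, a6.2.trans (le_max_left _ _)⟩,
      ⟨(min_le_right _ _).trans a7.1, a7.2.trans (le_max_left _ _)⟩⟩

/-- norm in terms of the slope -/
theorem Nm_sl (b c : ℤ) (v : ℤ × ℤ) (hv : 0 < v.2) :
    (Nm b c v : ℝ) = (v.2 : ℝ) ^ 2 * (sl b v ^ 2 + ((c : ℝ) - (b : ℝ) ^ 2 / 4)) := by
  have hv' : (v.2 : ℝ) ≠ 0 := by exact_mod_cast hv.ne'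
  unfold Nm sl
  push_cast
  field_simp
  ring

theorem mu_snd (b c : ℤ) (t v : ℤ × ℤ) (hv : 0 < v.2) :
    ((mu b c t v).2 : ℝ) = v.2 * (t.2 * sl b v + tp b t) := by
  have hv' : (v.2 : ℝ) ≠ 0 := by exact_mod_cast hv.ne'
  unfold mu sl tp
  push_cast
  field_simp
  ring

/-- Moebius action -/
noncomputable def Mt (b c : ℤ) (t : ℤ × ℤ) (x : ℝ) : ℝ :=
  (tp b t * x - ((c : ℝ) - (b : ℝ) ^ 2 / 4) * t.2) / (t.2 * x + tp b t)

theorem mu_snd_pos (b c : ℤ) (t v : ℤ × ℤ) (hv : 0 < v.2) (h : 0 < t.2 * sl b v + tp b t) :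
    0 < (mu b c t v).2 := by
  have h1 := mu_snd b c t v hv
  have hv' : (0 : ℝ) < v.2 := by exact_mod_cast hv
  have : (0 : ℝ) < ((mu b c t v).2 : ℝ) := by rw [h1]; positivity
  exact_mod_cast this

theorem sl_mu (b c : ℤ) (t v : ℤ × ℤ) (hv : 0 < v.2) (h : 0 < t.2 * sl b v + tp b t) :
    sl b (mu b c t v) = Mt b c t (sl b v) := by
  have hv' : (v.2 : ℝ) ≠ 0 := by exact_mod_cast hv.ne'
  have h1 := mu_snd b c t v hv
  have h2 : ((mu b c t v).2 : ℝ) ≠ 0 := by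
    rw [h1]
    have : (0 : ℝ) < v.2 := by exact_mod_cast hv
    positivity
  have h3 : ((mu b c t v).1 : ℝ) + (b : ℝ) / 2 * (mu b c t v).2 =
      v.2 * (tp b t * sl b v - ((c : ℝ) - (b : ℝ) ^ 2 / 4) * t.2) := by
    unfold mu sl tp
    push_cast
    field_simp
    ring
  have h4 : sl b (mu b c t v) = (((mu b c t v).1 : ℝ) + (b : ℝ) / 2 * (mu b c t v).2) /
      ((mu b c t v).2 : ℝ) := by
    unfold sl
    field_simp
  rw [h4, h3, h1, Mt]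
  rw [mul_div_mul_left _ _ hv']

end Pool.Agent.H304R2
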