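import Mathlib
import Pool.Agent.H304R2.Compare

set_option autoImplicit false

open Finset

namespace Pool.Agent.H304R2

theorem mu_eta (b c : ℤ) (v v0 : ℤ × ℤ) :
    mu b c (mu b c v (cj b v0)) v0 = (Nm b c v0 * v.1, Nm b c v0 * v.2) := by
  simp only [mu, cj, Nm, Prod.mk.injEq]
  constructor <;> ring

theorem mu_w (b c : ℤ) (v w : ℤ × ℤ) (h : dt v w = 1) :
    mu b c v (Bi b c v w, 1) = (Nm b c v * w.1, Nm b c v * w.2) := by
  simp only [mu, Nm, Bi, dt, Prod.mk.injEq] at *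
  constructor
  · linear_combination (c * v.2) * h
  · linear_combination (-(v.1 + b * v.2)) * h

theorem edges_card (b c n : ℤ) (C : ℕ) (E : Finset ((ℤ × ℤ) × (ℤ × ℤ)))
    (hn : ff b c n ≠ 0)
    (hE : ∀ e ∈ E, dt e.1 e.2 = 1 ∧ Bi b c e.1 e.2 = n ∧ 0 < Nm b c e.1)
    (hC : ∀ e ∈ E, ∀ e' ∈ E, Nm b c e.1 = Nm b c e'.1 →
      |(mu b c e.1 (cj b e'.1)).1| ≤ C * Nm b c e.1 ∧ |(mu b c e.1 (cj b e'.1)).2| ≤ C * Nm b c e.1) :
    E.card ≤ (2 * C + 1) ^ 2 * (Nat.divisors (ff b c n).natAbs).card := by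
  classical
  have himg : (E.image (fun e => (Nm b c e.1).natAbs)) ⊆ Nat.divisors (ff b c n).natAbs := by
    intro d hd
    rw [mem_image] at hd
    obtain ⟨e, he, rfl⟩ := hd
    obtain ⟨h1, h2, h3⟩ := hE e he
    rw [Nat.mem_divisors]
    refine ⟨?_, by rwa [Int.natAbs_ne_zero]⟩
    rw [Int.natAbs_dvd_natAbs, ← h2, ← Nm_mul_Nm b c _ _ h1]
    exact dvd_mul_right _ _
  refine (card_le_mul_card_image (f := fun e => (Nm b c e.1).natAbs) E ((2 * C + 1) ^ 2) ?_).trans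
    (Nat.mul_le_mul_left _ (card_le_card himg))
  intro d hd
  rw [mem_image] at hd
  obtain ⟨e0, he0, hd0⟩ := hd
  obtain ⟨g1, g2, g3⟩ := hE e0 he0
  set k := Nm b c e0.1 with hk
  -- the map
  have key : ∀ e ∈ E.filter (fun e => (Nm b c e.1).natAbs = d),
      Nm b c e.1 = k ∧ k ∣ (mu b c e.1 (cj b e0.1)).1 ∧ k ∣ (mu b c e.1 (cj b e0.1)).2 ∧
      |(mu b c e.1 (cj b e0.1)).1| ≤ C * k ∧ |(mu b c e.1 (cj b e0.1)).2| ≤ C * k := by
    intro e he
    rw [mem_filter] at he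
    obtain ⟨heE, hed⟩ := he
    obtain ⟨h1, h2, h3⟩ := hE e heE
    have hN : Nm b c e.1 = k := by omega
    have hdv : k ∣ ff b c n := by
      rw [← g2, ← Nm_mul_Nm b c _ _ g1]; exact dvd_mul_right _ _
    have w1 := mu_w b c e.1 e.2 h1
    have w0 := mu_w b c e0.1 e0.2 g1
    rw [h2] at w1
    rw [g2] at w0
    simp only [mu, Prod.mk.injEq] at w1 w0
    have q1 : k ∣ e.1.1 + (n + b) * e.1.2 := ⟨e.2.2, by rw [← hN]; linarith [w1.2]⟩
    have q0 : k ∣ e0.1.1 + (n + b) * e0.1.2 := ⟨e0.2.2, by linarith [w0.2]⟩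
    obtain ⟨s, hs⟩ := q1
    obtain ⟨t, ht⟩ := q0
    obtain ⟨m, hm⟩ := hdv
    have r1 : e.1.1 = k * s - (n + b) * e.1.2 := by linarith
    have r0 : e0.1.1 = k * t - (n + b) * e0.1.2 := by linarith
    have hc := hC e heE e0 he0 (by rw [hN])
    rw [hN] at hc
    refine ⟨hN, ?_, ?_, hc.1, hc.2⟩
    · refine ⟨k * s * t - s * (n + b) * e0.1.2 - t * (n + b) * e.1.2 + b * s * e0.1.2 +
        m * (e.1.2 * e0.1.2), ?_⟩
      simp only [mu, cj, ff] at hm ⊢
      rw [r1, r0]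
      linear_combination (e.1.2 * e0.1.2) * hm
    · refine ⟨e.1.2 * t - s * e0.1.2, ?_⟩
      simp only [mu, cj]
      rw [r1, r0]
      ring
  have hcard : (E.filter (fun e => (Nm b c e.1).natAbs = d)).card ≤
      ((Icc (-(C : ℤ)) C) ×ˢ (Icc (-(C : ℤ)) C)).card := by
    apply card_le_card_of_injOn (fun e => ((mu b c e.1 (cj b e0.1)).1 / k,
      (mu b c e.1 (cj b e0.1)).2 / k))
    · intro e he
      obtain ⟨p1, ⟨x, hx⟩, ⟨y, hy⟩, p4, p5⟩ := key e he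
      rw [hx, abs_mul, abs_of_pos g3, mul_comm] at p4
      rw [hy, abs_mul, abs_of_pos g3, mul_comm] at p5
      have p4' := abs_le.mp (le_of_mul_le_mul_right p4 g3)
      have p5' := abs_le.mp (le_of_mul_le_mul_right p5 g3)
      simp only [coe_product, coe_Icc, Set.mem_prod, Set.mem_Icc]
      rw [hx, hy, Int.mul_ediv_cancel_left _ g3.ne', Int.mul_ediv_cancel_left _ g3.ne']
      exact ⟨p4', p5'⟩
    · intro e he e' he' heq
      obtain ⟨p1, ⟨x, hx⟩, ⟨y, hy⟩, -, -⟩ := key e he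
      obtain ⟨p1', ⟨x', hx'⟩, ⟨y', hy'⟩, -, -⟩ := key e' he'
      simp only [Prod.mk.injEq] at heq
      rw [hx, hy, hx', hy', Int.mul_ediv_cancel_left _ g3.ne', Int.mul_ediv_cancel_left _ g3.ne',
        Int.mul_ediv_cancel_left _ g3.ne', Int.mul_ediv_cancel_left _ g3.ne'] at heq
      obtain ⟨ex, ey⟩ := heq
      have hmu : mu b c e.1 (cj b e0.1) = mu b c e'.1 (cj b e0.1) :=
        Prod.ext (by rw [hx, hx', ex]) (by rw [hy, hy', ey])
      have m1 := mu_eta b c e.1 e0.1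
      have m2 := mu_eta b c e'.1 e0.1
      rw [hmu, m2, ← hk] at m1
      simp only [Prod.mk.injEq] at m1
      have v1 : e.1 = e'.1 := Prod.ext (mul_left_cancel₀ g3.ne' m1.1).symm
        (mul_left_cancel₀ g3.ne' m1.2).symm
      rw [mem_coe, mem_filter] at he he'
      obtain ⟨h1, h2, h3⟩ := hE e he.1
      obtain ⟨h1', h2', h3'⟩ := hE e' he'.1
      have w1 := mu_w b c e.1 e.2 h1
      have w1' := mu_w b c e'.1 e'.2 h1'
      rw [h2, p1, v1] at w1
      rw [h2', p1'] at w1'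
      rw [w1'] at w1
      simp only [Prod.mk.injEq] at w1
      have v2 : e.2 = e'.2 := Prod.ext (mul_left_cancel₀ g3.ne' w1.1).symm
        (mul_left_cancel₀ g3.ne' w1.2).symm
      exact Prod.ext v1 v2
  refine hcard.trans (le_of_eq ?_)
  rw [card_product, Int.card_Icc]
  have : ((C : ℤ) + 1 - -(C : ℤ)).toNat = 2 * C + 1 := by omega
  rw [this]
  ring

end Pool.Agent.H304R2
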