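import Mathlib

set_option autoImplicit false

open Filter Topology Polynomial

namespace Pool.Agent.H304R2

/-- eventually a rational function of order at least `d` at infinity -/
def IsRat (d : ℕ) (f : ℝ → ℝ) : Prop :=
  ∃ P Q : ℝ[X], Q.Monic ∧ P.natDegree + d ≤ Q.natDegree ∧
    ∀ᶠ x in atTop, f x = P.eval x / Q.eval x

theorem IsRat.mono {d e : ℕ} {f : ℝ → ℝ} (h : IsRat d f) (hed : e ≤ d) : IsRat e f := by
  obtain ⟨P, Q, h1, h2, h3⟩ := h
  exact ⟨P, Q, h1, by omega, h3⟩

theorem IsRat.congr {d : ℕ} {f g : ℝ → ℝ} (h : IsRat d f) (hfg : ∀ᶠ x in atTop, g x = f x) :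
    IsRat d g := by
  obtain ⟨P, Q, h1, h2, h3⟩ := h
  refine ⟨P, Q, h1, h2, ?_⟩
  filter_upwards [h3, hfg] with x a b
  rw [b, a]

theorem monic_ne {Q : ℝ[X]} (hQ : Q.Monic) : ∀ᶠ x in atTop, Q.eval x ≠ 0 := by
  have := Polynomial.eventually_atTop_not_isRoot Q hQ.ne_zero
  filter_upwards [this] with x hx
  exact hx

theorem IsRat.add {d : ℕ} {f g : ℝ → ℝ} (hf : IsRat d f) (hg : IsRat d g) :
    IsRat d (fun x => f x + g x) := by
  obtain ⟨P, Q, h1, h2, h3⟩ := hf
  obtain ⟨P', Q', h1', h2', h3'⟩ := hg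
  refine ⟨P * Q' + P' * Q, Q * Q', h1.mul h1', ?_, ?_⟩
  · rw [h1.natDegree_mul h1']
    have a1 : (P * Q' + P' * Q).natDegree ≤ max (P * Q').natDegree (P' * Q).natDegree :=
      natDegree_add_le _ _
    have a2 : (P * Q').natDegree ≤ P.natDegree + Q'.natDegree := natDegree_mul_le
    have a3 : (P' * Q).natDegree ≤ P'.natDegree + Q.natDegree := natDegree_mul_le
    omega
  · filter_upwards [h3, h3', monic_ne h1, monic_ne h1'] with x a b c d
    rw [a, b, eval_add, eval_mul, eval_mul, eval_mul]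
    field_simp

theorem IsRat.mul {d e : ℕ} {f g : ℝ → ℝ} (hf : IsRat d f) (hg : IsRat e g) :
    IsRat (d + e) (fun x => f x * g x) := by
  obtain ⟨P, Q, h1, h2, h3⟩ := hf
  obtain ⟨P', Q', h1', h2', h3'⟩ := hg
  refine ⟨P * P', Q * Q', h1.mul h1', ?_, ?_⟩
  · rw [h1.natDegree_mul h1']
    have a2 : (P * P').natDegree ≤ P.natDegree + P'.natDegree := natDegree_mul_le
    omega
  · filter_upwards [h3, h3'] with x a b
    rw [a, b, eval_mul, eval_mul]
    rw [div_mul_div_comm]

theorem IsRat.const_mul {d : ℕ} {f : ℝ → ℝ} (r : ℝ) (hf : IsRat d f) :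
    IsRat d (fun x => r * f x) := by
  obtain ⟨P, Q, h1, h2, h3⟩ := hf
  refine ⟨C r * P, Q, h1, ?_, ?_⟩
  · have := natDegree_C_mul_le r P
    omega
  · filter_upwards [h3] with x a
    rw [a, eval_mul, eval_C]
    ring

theorem IsRat.neg {d : ℕ} {f : ℝ → ℝ} (hf : IsRat d f) : IsRat d (fun x => - f x) := by
  refine (hf.const_mul (-1)).congr (Eventually.of_forall fun x => ?_)
  ring

theorem IsRat.sub {d : ℕ} {f g : ℝ → ℝ} (hf : IsRat d f) (hg : IsRat d g) :
    IsRat d (fun x => f x - g x) := by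
  refine (hf.add hg.neg).congr (Eventually.of_forall fun x => ?_)
  ring

theorem IsRat.shift {d : ℕ} {f : ℝ → ℝ} (hf : IsRat d f) : IsRat d (fun x => f (x + 1)) := by
  obtain ⟨P, Q, h1, h2, h3⟩ := hf
  refine ⟨taylor 1 P, taylor 1 Q, ?_, ?_, ?_⟩
  · rw [Monic, leadingCoeff_taylor]; exact h1
  · rw [natDegree_taylor, natDegree_taylor]; exact h2
  · have := (tendsto_atTop_add_const_right atTop (1 : ℝ) tendsto_id).eventually h3
    filter_upwards [this] with x hx
    rw [taylor_eval, taylor_eval]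
    exact hx

theorem nd_taylor_sub (P : ℝ[X]) : taylor 1 P - P = 0 ∨
    (taylor 1 P - P).natDegree + 1 ≤ P.natDegree := by
  by_cases h0 : taylor 1 P - P = 0
  · exact Or.inl h0
  · right
    have hP : P ≠ 0 := by
      rintro rfl
      exact h0 (by simp)
    have h1 : (P - taylor 1 P).degree < P.degree :=
      degree_sub_lt_left (degree_taylor P 1).symm hP (leadingCoeff_taylor (r := (1 : ℝ)) (f := P)).symm
    have h2 : (taylor 1 P - P).degree < P.degree := by
      rw [← neg_sub, degree_neg]; exact h1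
    exact natDegree_lt_natDegree h0 h2

theorem IsRat.diff {d : ℕ} {f : ℝ → ℝ} (hd : 1 ≤ d) (hf : IsRat d f) :
    IsRat (d + 1) (fun x => f x - f (x + 1)) := by
  obtain ⟨P, Q, h1, h2, h3⟩ := hf
  have hm : (taylor (1 : ℝ) Q).Monic := by rw [Monic, leadingCoeff_taylor]; exact h1
  refine ⟨P * (taylor 1 Q - Q) - (taylor 1 P - P) * Q, Q * taylor 1 Q, h1.mul hm, ?_, ?_⟩
  · rw [h1.natDegree_mul hm, natDegree_taylor]
    have a1 : (P * (taylor 1 Q - Q) - (taylor 1 P - P) * Q).natDegree ≤
      max (P * (taylor 1 Q - Q)).natDegree ((taylor 1 P - P) * Q).natDegree :=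
      natDegree_sub_le _ _
    have a2 : (P * (taylor 1 Q - Q)).natDegree + d + 1 ≤ Q.natDegree + Q.natDegree := by
      rcases nd_taylor_sub Q with h | h
      · rw [h]; simp; omega
      · have : (P * (taylor 1 Q - Q)).natDegree ≤ P.natDegree + (taylor 1 Q - Q).natDegree :=
          natDegree_mul_le
        omega
    have a3 : ((taylor 1 P - P) * Q).natDegree + d + 1 ≤ Q.natDegree + Q.natDegree := by
      rcases nd_taylor_sub P with h | h
      · rw [h]; simp; omega
      · have : ((taylor 1 P - P) * Q).natDegree ≤ (taylor 1 P - P).natDegree + Q.natDegree :=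
          natDegree_mul_le
        omega
    omega
  · have := (tendsto_atTop_add_const_right atTop (1 : ℝ) tendsto_id).eventually h3
    filter_upwards [h3, this, monic_ne h1, monic_ne hm] with x a b c d
    simp only [id] at b
    rw [a, b, eval_sub, eval_mul, eval_mul, eval_mul, eval_sub, eval_sub]
    rw [taylor_eval] at d
    rw [taylor_eval, taylor_eval]
    field_simp
    ring

theorem IsRat.div_one_add {d : ℕ} {f g : ℝ → ℝ} (hf : IsRat d f) (hg : IsRat 1 g) :
    IsRat d (fun x => f x / (1 + g x)) := by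
  obtain ⟨P, Q, h1, h2, h3⟩ := hf
  obtain ⟨P', Q', h1', h2', h3'⟩ := hg
  have hlt : P'.natDegree < Q'.natDegree := by omega
  have hm : (Q' + P').Monic := h1'.add_of_left (degree_lt_degree hlt)
  refine ⟨P * Q', Q * (Q' + P'), h1.mul hm, ?_, ?_⟩
  · rw [h1.natDegree_mul hm, natDegree_add_eq_left_of_natDegree_lt hlt]
    have a2 : (P * Q').natDegree ≤ P.natDegree + Q'.natDegree := natDegree_mul_le
    omega
  · filter_upwards [h3, h3', monic_ne h1, monic_ne h1', monic_ne hm] with x a b c d e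
    rw [a, b, eval_mul, eval_mul, eval_add]
    rw [eval_add] at e
    have : 1 + eval x P' / eval x Q' = (eval x Q' + eval x P') / eval x Q' := by
      field_simp
    rw [this]
    field_simp

theorem IsRat.bound {d : ℕ} {f : ℝ → ℝ} (hf : IsRat d f) :
    ∃ C : ℝ, 0 < C ∧ ∀ᶠ x in atTop, |f x| ≤ C / x ^ d := by
  obtain ⟨P, Q, h1, h2, h3⟩ := hf
  have hle : (X ^ d * P).degree ≤ Q.degree := by
    rw [degree_eq_natDegree h1.ne_zero]
    apply (degree_le_natDegree).trans
    have : (X ^ d * P).natDegree ≤ d + P.natDegree := by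
      refine natDegree_mul_le.trans ?_
      rw [natDegree_X_pow]
    exact_mod_cast (by omega : (X ^ d * P).natDegree ≤ Q.natDegree)
  have hO := isBigO_atTop_of_degree_le (P := X ^ d * P) (Q := Q) hle
  obtain ⟨C, hC⟩ := hO.bound
  refine ⟨|C| + 1, by positivity, ?_⟩
  filter_upwards [h3, hC, monic_ne h1, eventually_gt_atTop 0] with x a b c e
  rw [a, eval_mul, eval_pow, eval_X, Real.norm_eq_abs, Real.norm_eq_abs, abs_mul,
    abs_of_pos (pow_pos e d)] at *
  rw [le_div_iff₀ (pow_pos e d), abs_div, div_mul_eq_mul_div, div_le_iff₀ (abs_pos.mpr c)]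
  calc |eval x P| * x ^ d = x ^ d * |eval x P| := by ring
    _ ≤ C * |eval x Q| := b
    _ ≤ (|C| + 1) * |eval x Q| := by
      apply mul_le_mul_of_nonneg_right _ (abs_nonneg _)
      linarith [le_abs_self C]

/-- the main term -/
noncomputable def LL (k : ℕ) (x : ℝ) : ℝ := (k.factorial : ℝ) / ∏ i ∈ Finset.range (k + 1), (x + i)

noncomputable def psi (a : ℝ) : ℕ → ℝ → ℝ
  | 0, x => 1 / x
  | k + 1, x => (psi a k x - psi a k (x + 1)) / (1 + a * psi a k x * psi a k (x + 1))

theorem LL_rat (k : ℕ) : IsRat (k + 1) (LL k) := by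
  refine ⟨C (k.factorial : ℝ), ∏ i ∈ Finset.range (k + 1), (X + C (i : ℝ)), ?_, ?_, ?_⟩
  · exact monic_prod_of_monic _ _ (fun i _ => monic_X_add_C _)
  · rw [natDegree_prod_of_monic _ _ (fun i _ => monic_X_add_C _), natDegree_C]
    simp only [natDegree_X_add_C]
    simp
  · refine Eventually.of_forall fun x => ?_
    rw [eval_C, eval_prod]
    simp [LL]

theorem LL_diff (k : ℕ) {x : ℝ} (hx : 0 < x) : LL k x - LL k (x + 1) = LL (k + 1) x := by
  unfold LL
  have e1 : ∏ i ∈ Finset.range (k + 1 + 1), (x + (i : ℝ)) =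
      (∏ i ∈ Finset.range (k + 1), (x + (i : ℝ))) * (x + (k + 1 : ℕ)) :=
    Finset.prod_range_succ _ _
  have e2 : ∏ i ∈ Finset.range (k + 1 + 1), (x + (i : ℝ)) =
      (∏ i ∈ Finset.range (k + 1), (x + 1 + (i : ℝ))) * (x + (0 : ℕ)) := by
    rw [Finset.prod_range_succ']
    congr 1
    apply Finset.prod_congr rfl
    intro i _
    push_cast; ring
  set A := ∏ i ∈ Finset.range (k + 1), (x + (i : ℝ)) with hA
  set B := ∏ i ∈ Finset.range (k + 1), (x + 1 + (i : ℝ)) with hB
  have hApos : 0 < A := Finset.prod_pos fun i _ => by positivity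
  have hBpos : 0 < B := Finset.prod_pos fun i _ => by positivity
  rw [e1]
  have e3 : A * (x + (k + 1 : ℕ)) = B * x := by rw [← e1, e2]; simp
  have hk : 0 < x + ((k + 1 : ℕ) : ℝ) := by positivity
  rw [Nat.factorial_succ]
  rw [div_sub_div _ _ hApos.ne' hBpos.ne', div_eq_div_iff (by positivity) (by positivity)]
  push_cast at e3 ⊢
  have e4 : B = A * (x + (k + 1)) / x := by
    field_simp
    linarith
  rw [e4]
  field_simp
  ring

theorem psi_rat (a : ℝ) (k : ℕ) : IsRat (k + 3) (fun x => psi a k x - LL k x) ∧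
    IsRat (k + 1) (psi a k) := by
  induction k with
  | zero =>
    have h : IsRat 3 (fun x => psi a 0 x - LL 0 x) := by
      refine ⟨0, X ^ 3, monic_X_pow 3, by simp, Eventually.of_forall fun x => ?_⟩
      simp [psi, LL]
    refine ⟨h, ?_⟩
    refine ((LL_rat 0).add (h.mono (by norm_num))).congr (Eventually.of_forall fun x => ?_)
    ring
  | succ k ih =>
    obtain ⟨h1, h2⟩ := ih
    set u : ℝ → ℝ := fun x => a * psi a k x * psi a k (x + 1) with hu
    have hu2 : IsRat (k + 1 + (k + 1)) u := by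
      refine ((h2.mul h2.shift).const_mul a).congr (Eventually.of_forall fun x => ?_)
      simp only [hu]; ring
    have hu1 : IsRat 1 u := hu2.mono (by omega)
    set E : ℝ → ℝ := fun x => psi a k x - LL k x with hE
    have hEd : IsRat (k + 4) (fun x => E x - E (x + 1)) := h1.diff (by omega)
    have hLu : IsRat (k + 1 + 1 + (k + 1 + (k + 1))) (fun x => LL (k + 1) x * u x) :=
      (LL_rat (k + 1)).mul hu2
    have hmain : IsRat (k + 4) (fun x => ((E x - E (x + 1)) - LL (k + 1) x * u x) / (1 + u x)) :=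
      (hEd.sub (hLu.mono (by omega))).div_one_add hu1
    have hne : ∀ᶠ x in atTop, 1 + u x ≠ 0 := by
      obtain ⟨C, hC, hb⟩ := hu1.bound
      filter_upwards [hb, eventually_gt_atTop (2 * C), eventually_gt_atTop 0] with x h3 h4 h5
      rw [pow_one] at h3
      have : C / x < 1 / 2 := by
        rw [div_lt_iff₀ h5]; linarith
      have := (abs_le.mp h3).1
      intro h6
      linarith
    have hfin : IsRat (k + 1 + 3) (fun x => psi a (k + 1) x - LL (k + 1) x) := by
      refine (hmain.mono (by omega)).congr ?_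
      filter_upwards [hne, eventually_gt_atTop 0] with x h3 h4
      have h5 := LL_diff k h4
      have h6 : psi a (k + 1) x = (psi a k x - psi a k (x + 1)) / (1 + u x) := by
        simp only [hu, psi]
      rw [h6]
      have h7 : psi a k x - psi a k (x + 1) = LL (k + 1) x + (E x - E (x + 1)) := by
        simp only [hE]; linarith
      rw [h7]
      field_simp
      ring
    refine ⟨hfin, ?_⟩
    refine ((LL_rat (k + 1)).add (hfin.mono (by omega))).congr (Eventually.of_forall fun x => ?_)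
    ring

theorem LL_tendsto (k : ℕ) : Tendsto (fun x : ℝ => LL k x * x ^ (k + 1)) atTop
    (𝓝 (k.factorial : ℝ)) := by
  have h1 : Tendsto (fun x : ℝ => (k.factorial : ℝ) * ∏ i ∈ Finset.range (k + 1), (x / (x + i)))
      atTop (𝓝 ((k.factorial : ℝ) * ∏ i ∈ Finset.range (k + 1), (1 : ℝ))) := by
    apply Tendsto.const_mul
    apply tendsto_finsetProd
    intro i _
    have h2 : Tendsto (fun x : ℝ => 1 - (i : ℝ) / (x + i)) atTop (𝓝 (1 - 0)) := by
      apply Tendsto.const_sub
      apply Tendsto.div_atTop tendsto_const_nhds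
      exact tendsto_atTop_add_const_right _ _ tendsto_id
    rw [sub_zero] at h2
    refine h2.congr' ?_
    filter_upwards [eventually_gt_atTop 0] with x hx
    have : x + (i : ℝ) ≠ 0 := by positivity
    field_simp
    ring
  simp only [Finset.prod_const_one, mul_one] at h1
  refine h1.congr' ?_
  filter_upwards [eventually_gt_atTop 0] with x hx
  rw [Finset.prod_div_distrib, Finset.prod_const, Finset.card_range, LL]
  ring

theorem psi_tendsto (a : ℝ) (k : ℕ) : Tendsto (fun x : ℝ => psi a k x * x ^ (k + 1)) atTop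
    (𝓝 (k.factorial : ℝ)) := by
  have h1 := LL_tendsto k
  obtain ⟨C, hC, hb⟩ := (psi_rat a k).1.bound
  have h2 : Tendsto (fun x : ℝ => (psi a k x - LL k x) * x ^ (k + 1)) atTop (𝓝 0) := by
    apply squeeze_zero_norm' (a := fun x : ℝ => C / x)
    · filter_upwards [hb, eventually_ge_atTop 1] with x h3 h4
      have hx0 : 0 < x := by linarith
      rw [Real.norm_eq_abs, abs_mul, abs_of_pos (pow_pos hx0 (k + 1))]
      calc |psi a k x - LL k x| * x ^ (k + 1) ≤ C / x ^ (k + 3) * x ^ (k + 1) :=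
            mul_le_mul_of_nonneg_right h3 (by positivity)
        _ = C / x ^ 2 := by
            rw [show k + 3 = (k + 1) + 2 by ring, pow_add x (k + 1) 2]
            field_simp
        _ ≤ C / x := by
            apply div_le_div_of_nonneg_left hC.le hx0
            nlinarith
    · exact tendsto_const_nhds.div_atTop tendsto_id
  have h3 := h1.add h2
  rw [add_zero] at h3
  refine h3.congr fun x => ?_
  ring

/-- two-sided bounds -/
theorem psi_bounds (a : ℝ) (k : ℕ) : ∀ᶠ x : ℝ in atTop,
    (1 / 2) / x ^ (k + 1) ≤ psi a k x ∧ psi a k x ≤ (2 * k.factorial : ℝ) / x ^ (k + 1) := by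
  have h := psi_tendsto a k
  have hk : (1 : ℝ) ≤ k.factorial := by exact_mod_cast Nat.succ_le_of_lt (Nat.factorial_pos k)
  have h1 : ∀ᶠ x : ℝ in atTop, psi a k x * x ^ (k + 1) ∈ Set.Ioo (1 / 2 : ℝ) (2 * k.factorial) :=
    h.eventually (Ioo_mem_nhds (by linarith) (by linarith))
  filter_upwards [h1, eventually_gt_atTop 0] with x h2 h3
  have hp := pow_pos h3 (k + 1)
  constructor
  · rw [div_le_iff₀ hp]; exact h2.1.le
  · rw [le_div_iff₀ hp]; exact h2.2.le

end Pool.Agent.H304R2
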