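import Mathlib
import Pool.Agent.H304R2.Compare
import Pool.Agent.H304R2.Rat

set_option autoImplicit false

open Filter Topology

namespace Pool.Agent.H304R2

/-- the real parameter `a = c - b^2/4` -/
noncomputable def aa (b c : ℤ) : ℝ := (c : ℝ) - (b : ℝ) ^ 2 / 4

/-- the flow step -/
noncomputable def Vp (a ψ x : ℝ) : ℝ := (x - a * ψ) / (1 + ψ * x)

theorem Mt_one (b c m : ℤ) (x : ℝ) (h : (m : ℝ) + b / 2 ≠ 0) :
    Mt b c (m, 1) x = Vp (aa b c) (1 / ((m : ℝ) + b / 2)) x := by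
  unfold Mt Vp aa tp
  push_cast
  have e1 : (m : ℝ) + (b : ℝ) * 1 / 2 = (m : ℝ) + b / 2 := by ring
  rw [e1]
  set s := (m : ℝ) + (b : ℝ) / 2 with hs
  have e2 : 1 * x + s = s * (1 + 1 / s * x) := by field_simp; ring
  have e3 : s * x - ((c : ℝ) - (b : ℝ) ^ 2 / 4) * 1 =
      s * (x - ((c : ℝ) - (b : ℝ) ^ 2 / 4) * (1 / s)) := by field_simp
  rw [e2, e3, mul_div_mul_left _ _ h]

theorem Mt_neg (b c m : ℤ) (x : ℝ) (h : (m : ℝ) + b / 2 ≠ 0) :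
    Mt b c (cj b (m, 1)) x = Vp (aa b c) (-(1 / ((m : ℝ) + b / 2))) x := by
  unfold Mt Vp aa tp cj
  push_cast
  have e1 : (m : ℝ) + (b : ℝ) * 1 + (b : ℝ) * -1 / 2 = (m : ℝ) + b / 2 := by ring
  rw [e1]
  set s := (m : ℝ) + (b : ℝ) / 2 with hs
  have e2 : -1 * x + s = s * (1 + -(1 / s) * x) := by field_simp; ring
  have e3 : s * x - ((c : ℝ) - (b : ℝ) ^ 2 / 4) * -1 =
      s * (x - ((c : ℝ) - (b : ℝ) ^ 2 / 4) * -(1 / s)) := by field_simp
  rw [e2, e3, mul_div_mul_left _ _ h]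

theorem Mt_sub (b c : ℤ) (t : ℤ × ℤ) (x y : ℝ) (hx : (t.2 : ℝ) * x + tp b t ≠ 0)
    (hy : (t.2 : ℝ) * y + tp b t ≠ 0) :
    Mt b c t x - Mt b c t y = (Nm b c t : ℝ) * (x - y) /
      (((t.2 : ℝ) * x + tp b t) * ((t.2 : ℝ) * y + tp b t)) := by
  have hN : (Nm b c t : ℝ) = tp b t ^ 2 + ((c : ℝ) - (b : ℝ) ^ 2 / 4) * (t.2 : ℝ) ^ 2 := by
    unfold Nm tp; push_cast; ring
  unfold Mt
  rw [div_sub_div _ _ hx hy, hN]
  congr 1
  ring

/-- admissible steps -/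
def Stp (b c : ℤ) (T : ℤ) (H : ℝ) (t : ℤ × ℤ) : Prop :=
  0 < Nm b c t ∧ |t.1| ≤ T ∧ |t.2| ≤ 1 ∧
  (∀ x : ℝ, 0 ≤ x → x ≤ H → 0 < (t.2 : ℝ) * x + tp b t) ∧
  (∀ x y : ℝ, 0 ≤ x → x ≤ H → 0 ≤ y → y ≤ H → |Mt b c t x - Mt b c t y| ≤ 2 * |x - y|)

theorem stp_aux (b c m : ℤ) (T : ℤ) (H : ℝ) (hH : 0 ≤ H) (hs : 4 * H + |aa b c| + 1 ≤ (m : ℝ) + b / 2)
    (t : ℤ × ℤ) (h2 : t.2 = 1 ∨ t.2 = -1) (htp : tp b t = (m : ℝ) + b / 2) (hT : |t.1| ≤ T) :
    Stp b c T H t := by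
  set s := (m : ℝ) + (b : ℝ) / 2 with hsdef
  have hN : (Nm b c t : ℝ) = tp b t ^ 2 + aa b c * (t.2 : ℝ) ^ 2 := by
    unfold Nm tp aa; push_cast; ring
  have ht2 : (t.2 : ℝ) ^ 2 = 1 := by
    rcases h2 with h | h <;> rw [h] <;> norm_num
  rw [htp, ht2, mul_one] at hN
  have ha := neg_abs_le (aa b c)
  have ha2 := le_abs_self (aa b c)
  have ha3 := abs_nonneg (aa b c)
  have hs1 : 1 ≤ s := by linarith
  have hNpos : (0 : ℝ) < Nm b c t := by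
    rw [hN]
    nlinarith
  have hden : ∀ x : ℝ, 0 ≤ x → x ≤ H → s - H ≤ (t.2 : ℝ) * x + tp b t := by
    intro x hx0 hxH
    rw [htp]
    rcases h2 with h | h <;> rw [h] <;> push_cast <;> linarith
  have hsH : 0 < s - H := by linarith
  refine ⟨by exact_mod_cast hNpos, hT, ?_, fun x h1 h2 => by linarith [hden x h1 h2], ?_⟩
  · rcases h2 with h | h <;> rw [h] <;> norm_num
  · intro x y hx0 hxH hy0 hyH
    have dx := hden x hx0 hxH
    have dy := hden y hy0 hyH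
    have px : 0 < (t.2 : ℝ) * x + tp b t := by linarith
    have py : 0 < (t.2 : ℝ) * y + tp b t := by linarith
    rw [Mt_sub b c t x y px.ne' py.ne', abs_div, abs_mul, abs_of_pos hNpos,
      abs_of_pos (mul_pos px py), div_le_iff₀ (mul_pos px py)]
    have h5 : (s - H) * (s - H) ≤ ((t.2 : ℝ) * x + tp b t) * ((t.2 : ℝ) * y + tp b t) :=
      mul_le_mul dx dy hsH.le (by linarith)
    have h6 : (Nm b c t : ℝ) ≤ 2 * ((s - H) * (s - H)) := by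
      rw [hN]
      nlinarith
    have h7 := abs_nonneg (x - y)
    nlinarith

theorem stp_pair (b c m : ℤ) (T : ℤ) (H : ℝ) (hH : 0 ≤ H)
    (hs : 4 * H + |aa b c| + 1 ≤ (m : ℝ) + b / 2) (hT : |m| + |b| ≤ T) :
    Stp b c T H (m, 1) ∧ Stp b c T H (cj b (m, 1)) := by
  constructor
  · apply stp_aux b c m T H hH hs _ (Or.inl rfl)
    · simp [tp]
    · have := abs_nonneg b
      simp only; omega
  · apply stp_aux b c m T H hH hs _ (Or.inr rfl)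
    · simp only [tp, cj]; push_cast; ring
    · simp only [cj]
      refine (abs_add_le _ _).trans ?_
      rw [mul_one]; exact hT

inductive Reach (b c : ℤ) (φ : ℤ × ℤ → ℤ) (P : ℤ × ℤ → Prop) (lo hi : ℝ) :
    List ℝ → ℝ → ℝ → ℤ → Prop
  | nil (x : ℝ) (h1 : lo ≤ x) (h2 : x ≤ hi) : Reach b c φ P lo hi [x] x x 1
  | cons (l : List ℝ) (x y : ℝ) (s : ℤ) (t : ℤ × ℤ) (h : Reach b c φ P lo hi l x y s)
      (hP : P t) (h1 : lo ≤ Mt b c t y) (h2 : Mt b c t y ≤ hi) :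
      Reach b c φ P lo hi (Mt b c t y :: l) x (Mt b c t y) (s * φ t)

section reach
variable {b c : ℤ} {φ : ℤ × ℤ → ℤ} {P : ℤ × ℤ → Prop} {lo hi : ℝ}

theorem Reach.mem {l : List ℝ} {x y : ℝ} {s : ℤ} (h : Reach b c φ P lo hi l x y s) :
    x ∈ l ∧ y ∈ l := by
  induction h with
  | nil x h1 h2 => simp
  | cons l x y s t h hP h1 h2 ih => exact ⟨List.mem_cons_of_mem _ ih.1, List.mem_cons_self ..⟩

theorem Reach.bounds {l : List ℝ} {x y : ℝ} {s : ℤ} (h : Reach b c φ P lo hi l x y s) :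
    ∀ z ∈ l, lo ≤ z ∧ z ≤ hi := by
  induction h with
  | nil x h1 h2 => intro z hz; rw [List.mem_singleton] at hz; rw [hz]; exact ⟨h1, h2⟩
  | cons l x y s t h hP h1 h2 ih =>
    intro z hz
    rcases List.mem_cons.mp hz with h3 | h3
    · rw [h3]; exact ⟨h1, h2⟩
    · exact ih z h3

theorem Reach.trans {l l' : List ℝ} {x y z : ℝ} {s s' : ℤ} (h : Reach b c φ P lo hi l x y s)
    (h' : Reach b c φ P lo hi l' y z s') :
    ∃ l'' : List ℝ, Reach b c φ P lo hi l'' x z (s * s') ∧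
      l''.length + 1 ≤ l.length + l'.length := by
  induction h' with
  | nil y h1 h2 => exact ⟨l, by rw [mul_one]; exact h, by simp⟩
  | cons l' y z s' t h' hP h1 h2 ih =>
    obtain ⟨l'', g1, g2⟩ := ih h
    refine ⟨Mt b c t z :: l'', ?_, ?_⟩
    · have := Reach.cons l'' x z (s * s') t g1 hP h1 h2
      rwa [mul_assoc] at this
    · simp only [List.length_cons]; omega

end reach

theorem Vp_move {a ψ x : ℝ} (h : 1 + ψ * x ≠ 0) : x - Vp a ψ x = ψ * (x ^ 2 + a) / (1 + ψ * x) := by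
  unfold Vp
  rw [eq_div_iff h, sub_mul, div_mul_cancel₀ _ h]
  ring

theorem Vp_comp {a ψ ψ' x : ℝ} (h1 : 1 + ψ * x ≠ 0) (h2 : 1 + ψ' * Vp a ψ x ≠ 0)
    (h3 : 1 - a * ψ * ψ' ≠ 0) :
    Vp a ψ' (Vp a ψ x) = Vp a ((ψ + ψ') / (1 - a * ψ * ψ')) x := by
  unfold Vp at *
  have e1 : 1 + ψ' * ((x - a * ψ) / (1 + ψ * x)) =
      ((1 - a * ψ * ψ') + (ψ + ψ') * x) / (1 + ψ * x) := by
    rw [eq_div_iff h1, add_mul, mul_assoc, div_mul_cancel₀ _ h1]; ring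
  have e0 : (1 - a * ψ * ψ') + (ψ + ψ') * x ≠ 0 := by
    intro h
    rw [e1, h, zero_div] at h2
    exact h2 rfl
  have e2 : (x - a * ψ) / (1 + ψ * x) - a * ψ' =
      ((1 - a * ψ * ψ') * x - a * (ψ + ψ')) / (1 + ψ * x) := by
    rw [eq_div_iff h1, sub_mul, div_mul_cancel₀ _ h1]; ring
  have e3 : 1 + (ψ + ψ') / (1 - a * ψ * ψ') * x =
      ((1 - a * ψ * ψ') + (ψ + ψ') * x) / (1 - a * ψ * ψ') := by
    generalize 1 - a * ψ * ψ' = d at h3
    field_simp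
  have e4 : x - a * ((ψ + ψ') / (1 - a * ψ * ψ')) =
      ((1 - a * ψ * ψ') * x - a * (ψ + ψ')) / (1 - a * ψ * ψ') := by
    generalize 1 - a * ψ * ψ' = d at h3
    field_simp
  rw [e1, e2, e3, e4, div_div_div_cancel_right₀ h1, div_div_div_cancel_right₀ h3]

/-- sign of a block -/
def Sg (φ : ℤ × ℤ → ℤ) (Y : ℤ) : ℕ → ℕ → ℤ
  | 0, i => φ (Y + i, 1)
  | k + 1, i => Sg φ Y k i * Sg φ Y k (i + 1)

theorem small_den {lo hi ε ψ x a : ℝ} (hlo : 0 < lo) (hε : 0 ≤ ε) (hε2 : ε * (hi + |a| + 1) ≤ 1 / 2)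
    (hψ : |ψ| ≤ ε) (h1 : lo ≤ x) (h2 : x ≤ hi) : 1 / 2 ≤ 1 + ψ * x := by
  have h3 : |ψ * x| ≤ ε * hi := by
    rw [abs_mul, abs_of_pos (by linarith : (0:ℝ) < x)]
    exact mul_le_mul hψ h2 (by linarith) hε
  have h4 := neg_abs_le (ψ * x)
  have h5 : ε * hi ≤ ε * (hi + |a| + 1) :=
    mul_le_mul_of_nonneg_left (by linarith [abs_nonneg a]) hε
  linarith

theorem small_move {lo hi ε ψ x a : ℝ} (hlo : 0 < lo) (hε : 0 ≤ ε)
    (hε2 : ε * (hi + |a| + 1) ≤ 1 / 2)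
    (hψ : |ψ| ≤ ε) (h1 : lo ≤ x) (h2 : x ≤ hi) :
    |Vp a ψ x - x| ≤ 2 * (hi ^ 2 + |a|) * ε := by
  have h3 := small_den hlo hε hε2 hψ h1 h2
  rw [abs_sub_comm, Vp_move (by linarith), abs_div, abs_mul, abs_of_pos (by linarith : 0 < 1 + ψ * x),
    div_le_iff₀ (by linarith)]
  have h4 : |x ^ 2 + a| ≤ hi ^ 2 + |a| := by
    refine (abs_add_le _ _).trans ?_
    rw [abs_of_nonneg (sq_nonneg x)]
    have : x ^ 2 ≤ hi ^ 2 := by nlinarith
    linarith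
  have h5 : |ψ| * |x ^ 2 + a| ≤ ε * (hi ^ 2 + |a|) := mul_le_mul hψ h4 (abs_nonneg _) hε
  have h6 : 0 ≤ ε * (hi ^ 2 + |a|) := by positivity
  nlinarith

/-- block lemma -/
theorem block {b c : ℤ} {φ : ℤ × ℤ → ℤ} {P : ℤ × ℤ → Prop} {lo hi ε : ℝ} (Y : ℤ) (J : ℕ)
    (hlo : 0 < lo) (hε : 0 ≤ ε) (hε2 : ε * (hi + |aa b c| + 1) ≤ 1 / 2)
    (hcj : ∀ t, φ (cj b t) = φ t)
    (hP : ∀ i : ℕ, i ≤ J → P (Y + i, 1) ∧ P (cj b (Y + i, 1)))
    (hY : 0 < (Y : ℝ) + b / 2)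
    (hψ : ∀ k i : ℕ, k + i ≤ J → |psi (aa b c) k ((Y : ℝ) + b / 2 + i)| ≤ ε) :
    ∀ k i : ℕ, k + i ≤ J → ∀ x : ℝ, lo + 2 ^ k * (2 * (hi ^ 2 + |aa b c|) * ε) ≤ x →
      x ≤ hi - 2 ^ k * (2 * (hi ^ 2 + |aa b c|) * ε) →
      (∃ l : List ℝ, Reach b c φ P lo hi l x (Vp (aa b c) (psi (aa b c) k ((Y : ℝ) + b / 2 + i)) x)
          (Sg φ Y k i) ∧ l.length ≤ 2 ^ (k + 1)) ∧
      (∃ l : List ℝ, Reach b c φ P lo hi l x
          (Vp (aa b c) (-psi (aa b c) k ((Y : ℝ) + b / 2 + i)) x)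
          (Sg φ Y k i) ∧ l.length ≤ 2 ^ (k + 1)) := by
  set a := aa b c with ha
  set η := 2 * (hi ^ 2 + |a|) * ε with hη
  have hη0 : 0 ≤ η := by positivity
  intro k
  induction k with
  | zero =>
    intro i hi1 x hx1 hx2
    rw [pow_zero, one_mul] at hx1 hx2
    have hpsi : psi a 0 ((Y : ℝ) + b / 2 + i) = 1 / (((Y + i : ℤ) : ℝ) + b / 2) := by
      unfold psi; push_cast; ring
    have hne : (((Y + i : ℤ) : ℝ) + (b : ℝ) / 2) ≠ 0 := by
      push_cast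
      have : (0 : ℝ) ≤ i := Nat.cast_nonneg i
      linarith
    have hb := hψ 0 i hi1
    have hx0 : Reach b c φ P lo hi [x] x x 1 := Reach.nil x (by linarith) (by linarith)
    have m1 := small_move hlo hε hε2 hb (by linarith : lo ≤ x) (by linarith : x ≤ hi)
    have m2 := small_move hlo hε hε2 (by rwa [abs_neg] : |-psi a 0 ((Y : ℝ) + b / 2 + i)| ≤ ε)
      (by linarith : lo ≤ x) (by linarith : x ≤ hi)
    rw [abs_le] at m1 m2
    constructor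
    · refine ⟨[Mt b c (Y + i, 1) x, x], ?_, by simp⟩
      have e : Vp a (psi a 0 ((Y : ℝ) + b / 2 + i)) x = Mt b c (Y + i, 1) x := by
        rw [hpsi, Mt_one b c _ x hne]
      rw [e] at m1 ⊢
      have := Reach.cons [x] x x 1 (Y + i, 1) hx0 (hP i (by omega)).1 (by linarith) (by linarith)
      rwa [one_mul] at this
    · refine ⟨[Mt b c (cj b (Y + i, 1)) x, x], ?_, by simp⟩
      have e : Vp a (-psi a 0 ((Y : ℝ) + b / 2 + i)) x = Mt b c (cj b (Y + i, 1)) x := by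
        rw [hpsi, Mt_neg b c _ x hne]
      rw [e] at m2 ⊢
      have := Reach.cons [x] x x 1 (cj b (Y + i, 1)) hx0 (hP i (by omega)).2 (by linarith)
        (by linarith)
      rwa [one_mul, hcj] at this
  | succ k ih =>
    intro i hi1 x hx1 hx2
    have hpow : (2 : ℝ) ^ (k + 1) * η = 2 ^ k * η + 2 ^ k * η := by rw [pow_succ]; ring
    have hk1 : η ≤ 2 ^ k * η := by
      have : (1 : ℝ) ≤ 2 ^ k := one_le_pow₀ (by norm_num)
      nlinarith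
    rw [hpow] at hx1 hx2
    set ψ := psi a k ((Y : ℝ) + b / 2 + i) with hψd
    set ψ' := psi a k ((Y : ℝ) + b / 2 + (i + 1 : ℕ)) with hψd'
    have hb := hψ k i (by omega)
    have hb' := hψ k (i + 1) (by omega)
    rw [← hψd] at hb
    rw [← hψd'] at hb'
    have hε1 : ε ≤ 1 := by
      have h1 : 0 ≤ hi + |a| := by have := abs_nonneg a; linarith
      have h2 : 0 ≤ ε * (hi + |a|) := mul_nonneg hε h1
      nlinarith
    have hnd : ∀ u v : ℝ, |u| ≤ ε → |v| ≤ ε → 1 - a * u * v ≠ 0 := by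
      intro u v hu hv h0
      have h1 : |a * u * v| ≤ |a| * ε * 1 := by
        rw [abs_mul, abs_mul]
        exact mul_le_mul (mul_le_mul_of_nonneg_left hu (abs_nonneg a)) (hv.trans hε1)
          (abs_nonneg _) (mul_nonneg (abs_nonneg a) hε)
      have h2 : ε * |a| ≤ ε * (hi + |a| + 1) := mul_le_mul_of_nonneg_left (by linarith) hε
      have h3 := le_abs_self (a * u * v)
      nlinarith
    have hrec : psi a (k + 1) ((Y : ℝ) + b / 2 + i) = (ψ - ψ') / (1 + a * ψ * ψ') := by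
      simp only [psi, hψd, hψd']
      push_cast
      rw [add_assoc ((Y : ℝ) + b / 2) (i : ℝ) 1]
    -- general composition step
    have comp : ∀ (u v : ℝ) (s s' : ℤ) (j j' : ℕ), |u| ≤ ε → |v| ≤ ε →
        (∀ y, lo + 2 ^ k * η ≤ y → y ≤ hi - 2 ^ k * η →
          ∃ l : List ℝ, Reach b c φ P lo hi l y (Vp a u y) s ∧ l.length ≤ 2 ^ (k + 1)) →
        (∀ y, lo + 2 ^ k * η ≤ y → y ≤ hi - 2 ^ k * η →
          ∃ l : List ℝ, Reach b c φ P lo hi l y (Vp a v y) s' ∧ l.length ≤ 2 ^ (k + 1)) →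
        ∃ l : List ℝ, Reach b c φ P lo hi l x (Vp a ((u + v) / (1 - a * u * v)) x) (s * s') ∧
          l.length ≤ 2 ^ (k + 1 + 1) := by
      intro u v s s' _ _ hu hv h1 h2
      have mv := small_move hlo hε hε2 hu (by linarith : lo ≤ x) (by linarith : x ≤ hi)
      rw [abs_le] at mv
      obtain ⟨l1, g1, g2⟩ := h1 x (by linarith) (by linarith)
      obtain ⟨l2, g3, g4⟩ := h2 (Vp a u x) (by linarith) (by linarith)
      obtain ⟨l3, g5, g6⟩ := g1.trans g3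
      have d1 := small_den hlo hε hε2 hu (by linarith : lo ≤ x) (by linarith : x ≤ hi)
      have d2 := small_den hlo hε hε2 hv (by linarith : lo ≤ Vp a u x)
        (by linarith : Vp a u x ≤ hi)
      refine ⟨l3, ?_, ?_⟩
      · rw [← Vp_comp (by linarith) (by linarith) (hnd u v hu hv)]
        exact g5
      · rw [pow_succ 2 (k + 1)]; omega
    have hnb : |-ψ| ≤ ε := by rwa [abs_neg]
    have hnb' : |-ψ'| ≤ ε := by rwa [abs_neg]
    constructor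
    · have h := comp ψ (-ψ') (Sg φ Y k i) (Sg φ Y k (i + 1)) 0 0 hb hnb'
        (fun y h1 h2 => (ih i (by omega) y h1 h2).1)
        (fun y h1 h2 => (ih (i + 1) (by omega) y h1 h2).2)
      rw [hrec]
      have e : (ψ + -ψ') / (1 - a * ψ * -ψ') = (ψ - ψ') / (1 + a * ψ * ψ') := by
        congr 1; ring
      rw [e] at h
      exact h
    · have h := comp ψ' (-ψ) (Sg φ Y k (i + 1)) (Sg φ Y k i) 0 0 hb' hnb
        (fun y h1 h2 => (ih (i + 1) (by omega) y h1 h2).1)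
        (fun y h1 h2 => (ih i (by omega) y h1 h2).2)
      rw [hrec]
      have e : (ψ' + -ψ) / (1 - a * ψ' * -ψ) = -((ψ - ψ') / (1 + a * ψ * ψ')) := by
        rw [← neg_div]
        congr 1 <;> ring
      rw [e, mul_comm (Sg φ Y k (i + 1))] at h
      exact h

end Pool.Agent.H304R2
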