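import Mathlib
import Pool.Agent.H304R2.Compare
import Pool.Agent.H304R2.Chain

set_option autoImplicit false

namespace Pool.Agent.H304R2

/-- denominator of the target -/
noncomputable def Dn (a r r' x : ℝ) : ℝ := (x * r + a) + (r - x) * r'

/-- the target -/
noncomputable def Tt (a r r' x : ℝ) : ℝ := ((x * r + a) * r' - a * (r - x)) / Dn a r r' x

theorem Dn_lower {a r r' x : ℝ} (hr1 : 2 + |a| ≤ r) (hx2 : x ≤ r + 1)
    (hr' : r ≤ r') (hr'2 : r' ≤ r + 1) : (r ^ 2 + a) / 2 ≤ Dn a r r' x := by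
  have h1 : Dn a r r' x = r ^ 2 + a + (r - x) * (r' - r) := by unfold Dn; ring
  rw [h1]
  have h2 : 2 ≤ r ^ 2 + a := by
    have := neg_abs_le a
    have := abs_nonneg a
    nlinarith
  have h3 : -1 ≤ (r - x) * (r' - r) := by nlinarith
  linarith

theorem Dn_upper {a r r' x : ℝ} (hr1 : 2 + |a| ≤ r) (hx : 0 ≤ x)
    (hr' : r ≤ r') (hr'2 : r' ≤ r + 1) : Dn a r r' x ≤ 2 * (r ^ 2 + a) := by
  have h1 : Dn a r r' x = r ^ 2 + a + (r - x) * (r' - r) := by unfold Dn; ring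
  rw [h1]
  have h0 := abs_nonneg a
  have h2 : r ≤ r ^ 2 + a := by
    have := neg_abs_le a
    nlinarith
  have h3 : (r - x) * (r' - r) ≤ r := by nlinarith
  linarith

theorem ra_pos {a r : ℝ} (hr1 : 2 + |a| ≤ r) : 2 ≤ r ^ 2 + a := by
  have := neg_abs_le a
  have := abs_nonneg a
  nlinarith

theorem Tt_self {a r r' : ℝ} (h : r ^ 2 + a ≠ 0) : Tt a r r' r = r' := by
  unfold Tt Dn
  have e1 : (r * r + a) * r' - a * (r - r) = (r ^ 2 + a) * r' := by ring
  have e2 : r * r + a + (r - r) * r' = r ^ 2 + a := by ring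
  rw [e1, e2, mul_div_cancel_left₀ _ h]

theorem Tt_sub_right {a r r' r'' x : ℝ} (h1 : Dn a r r' x ≠ 0) (h2 : Dn a r r'' x ≠ 0) :
    Tt a r r' x - Tt a r r'' x =
      (x ^ 2 + a) * (r ^ 2 + a) * (r' - r'') / (Dn a r r' x * Dn a r r'' x) := by
  unfold Tt
  rw [div_sub_div _ _ h1 h2]
  congr 1
  unfold Dn
  ring

theorem Tt_sub_left {a r r' x y : ℝ} (h1 : Dn a r r' x ≠ 0) (h2 : Dn a r r' y ≠ 0) :
    Tt a r r' x - Tt a r r' y =
      (r ^ 2 + a) * (r' ^ 2 + a) * (x - y) / (Dn a r r' x * Dn a r r' y) := by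
  unfold Tt
  rw [div_sub_div _ _ h1 h2]
  congr 1
  unfold Dn
  ring

theorem Tt_sub_id {a r r' x : ℝ} (h1 : Dn a r r' x ≠ 0) :
    Tt a r r' x - x = (x ^ 2 + a) * (r' - r) / Dn a r r' x := by
  unfold Tt
  rw [div_sub' h1]
  congr 1
  unfold Dn
  ring

theorem Mt_Tt {b c : ℤ} {t : ℤ × ℤ} {r r' x : ℝ} (h1 : (t.2 : ℝ) * x + tp b t ≠ 0)
    (h2 : Dn (aa b c) r r' x ≠ 0) (h3 : (t.2 : ℝ) * Tt (aa b c) r r' x + tp b t ≠ 0) :
    Mt b c t (Tt (aa b c) r r' x) = Tt (aa b c) r r' (Mt b c t x) := by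
  set a := aa b c with ha
  have ha' : (c : ℝ) - (b : ℝ) ^ 2 / 4 = a := rfl
  set q : ℝ := (t.2 : ℝ) with hq
  set p := tp b t with hp
  set N := (x * r + a) * r' - a * (r - x) with hN
  have e0 : Tt a r r' x = N / Dn a r r' x := rfl
  set D := Dn a r r' x with hD
  have e1 : Mt b c t (Tt a r r' x) = (p * N - a * q * D) / (q * N + p * D) := by
    unfold Mt
    rw [ha', ← hq, ← hp, e0]
    have f1 : p * (N / D) - a * q = (p * N - a * q * D) / D := by field_simp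
    have f2 : q * (N / D) + p = (q * N + p * D) / D := by field_simp
    rw [f1, f2, div_div_div_cancel_right₀ h2]
  have e2 : Tt a r r' (Mt b c t x) = (p * N - a * q * D) / (q * N + p * D) := by
    unfold Mt
    rw [ha', ← hq, ← hp]
    have hM : q * x + p ≠ 0 := h1
    unfold Tt Dn
    have f1 : ((p * x - a * q) / (q * x + p) * r + a) * r' - a * (r - (p * x - a * q) / (q * x + p)) =
        (p * N - a * q * D) / (q * x + p) := by
      rw [eq_div_iff hM, hN, hD]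
      unfold Dn
      have : (p * x - a * q) / (q * x + p) * (q * x + p) = p * x - a * q := div_mul_cancel₀ _ hM
      linear_combination (r * r' + a) * this
    have f2 : (p * x - a * q) / (q * x + p) * r + a + (r - (p * x - a * q) / (q * x + p)) * r' =
        (q * N + p * D) / (q * x + p) := by
      rw [eq_div_iff hM, hN, hD]
      unfold Dn
      have : (p * x - a * q) / (q * x + p) * (q * x + p) = p * x - a * q := div_mul_cancel₀ _ hM
      linear_combination (r - r') * this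
    rw [f1, f2, div_div_div_cancel_right₀ hM]
  rw [e1, e2]

/-- targets lie above `x` and are bounded -/
theorem Tt_bounds {a r r' x lo hi : ℝ} (hr1 : 2 + |a| ≤ r) (hlo : 0 < lo) (hlo2 : 0 < lo ^ 2 + a)
    (hx1 : lo ≤ x) (hx2 : x ≤ hi) (hhi : hi ≤ r + 1)
    (hr' : r ≤ r') (hr'2 : r' ≤ r + 1) :
    x ≤ Tt a r r' x ∧ Tt a r r' x ≤ hi + (hi ^ 2 + |a|) := by
  have hD := Dn_lower (a := a) (x := x) hr1 (hx2.trans hhi) hr' hr'2
  have h2 := ra_pos hr1
  have hDp : 1 ≤ Dn a r r' x := by linarith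
  have h3 := Tt_sub_id (a := a) (r := r) (r' := r') (x := x) (by linarith)
  have h4 : 0 ≤ x ^ 2 + a := by nlinarith
  have h5 : 0 ≤ (x ^ 2 + a) * (r' - r) / Dn a r r' x :=
    div_nonneg (mul_nonneg h4 (by linarith)) (by linarith)
  have h6 : (x ^ 2 + a) * (r' - r) / Dn a r r' x ≤ hi ^ 2 + |a| := by
    rw [div_le_iff₀ (by linarith)]
    have h7 : x ^ 2 + a ≤ hi ^ 2 + |a| := by
      have := le_abs_self a
      nlinarith
    have h8 : (x ^ 2 + a) * (r' - r) ≤ (x ^ 2 + a) * 1 :=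
      mul_le_mul_of_nonneg_left (by linarith) h4
    have h9 : (hi ^ 2 + |a|) * 1 ≤ (hi ^ 2 + |a|) * Dn a r r' x :=
      mul_le_mul_of_nonneg_left hDp (by linarith)
    linarith
  constructor <;> linarith

/-- separation -/
theorem Tt_sep {a r r' r'' x lo hi : ℝ} (hr1 : 2 + |a| ≤ r) (hlo : 0 < lo) (hlo2 : 0 < lo ^ 2 + a)
    (hx1 : lo ≤ x) (hx2 : x ≤ hi) (hhi : hi ≤ r + 1)
    (hr' : r ≤ r') (hr'2 : r' ≤ r + 1) (hr'' : r ≤ r'') (hr''2 : r'' ≤ r + 1) :
    (lo ^ 2 + a) / (4 * (r ^ 2 + a)) * |r' - r''| ≤ |Tt a r r' x - Tt a r r'' x| := by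
  have hD := Dn_lower (a := a) (x := x) hr1 (hx2.trans hhi) hr' hr'2
  have hD' := Dn_lower (a := a) (x := x) hr1 (hx2.trans hhi) hr'' hr''2
  have hU := Dn_upper (a := a) (x := x) hr1 (by linarith) hr' hr'2
  have hU' := Dn_upper (a := a) (x := x) hr1 (by linarith) hr'' hr''2
  have h2 := ra_pos hr1
  have p1 : 0 < Dn a r r' x := by linarith
  have p2 : 0 < Dn a r r'' x := by linarith
  rw [Tt_sub_right p1.ne' p2.ne', abs_div, abs_mul, abs_mul]
  have h4 : lo ^ 2 + a ≤ x ^ 2 + a := by nlinarith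
  rw [abs_of_pos (by linarith : 0 < x ^ 2 + a), abs_of_pos (by linarith : 0 < r ^ 2 + a),
    abs_of_pos (mul_pos p1 p2)]
  have h5 : Dn a r r' x * Dn a r r'' x ≤ (2 * (r ^ 2 + a)) * (2 * (r ^ 2 + a)) :=
    mul_le_mul hU hU' p2.le (by linarith)
  have hR : 0 < r ^ 2 + a := by linarith
  generalize r ^ 2 + a = R at *
  have h6 := abs_nonneg (r' - r'')
  rw [le_div_iff₀ (mul_pos p1 p2)]
  calc (lo ^ 2 + a) / (4 * R) * |r' - r''| * (Dn a r r' x * Dn a r r'' x)
      ≤ (lo ^ 2 + a) / (4 * R) * |r' - r''| * ((2 * R) * (2 * R)) :=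
        mul_le_mul_of_nonneg_left h5 (by positivity)
    _ = (lo ^ 2 + a) * R * |r' - r''| := by field_simp; ring
    _ ≤ (x ^ 2 + a) * R * |r' - r''| := by
        apply mul_le_mul_of_nonneg_right _ h6
        exact mul_le_mul_of_nonneg_right h4 hR.le

/-- Lipschitz in the second variable -/
theorem Tt_lip {a r r' x y lo hi : ℝ} (hr1 : 2 + |a| ≤ r) (hlo : 0 < lo)
    (hx2 : x ≤ hi) (hy2 : y ≤ hi) (hhi : hi ≤ r + 1)
    (hr' : r ≤ r') (hr'2 : r' ≤ r + 1) :
    |Tt a r r' x - Tt a r r' y| ≤ 4 * ((r + 1) ^ 2 + |a|) * |x - y| := by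
  have hD := Dn_lower (a := a) (x := x) hr1 (hx2.trans hhi) hr' hr'2
  have hD' := Dn_lower (a := a) (x := y) hr1 (hy2.trans hhi) hr' hr'2
  have h2 := ra_pos hr1
  have p1 : 0 < Dn a r r' x := by linarith
  have p2 : 0 < Dn a r r' y := by linarith
  rw [Tt_sub_left p1.ne' p2.ne', abs_div, abs_mul, abs_mul]
  have ha0 := abs_nonneg a
  have h4 : |r' ^ 2 + a| ≤ (r + 1) ^ 2 + |a| := by
    refine (abs_add_le _ _).trans ?_
    rw [abs_of_nonneg (sq_nonneg r')]
    nlinarith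
  rw [abs_of_pos (by linarith : 0 < r ^ 2 + a),
    abs_of_pos (mul_pos p1 p2)]
  have hR : 0 < r ^ 2 + a := by linarith
  generalize r ^ 2 + a = R at *
  have h5 : (R / 2) * (R / 2) ≤ Dn a r r' x * Dn a r r' y :=
    mul_le_mul hD hD' (by linarith) p1.le
  have h6 := abs_nonneg (x - y)
  rw [div_le_iff₀ (mul_pos p1 p2)]
  have hB : 0 ≤ (r + 1) ^ 2 + |a| := by positivity
  generalize (r + 1) ^ 2 + |a| = B at *
  calc R * |r' ^ 2 + a| * |x - y| ≤ R * B * |x - y| := by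
        apply mul_le_mul_of_nonneg_right _ h6
        exact mul_le_mul_of_nonneg_left h4 hR.le
    _ ≤ (R * R) * B * |x - y| := by
        apply mul_le_mul_of_nonneg_right _ h6
        apply mul_le_mul_of_nonneg_right _ hB
        nlinarith
    _ = 4 * B * |x - y| * ((R / 2) * (R / 2)) := by ring
    _ ≤ 4 * B * |x - y| * (Dn a r r' x * Dn a r r' y) :=
        mul_le_mul_of_nonneg_left h5 (by positivity)

end Pool.Agent.H304R2
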