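import Mathlib
import Pool.Agent.H304R2.Target

set_option autoImplicit false

namespace Pool.Agent.H304R2

/-- a sign-change edge near `τ` -/
def SE (b : ℤ) (φ : ℤ × ℤ → ℤ) (L : ℤ) (δ τ : ℝ) (v w : ℤ × ℤ) : Prop :=
  dt v w = 1 ∧ φ v ≠ φ w ∧ 0 < v.2 ∧ 0 < w.2 ∧
    (|v.1| ≤ L ∧ |v.2| ≤ L ∧ |w.1| ≤ L ∧ |w.2| ≤ L) ∧ |sl b v - τ| ≤ δ ∧ |sl b w - τ| ≤ δ

theorem compare' (φ : ℤ × ℤ → ℤ) (b : ℤ)
    (hs : ∀ (g : ℤ) (v : ℤ × ℤ), 0 < g → v ≠ 0 → φ (g * v.1, g * v.2) = φ v)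
    (α β : ℤ × ℤ) (L : ℤ) (δ τ : ℝ)
    (hα2 : 0 < α.2) (hβ2 : 0 < β.2)
    (hφ : φ α ≠ φ β) (h1 : |α.1| ≤ L) (h2 : |α.2| ≤ L) (h3 : |β.1| ≤ L)
    (h4 : |β.2| ≤ L) (h5 : |sl b α - τ| ≤ δ) (h6 : |sl b β - τ| ≤ δ) :
    ∃ v w : ℤ × ℤ, SE b φ L δ τ v w := by
  obtain ⟨v, w, a1, a2, a3, a4, a5, a6, a7⟩ := compare φ b hs α β L hα2 hβ2 hφ h1 h2 h3 h4
  rw [abs_le] at h5 h6
  have m1 : τ - δ ≤ min (sl b α) (sl b β) := le_min (by linarith) (by linarith)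
  have m2 : max (sl b α) (sl b β) ≤ τ + δ := max_le (by linarith) (by linarith)
  refine ⟨v, w, a1, a2, a3, a4, a5, ?_, ?_⟩
  · rw [abs_le]; constructor <;> linarith [a6.1, a6.2]
  · rw [abs_le]; constructor <;> linarith [a7.1, a7.2]

theorem mu_coord {b c : ℤ} {t v : ℤ × ℤ} {T T2 M : ℤ} (h1 : |t.1| ≤ T) (h2 : |t.2| ≤ T2)
    (h3 : |v.1| ≤ M) (h4 : |v.2| ≤ M) :
    |(mu b c t v).1| ≤ (T + (|b| + |c| + 1) * T2) * M ∧
      |(mu b c t v).2| ≤ (T + (|b| + |c| + 1) * T2) * M := by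
  have hT : 0 ≤ T := (abs_nonneg _).trans h1
  have hT2 : 0 ≤ T2 := (abs_nonneg _).trans h2
  have hM : 0 ≤ M := (abs_nonneg _).trans h3
  have q1 : |t.1 * v.1| ≤ T * M := by
    rw [abs_mul]; exact mul_le_mul h1 h3 (abs_nonneg _) hT
  have q2 : |t.1 * v.2| ≤ T * M := by
    rw [abs_mul]; exact mul_le_mul h1 h4 (abs_nonneg _) hT
  have q3 : |t.2 * v.1| ≤ T2 * M := by
    rw [abs_mul]; exact mul_le_mul h2 h3 (abs_nonneg _) hT2
  have q4 : |t.2 * v.2| ≤ T2 * M := by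
    rw [abs_mul]; exact mul_le_mul h2 h4 (abs_nonneg _) hT2
  have q5 : |c * t.2 * v.2| ≤ |c| * (T2 * M) := by
    rw [mul_assoc, abs_mul]; exact mul_le_mul_of_nonneg_left q4 (abs_nonneg _)
  have q6 : |b * t.2 * v.2| ≤ |b| * (T2 * M) := by
    rw [mul_assoc, abs_mul]; exact mul_le_mul_of_nonneg_left q4 (abs_nonneg _)
  have p1 : 0 ≤ T2 * M := mul_nonneg hT2 hM
  have p2 : 0 ≤ |b| * (T2 * M) := mul_nonneg (abs_nonneg _) p1
  have p3 : 0 ≤ |c| * (T2 * M) := mul_nonneg (abs_nonneg _) p1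
  simp only [mu]
  constructor
  · have := abs_sub (t.1 * v.1) (c * t.2 * v.2)
    have e : (T + (|b| + |c| + 1) * T2) * M = T * M + |b| * (T2 * M) + |c| * (T2 * M) + T2 * M := by
      ring
    rw [e]; linarith
  · have := abs_add_le (t.1 * v.2 + t.2 * v.1) (b * t.2 * v.2)
    have := abs_add_le (t.1 * v.2) (t.2 * v.1)
    have e : (T + (|b| + |c| + 1) * T2) * M = T * M + |b| * (T2 * M) + |c| * (T2 * M) + T2 * M := by
      ring
    rw [e]; linarith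

/-- an approximation -/
def Ap (b : ℤ) (L : ℤ) (δ τ : ℝ) (v : ℤ × ℤ) : Prop :=
  0 < v.2 ∧ |v.1| ≤ L ∧ |v.2| ≤ L ∧ |sl b v - τ| ≤ δ

theorem reach_good {b c : ℤ} {φ : ℤ × ℤ → ℤ} {T L2 L : ℤ} {H lo hi r r' δ : ℝ}
    (hs : ∀ (g : ℤ) (v : ℤ × ℤ), 0 < g → v ≠ 0 → φ (g * v.1, g * v.2) = φ v)
    (hm : ∀ t v, 0 < Nm b c t → 0 < v.2 → φ (mu b c t v) = φ t * φ v)
    (hL : (T + (|b| + |c| + 1) * 1) * L2 ≤ L) (hL' : L2 ≤ L) (hδ : 0 ≤ δ) (hlo : 0 ≤ lo)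
    (hhi : hi ≤ H)
    (hT : ∀ z, lo ≤ z → z ≤ hi → δ ≤ Tt (aa b c) r r' z ∧ Tt (aa b c) r r' z + δ ≤ H)
    (hD : ∀ z, lo ≤ z → z ≤ hi → Dn (aa b c) r r' z ≠ 0)
    (A : ℝ → ℤ × ℤ) {l : List ℝ} {x y : ℝ} {s : ℤ}
    (h : Reach b c φ (Stp b c T H) lo hi l x y s)
    (hA : ∀ z ∈ l, Ap b L2 δ (Tt (aa b c) r r' z) (A z)) :
    (∃ z ∈ l, ∃ v w, SE b φ L (2 * δ) (Tt (aa b c) r r' z) v w) ∨ φ (A y) = s * φ (A x) := by
  induction h with
  | nil x h1 h2 => right; rw [one_mul]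
  | cons l x y s t h hP h1 h2 ih =>
    rcases ih (fun z hz => hA z (List.mem_cons_of_mem _ hz)) with ⟨z, hz, hh⟩ | ih
    · left; exact ⟨z, List.mem_cons_of_mem _ hz, hh⟩
    · have hyl := h.mem.2
      have hyb := h.bounds y hyl
      have Ay := hA y (List.mem_cons_of_mem _ hyl)
      have Ay' := hA (Mt b c t y) (List.mem_cons_self ..)
      obtain ⟨P1, P2, P3, P4, P5⟩ := hP
      have hTy := hT y hyb.1 hyb.2
      have s1 := abs_le.mp Ay.2.2.2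
      have sl0 : 0 ≤ sl b (A y) := by linarith
      have slH : sl b (A y) ≤ H := by linarith
      have d1 := P4 (sl b (A y)) sl0 slH
      have d2 := P4 (Tt (aa b c) r r' y) (by linarith) (by linarith)
      have d3 := P4 y (hlo.trans hyb.1) (hyb.2.trans hhi)
      have m1 : 0 < (mu b c t (A y)).2 := mu_snd_pos b c t (A y) Ay.1 d1
      have m2 : sl b (mu b c t (A y)) = Mt b c t (sl b (A y)) := sl_mu b c t (A y) Ay.1 d1
      have m3 := P5 (sl b (A y)) (Tt (aa b c) r r' y) sl0 slH (by linarith) (by linarith)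
      rw [Mt_Tt d3.ne' (hD y hyb.1 hyb.2) d2.ne', ← m2] at m3
      have m4 : |sl b (mu b c t (A y)) - Tt (aa b c) r r' (Mt b c t y)| ≤ 2 * δ := by
        refine m3.trans ?_
        have := Ay.2.2.2
        linarith
      obtain ⟨c1, c2⟩ := mu_coord (b := b) (c := c) P2 P3 Ay.2.1 Ay.2.2.1
      by_cases hc : φ (mu b c t (A y)) = φ (A (Mt b c t y))
      · right
        rw [← hc, hm t (A y) P1 Ay.1, ih]
        ring
      · left
        refine ⟨Mt b c t y, List.mem_cons_self .., ?_⟩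
        exact compare' φ b hs _ _ L (2 * δ) _ m1 Ay'.1 hc (c1.trans hL) (c2.trans hL)
          (Ay'.2.1.trans hL') (Ay'.2.2.1.trans hL') m4 (by linarith [Ay'.2.2.2])

/-- closing the chain -/
theorem good_edge {b c : ℤ} {φ : ℤ × ℤ → ℤ} {T L2 L : ℤ} {H lo hi r r' δ δ' κ : ℝ}
    (hs : ∀ (g : ℤ) (v : ℤ × ℤ), 0 < g → v ≠ 0 → φ (g * v.1, g * v.2) = φ v)
    (hm : ∀ t v, 0 < Nm b c t → 0 < v.2 → φ (mu b c t v) = φ t * φ v)
    (h1 : ∀ v : ℤ × ℤ, 0 < v.2 → φ v = 1 ∨ φ v = -1)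
    (hL : (T + (|b| + |c| + 1) * 1) * L2 ≤ L) (hL' : L2 ≤ L) (hδ : 0 ≤ δ) (hlo : 0 ≤ lo)
    (hhi : hi ≤ H)
    (hT : ∀ z, lo ≤ z → z ≤ hi → δ ≤ Tt (aa b c) r r' z ∧ Tt (aa b c) r r' z + δ ≤ H)
    (hD : ∀ z, lo ≤ z → z ≤ hi → Dn (aa b c) r r' z ≠ 0)
    (hr0 : r ^ 2 + aa b c ≠ 0)
    (α : ℤ × ℤ) (hα : φ α = -1) (hαN : 0 < Nm b c α) (hα2 : 0 < α.2) (hαp : 0 < tp b α)
    (hLα : ((|α.1| + |α.2|) + (|b| + |c| + 1) * |α.2|) * L2 ≤ L)
    (hκ : (Nm b c α : ℝ) / tp b α ^ 2 ≤ κ)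
    (hκδ : 2 * δ ≤ δ')
    (A : ℝ → ℤ × ℤ) {l : List ℝ} {y : ℝ}
    (h : Reach b c φ (Stp b c T H) lo hi l r y 1)
    (hy : κ * δ + |Tt (aa b c) r r' (Mt b c α r) - Tt (aa b c) r r' y| ≤ δ')
    (hA : ∀ z ∈ l, Ap b L2 δ (Tt (aa b c) r r' z) (A z)) :
    ∃ z ∈ l, ∃ v w, SE b φ L δ' (Tt (aa b c) r r' z) v w := by
  rcases reach_good hs hm hL hL' hδ hlo hhi hT hD A h hA with ⟨z, hz, v, w, hh⟩ | hh
  · refine ⟨z, hz, v, w, ?_⟩
    obtain ⟨a1, a2, a3, a4, a5, a6, a7⟩ := hh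
    exact ⟨a1, a2, a3, a4, a5, a6.trans hκδ, a7.trans hκδ⟩
  · rw [one_mul] at hh
    have hrl := h.mem.1
    have hyl := h.mem.2
    have hrb := h.bounds r hrl
    have hyb := h.bounds y hyl
    have Ar := hA r hrl
    have Ay := hA y hyl
    have hTr := hT r hrb.1 hrb.2
    rw [Tt_self hr0] at hTr
    have e := Ar.2.2.2
    rw [Tt_self hr0] at e
    have e' := abs_le.mp e
    have hα2' : (0 : ℝ) < α.2 := by exact_mod_cast hα2
    have q0 : 0 ≤ sl b (A r) := by linarith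
    have q1 : 0 < (α.2 : ℝ) * sl b (A r) + tp b α := by positivity
    have r0 : 0 ≤ r' := by linarith
    have q2 : 0 < (α.2 : ℝ) * r' + tp b α := by positivity
    have q3 : 0 < (α.2 : ℝ) * r + tp b α := by
      have : 0 ≤ r := hlo.trans hrb.1
      positivity
    have m1 : 0 < (mu b c α (A r)).2 := mu_snd_pos b c α (A r) Ar.1 q1
    have m2 : sl b (mu b c α (A r)) = Mt b c α (sl b (A r)) := sl_mu b c α (A r) Ar.1 q1
    have hNp : (0 : ℝ) < Nm b c α := by exact_mod_cast hαN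
    have m3 : |Mt b c α (sl b (A r)) - Mt b c α r'| ≤ κ * δ := by
      rw [Mt_sub b c α _ _ q1.ne' q2.ne', abs_div, abs_mul, abs_of_pos hNp,
        abs_of_pos (mul_pos q1 q2)]
      have h5 : tp b α * tp b α ≤ ((α.2 : ℝ) * sl b (A r) + tp b α) * ((α.2 : ℝ) * r' + tp b α) := by
        apply mul_le_mul _ _ hαp.le q1.le
        · have : 0 ≤ (α.2 : ℝ) * sl b (A r) := by positivity
          linarith
        · have : 0 ≤ (α.2 : ℝ) * r' := by positivity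
          linarith
      have h6 : 0 < tp b α ^ 2 := by positivity
      have h7 : (Nm b c α : ℝ) ≤ κ * tp b α ^ 2 := by
        rwa [div_le_iff₀ h6] at hκ
      have hκ0 : 0 ≤ κ := le_trans (by positivity) hκ
      rw [div_le_iff₀ (mul_pos q1 q2)]
      calc (Nm b c α : ℝ) * |sl b (A r) - r'| ≤ (κ * tp b α ^ 2) * δ :=
            mul_le_mul h7 e (abs_nonneg _) (by positivity)
        _ = κ * δ * (tp b α * tp b α) := by ring
        _ ≤ _ := mul_le_mul_of_nonneg_left h5 (by positivity)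
    have m4 : Mt b c α r' = Tt (aa b c) r r' (Mt b c α r) := by
      rw [← Mt_Tt q3.ne' (hD r hrb.1 hrb.2), Tt_self hr0]
      rw [Tt_self hr0]; exact q2.ne'
    rw [m4, ← m2] at m3
    have m5 : |sl b (mu b c α (A r)) - Tt (aa b c) r r' y| ≤ δ' := by
      refine le_trans ?_ hy
      refine (abs_sub_le _ (Tt (aa b c) r r' (Mt b c α r)) _).trans ?_
      linarith
    obtain ⟨c1, c2⟩ := mu_coord (b := b) (c := c) (t := α) (v := A r) (T := |α.1| + |α.2|)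
      (T2 := |α.2|) (by have := abs_nonneg α.2; linarith) le_rfl Ar.2.1 Ar.2.2.1
    have hne : φ (mu b c α (A r)) ≠ φ (A y) := by
      rw [hm α (A r) hαN Ar.1, hα, hh]
      rcases h1 (A r) Ar.1 with h3 | h3 <;> rw [h3] <;> norm_num
    refine ⟨y, hyl, ?_⟩
    exact compare' φ b hs _ _ L δ' _ m1 Ay.1 hne (c1.trans hLα) (c2.trans hLα)
          (Ay.2.1.trans hL') (Ay.2.2.1.trans hL') m5 (by linarith [Ay.2.2.2])

/-- Dirichlet -/
theorem dirichlet (b : ℤ) (τ W : ℝ) (L1 : ℕ) (hL1 : 0 < L1) (B : ℝ) (hB : |τ| + |(b : ℝ)| + 1 ≤ B)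
    (L2 : ℤ) (hL2 : B * L1 ≤ L2)
    (δ : ℝ) (hδ : 1 / (((L1 : ℝ) + 1) * W) ≤ δ) (hW : 0 < W) :
    (∃ v : ℤ × ℤ, Ap b L2 δ τ v) ∨
      (∃ (d : ℕ) (k : ℤ), 1 ≤ d ∧ (d : ℝ) < W ∧ |τ - sl b (k, (d : ℤ))| ≤ 1 / (((L1 : ℝ) + 1) * d)) := by
  obtain ⟨q, h1, h2⟩ := Real.exists_rat_abs_sub_le_and_den_le (τ - (b : ℝ) / 2) hL1
  have hq : sl b (q.num, (q.den : ℤ)) = (q : ℝ) + (b : ℝ) / 2 := by
    unfold sl
    simp only [Int.cast_natCast]
    congr 1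
    exact (Rat.cast_def q).symm
  have hd : (1 : ℝ) ≤ q.den := by exact_mod_cast q.den_pos
  have h3 : |τ - sl b (q.num, (q.den : ℤ))| ≤ 1 / (((L1 : ℝ) + 1) * q.den) := by
    rw [hq]
    have : τ - ((q : ℝ) + (b : ℝ) / 2) = τ - (b : ℝ) / 2 - q := by ring
    rw [this]; exact h1
  by_cases hc : (q.den : ℝ) < W
  · right
    exact ⟨q.den, q.num, q.den_pos, hc, h3⟩
  · left
    push Not at hc
    have hL1' : (1 : ℝ) ≤ L1 := by exact_mod_cast hL1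
    have hB0 : 1 ≤ B := by
      have := abs_nonneg τ
      have := abs_nonneg (b : ℝ)
      linarith
    refine ⟨(q.num, (q.den : ℤ)), by simp only; exact_mod_cast q.den_pos, ?_, ?_, ?_⟩
    · simp only
      have h4 : |(q : ℝ)| ≤ B := by
        have h5 : |τ - (b : ℝ) / 2 - q| ≤ 1 := by
          refine h1.trans ?_
          rw [div_le_one (by positivity)]
          nlinarith
        have h6 : |(b : ℝ) / 2| ≤ |(b : ℝ)| := by
          rw [abs_div, abs_of_pos (by norm_num : (0 : ℝ) < 2)]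
          have := abs_nonneg (b : ℝ)
          linarith
        have h7 : (q : ℝ) = τ - (b : ℝ) / 2 - (τ - (b : ℝ) / 2 - q) := by ring
        rw [h7]
        have := abs_sub τ ((b : ℝ) / 2)
        have := abs_sub (τ - (b : ℝ) / 2) (τ - (b : ℝ) / 2 - q)
        linarith
      have h5 : (q.num : ℝ) = q * q.den := by
        have := Rat.mul_den_eq_num q
        exact_mod_cast this.symm
      have h6 : |(q.num : ℝ)| ≤ B * L1 := by
        rw [h5, abs_mul]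
        apply mul_le_mul h4 _ (abs_nonneg _) (by linarith)
        rw [abs_of_nonneg (by linarith)]
        exact_mod_cast h2
      have h7 : ((|q.num| : ℤ) : ℝ) ≤ (L2 : ℝ) := by
        rw [Int.cast_abs]; linarith
      exact_mod_cast h7
    · simp only
      have h6 : (q.den : ℝ) ≤ L1 := by exact_mod_cast h2
      have h7 : ((|(q.den : ℤ)| : ℤ) : ℝ) ≤ (L2 : ℝ) := by
        rw [Int.cast_abs, Int.cast_natCast, abs_of_nonneg (by linarith)]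
        nlinarith
      exact_mod_cast h7
    · rw [abs_sub_comm]
      refine h3.trans (le_trans ?_ hδ)
      apply one_div_le_one_div_of_le (by positivity)
      apply mul_le_mul_of_nonneg_left hc (by positivity)

end Pool.Agent.H304R2
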