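import Mathlib
import Pool.Agent.H304R2.Compare
import Pool.Agent.H304R2.Good
import Pool.Agent.H304R2.Edges

set_option autoImplicit false

open Finset

namespace Pool.Agent.H304R2

theorem Nm_ne_zero (b c : ℤ) (hD : ¬ IsSquare (b ^ 2 - 4 * c)) (v : ℤ × ℤ) (hv : v ≠ 0) :
    Nm b c v ≠ 0 := by
  intro h
  apply hD
  have e : (2 * v.1 + b * v.2) ^ 2 = (b ^ 2 - 4 * c) * v.2 ^ 2 := by
    simp only [Nm] at h
    linear_combination 4 * h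
  by_cases h2 : v.2 = 0
  · exfalso
    rw [h2] at e
    have : v.1 = 0 := by
      have h3 : (2 * v.1) ^ 2 = 0 := by linear_combination e
      have := pow_eq_zero_iff (two_ne_zero) |>.mp h3
      omega
    exact hv (Prod.ext this h2)
  · have hdvd : v.2 ^ 2 ∣ (2 * v.1 + b * v.2) ^ 2 := ⟨b ^ 2 - 4 * c, by rw [e]; ring⟩
    rw [Int.pow_dvd_pow_iff two_ne_zero] at hdvd
    obtain ⟨k, hk⟩ := hdvd
    refine ⟨k, ?_⟩
    rw [hk] at e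
    have h3 : v.2 ^ 2 ≠ 0 := pow_ne_zero 2 h2
    apply mul_right_cancel₀ h3
    linear_combination -e

theorem two_snd_pos (v : ℤ × ℤ) (hv : 0 < v.2) : v ≠ 0 := by
  intro h
  rw [h] at hv
  simp at hv

/-- the function on vectors -/
def fi (b c : ℤ) (g : ℕ → ℤ) (v : ℤ × ℤ) : ℤ := g (Nm b c v).natAbs

section fi
variable {b c : ℤ} {g : ℕ → ℤ} (hD : ¬ IsSquare (b ^ 2 - 4 * c))
  (hg1 : ∀ m n, m ≠ 0 → n ≠ 0 → g (m * n) = g m * g n) (hg2 : ∀ n, n ≠ 0 → g n = 1 ∨ g n = -1)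

include hD hg1 hg2 in
theorem fi_smul (k : ℤ) (v : ℤ × ℤ) (hk : 0 < k) (hv : v ≠ 0) :
    fi b c g (k * v.1, k * v.2) = fi b c g v := by
  unfold fi
  have hN := Int.natAbs_ne_zero.mpr (Nm_ne_zero b c hD v hv)
  have hk0 : k.natAbs ≠ 0 := Int.natAbs_ne_zero.mpr hk.ne'
  rw [Nm_smul, Int.natAbs_mul, Int.natAbs_pow, hg1 _ _ (pow_ne_zero 2 hk0) hN, pow_two,
    hg1 _ _ hk0 hk0]
  rcases hg2 _ hk0 with h | h <;> rw [h] <;> ring

include hD hg1 in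
theorem fi_mu (t v : ℤ × ℤ) (ht : t ≠ 0) (hv : v ≠ 0) :
    fi b c g (mu b c t v) = fi b c g t * fi b c g v := by
  unfold fi
  rw [Nm_mu, Int.natAbs_mul]
  exact hg1 _ _ (Int.natAbs_ne_zero.mpr (Nm_ne_zero b c hD t ht))
    (Int.natAbs_ne_zero.mpr (Nm_ne_zero b c hD v hv))

include hD hg2 in
theorem fi_val (v : ℤ × ℤ) (hv : v ≠ 0) : fi b c g v = 1 ∨ fi b c g v = -1 :=
  hg2 _ (Int.natAbs_ne_zero.mpr (Nm_ne_zero b c hD v hv))

theorem fi_cj (v : ℤ × ℤ) : fi b c g (cj b v) = fi b c g v := by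
  unfold fi
  rw [Nm_cj]

end fi

theorem cone_norm {b c : ℤ} {lo : ℝ} {v : ℤ × ℤ} (hv : 0 < v.2) (hlo : 0 < lo)
    (h1 : lo ≤ sl b v) : (lo ^ 2 + aa b c) * (v.2 : ℝ) ^ 2 ≤ Nm b c v := by
  have h2 := Nm_sl b c v hv
  have e : (c : ℝ) - (b : ℝ) ^ 2 / 4 = aa b c := rfl
  rw [e] at h2
  rw [h2, mul_comm]
  apply mul_le_mul_of_nonneg_left _ (sq_nonneg _)
  nlinarith

theorem cone_norm_pos {b c : ℤ} {lo : ℝ} {v : ℤ × ℤ} (hv : 0 < v.2) (hlo : 0 < lo)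
    (hloa : 0 < lo ^ 2 + aa b c) (h1 : lo ≤ sl b v) : 0 < Nm b c v := by
  have h2 := cone_norm (c := c) hv hlo h1
  have h3 : (0 : ℝ) < v.2 := by exact_mod_cast hv
  have h4 : 0 < (lo ^ 2 + aa b c) * (v.2 : ℝ) ^ 2 := by positivity
  have h5 : (0 : ℝ) < Nm b c v := by linarith
  exact_mod_cast h5

theorem cone_fst {b : ℤ} {H : ℝ} {v : ℤ × ℤ} (hv : 0 < v.2) (h0 : 0 ≤ sl b v)
    (h1 : sl b v ≤ H) (BI : ℤ) (hB : H + |(b : ℝ)| ≤ BI) : |v.1| ≤ BI * v.2 := by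
  have h3 : (0 : ℝ) < v.2 := by exact_mod_cast hv
  have h4 : (v.1 : ℝ) = v.2 * (sl b v - (b : ℝ) / 2) := by
    unfold sl
    field_simp
    ring
  have h5 : ((|v.1| : ℤ) : ℝ) ≤ ((BI * v.2 : ℤ) : ℝ) := by
    push_cast
    rw [h4, abs_mul, abs_of_pos h3, mul_comm]
    apply mul_le_mul_of_nonneg_right _ h3.le
    refine (abs_sub _ _).trans ?_
    rw [abs_of_nonneg h0, abs_div, abs_of_pos (by norm_num : (0 : ℝ) < 2)]
    have := abs_nonneg (b : ℝ)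
    linarith
  exact_mod_cast h5

theorem cone_mul (b c : ℤ) (lo H : ℝ) (hlo : 0 < lo) (hloa : 0 < lo ^ 2 + aa b c) :
    ∃ C : ℕ, ∀ v v' : ℤ × ℤ, 0 < v.2 → 0 < v'.2 → lo ≤ sl b v → sl b v ≤ H → lo ≤ sl b v' →
      sl b v' ≤ H → Nm b c v = Nm b c v' →
      |(mu b c v (cj b v')).1| ≤ C * Nm b c v ∧ |(mu b c v (cj b v')).2| ≤ C * Nm b c v := by
  set c1 := lo ^ 2 + aa b c with hc1
  set BI : ℤ := ⌈H + |(b : ℝ)|⌉ with hBI
  have hB : H + |(b : ℝ)| ≤ BI := Int.le_ceil _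
  set Q : ℝ := ((BI : ℝ) + (|(b : ℝ)| + |(c : ℝ)| + 1) * 1) * (BI + |(b : ℝ)| + 1) / c1 with hQ
  refine ⟨⌈Q⌉₊, ?_⟩
  intro v v' hv hv' h1 h2 h3 h4 hN
  have hBIr : (0 : ℝ) ≤ BI := by
    have := abs_nonneg (b : ℝ)
    linarith
  have hBI0 : 0 ≤ BI := by exact_mod_cast hBIr
  have f1 := cone_fst hv (by linarith) h2 BI hB
  have f2 := cone_fst hv' (by linarith) h4 BI hB
  have g1 := cone_norm (c := c) hv hlo h1
  have g2 := cone_norm (c := c) hv' hlo h3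
  rw [← hN] at g2
  rw [← hc1] at g1 g2
  have c1' : |(cj b v').1| ≤ (BI + |b| + 1) * v'.2 := by
    simp only [cj]
    refine (abs_add_le _ _).trans ?_
    rw [abs_mul, abs_of_pos hv']
    nlinarith
  have c2' : |(cj b v').2| ≤ (BI + |b| + 1) * v'.2 := by
    simp only [cj, abs_neg]
    rw [abs_of_pos hv']
    have := abs_nonneg b
    nlinarith
  obtain ⟨m1, m2⟩ := mu_coord (b := b) (c := c) (t := v) (v := cj b v') (T := BI * v.2) (T2 := v.2)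
    f1 (by rw [abs_of_pos hv]) c1' c2'
  have hv2 : (0 : ℝ) < v.2 := by exact_mod_cast hv
  have hv2' : (0 : ℝ) < v'.2 := by exact_mod_cast hv'
  have key : (BI * v.2 + (|b| + |c| + 1) * v.2) * ((BI + |b| + 1) * v'.2) ≤
      (⌈Q⌉₊ : ℤ) * Nm b c v := by
    have h5 : (((BI * v.2 + (|b| + |c| + 1) * v.2) * ((BI + |b| + 1) * v'.2) : ℤ) : ℝ) ≤
      (((⌈Q⌉₊ : ℤ) * Nm b c v : ℤ) : ℝ) := by
      push_cast
      have h6 : Q ≤ (⌈Q⌉₊ : ℝ) := Nat.le_ceil Q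
      have hNp : (0 : ℝ) ≤ Nm b c v := le_trans (by positivity) g1
      refine le_trans ?_ (mul_le_mul_of_nonneg_right h6 hNp)
      have h7 : (v.2 : ℝ) * v'.2 ≤ Nm b c v / c1 := by
        rw [le_div_iff₀ hloa]
        nlinarith [sq_nonneg ((v.2 : ℝ) - v'.2)]
      set K1 := ((BI : ℝ) + (|(b : ℝ)| + |(c : ℝ)| + 1) * 1) with hK1
      set K2 := ((BI : ℝ) + |(b : ℝ)| + 1) with hK2
      have k1 : 0 ≤ K1 := by positivity
      have k2 : 0 ≤ K2 := by positivity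
      calc ((BI : ℝ) * v.2 + (|(b : ℝ)| + |(c : ℝ)| + 1) * v.2) * (K2 * v'.2)
          = K1 * K2 * ((v.2 : ℝ) * v'.2) := by rw [hK1]; ring
        _ ≤ K1 * K2 * (Nm b c v / c1) := mul_le_mul_of_nonneg_left h7 (mul_nonneg k1 k2)
        _ = Q * Nm b c v := by rw [hQ]; ring
    exact_mod_cast h5
  have e : ((⌈Q⌉₊ : ℕ) : ℤ) = (⌈Q⌉₊ : ℤ) := rfl
  exact ⟨m1.trans key, m2.trans key⟩

theorem Bi_pos {b c : ℤ} {lo : ℝ} {v w : ℤ × ℤ} (hd : dt v w = 1) (hv : 0 < v.2) (hw : 0 < w.2)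
    (hlo : 0 < lo) (hloa : 0 < lo ^ 2 + aa b c) (h1 : lo ≤ sl b v) (h2 : lo ≤ sl b w) :
    0 < 2 * Bi b c v w + b := by
  have h3 : (0 : ℝ) < v.2 := by exact_mod_cast hv
  have h4 : (0 : ℝ) < w.2 := by exact_mod_cast hw
  have hd' : (v.1 : ℝ) * w.2 - v.2 * w.1 = 1 := by
    have : ((dt v w : ℤ) : ℝ) = 1 := by rw [hd]; norm_num
    unfold dt at this
    push_cast at this
    exact this
  have e : ((2 * Bi b c v w + b : ℤ) : ℝ) = 2 * (v.2 * w.2 * (sl b v * sl b w + aa b c)) := by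
    unfold Bi sl aa
    push_cast
    have e1 : (v.2 : ℝ) * w.2 * (((v.1 : ℝ) / v.2 + b / 2) * ((w.1 : ℝ) / w.2 + b / 2) +
        (c - (b : ℝ) ^ 2 / 4)) = ((v.1 : ℝ) + v.2 * b / 2) * ((w.1 : ℝ) + w.2 * b / 2) +
        (v.2 : ℝ) * w.2 * (c - (b : ℝ) ^ 2 / 4) := by
      field_simp
    rw [e1]
    linear_combination -(b : ℝ) * hd'
  have h5 : lo ^ 2 ≤ sl b v * sl b w := by nlinarith
  have h6 : 0 < (v.2 : ℝ) * w.2 * (sl b v * sl b w + aa b c) := by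
    apply mul_pos (mul_pos h3 h4); linarith
  have h7 : (0 : ℝ) < ((2 * Bi b c v w + b : ℤ) : ℝ) := by rw [e]; linarith
  exact_mod_cast h7

theorem Bi_bound {b c : ℤ} {v w : ℤ × ℤ} {R : ℝ} (h1 : ((|v.1| : ℤ) : ℝ) ≤ R)
    (h2 : ((|v.2| : ℤ) : ℝ) ≤ R) (h3 : ((|w.1| : ℤ) : ℝ) ≤ R) (h4 : ((|w.2| : ℤ) : ℝ) ≤ R) :
    |(Bi b c v w : ℝ)| ≤ (1 + |(b : ℝ)| + |(c : ℝ)|) * R ^ 2 := by
  rw [Int.cast_abs] at h1 h2 h3 h4
  have hR : 0 ≤ R := (abs_nonneg _).trans h1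
  have q1 : |(v.1 : ℝ) * w.1| ≤ R ^ 2 := by
    rw [abs_mul, pow_two]; exact mul_le_mul h1 h3 (abs_nonneg _) hR
  have q2 : |(b : ℝ) * v.2 * w.1| ≤ |(b : ℝ)| * R ^ 2 := by
    rw [mul_assoc, abs_mul, abs_mul, pow_two]
    exact mul_le_mul_of_nonneg_left (mul_le_mul h2 h3 (abs_nonneg _) hR) (abs_nonneg _)
  have q3 : |(c : ℝ) * v.2 * w.2| ≤ |(c : ℝ)| * R ^ 2 := by
    rw [mul_assoc, abs_mul, abs_mul, pow_two]
    exact mul_le_mul_of_nonneg_left (mul_le_mul h2 h4 (abs_nonneg _) hR) (abs_nonneg _)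
  unfold Bi
  push_cast
  have := abs_add_le ((v.1 : ℝ) * w.1 + b * v.2 * w.1) (c * v.2 * w.2)
  have := abs_add_le ((v.1 : ℝ) * w.1) (b * v.2 * w.1)
  nlinarith

/-- from sign changes to equal signs -/
theorem even_edges (φ : ℤ × ℤ → ℤ) (b : ℤ) (lo H R : ℝ)
    (h1 : ∀ v : ℤ × ℤ, 0 < v.2 → φ v = 1 ∨ φ v = -1)
    (E : Finset ((ℤ × ℤ) × (ℤ × ℤ)))
    (hE : ∀ e ∈ E, dt e.1 e.2 = 1 ∧ φ e.1 ≠ φ e.2 ∧ 0 < e.1.2 ∧ 0 < e.2.2 ∧
          (((|e.1.1| : ℤ) : ℝ) ≤ R ∧ ((|e.1.2| : ℤ) : ℝ) ≤ R ∧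
           ((|e.2.1| : ℤ) : ℝ) ≤ R ∧ ((|e.2.2| : ℤ) : ℝ) ≤ R) ∧
          (lo ≤ sl b e.1 ∧ sl b e.1 ≤ H) ∧ (lo ≤ sl b e.2 ∧ sl b e.2 ≤ H)) :
    ∃ E' : Finset ((ℤ × ℤ) × (ℤ × ℤ)), E.card ≤ 2 * E'.card ∧
      ∀ e ∈ E', dt e.1 e.2 = 1 ∧ φ e.1 = φ e.2 ∧ 0 < e.1.2 ∧ 0 < e.2.2 ∧
          (((|e.1.1| : ℤ) : ℝ) ≤ 2 * R ∧ ((|e.1.2| : ℤ) : ℝ) ≤ 2 * R ∧
           ((|e.2.1| : ℤ) : ℝ) ≤ 2 * R ∧ ((|e.2.2| : ℤ) : ℝ) ≤ 2 * R) ∧
          (lo ≤ sl b e.1 ∧ sl b e.1 ≤ H) ∧ (lo ≤ sl b e.2 ∧ sl b e.2 ≤ H) := by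
  classical
  set F : (ℤ × ℤ) × (ℤ × ℤ) → (ℤ × ℤ) × (ℤ × ℤ) := fun e =>
    if φ e.1 = φ (e.1 + e.2) then (e.1, e.1 + e.2) else (e.1 + e.2, e.2) with hF
  refine ⟨E.image F, ?_, ?_⟩
  · have := card_le_mul_card_image (f := F) E 2 (by
      intro e' _
      have hsub : E.filter (fun e => F e = e') ⊆ {(e'.1, e'.2 - e'.1), (e'.1 - e'.2, e'.2)} := by
        intro e he
        rw [mem_filter] at he
        rw [mem_insert, mem_singleton]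
        have h2 := he.2
        simp only [hF] at h2
        split_ifs at h2 with h3
        · left
          rw [← h2]
          simp
        · right
          rw [← h2]
          simp
      exact (card_le_card hsub).trans (card_le_two))
    exact this
  · intro e' he'
    rw [mem_image] at he'
    obtain ⟨e, he, rfl⟩ := he'
    obtain ⟨a1, a2, a3, a4, ⟨a5, a6, a7, a8⟩, ⟨a9, a10⟩, ⟨a11, a12⟩⟩ := hE e he
    have hR : 0 ≤ R := by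
      refine le_trans ?_ a5
      rw [Int.cast_abs]; exact abs_nonneg _
    have p : 0 < (e.1 + e.2).2 := by
      show 0 < e.1.2 + e.2.2
      omega
    have s1 : ((|(e.1 + e.2).1| : ℤ) : ℝ) ≤ 2 * R := by
      have h3 : |(e.1 + e.2).1| ≤ |e.1.1| + |e.2.1| := abs_add_le _ _
      have h4 : ((|(e.1 + e.2).1| : ℤ) : ℝ) ≤ ((|e.1.1| + |e.2.1| : ℤ) : ℝ) := by exact_mod_cast h3
      rw [Int.cast_add] at h4
      linarith
    have s2 : ((|(e.1 + e.2).2| : ℤ) : ℝ) ≤ 2 * R := by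
      have h3 : |(e.1 + e.2).2| ≤ |e.1.2| + |e.2.2| := abs_add_le _ _
      have h4 : ((|(e.1 + e.2).2| : ℤ) : ℝ) ≤ ((|e.1.2| + |e.2.2| : ℤ) : ℝ) := by exact_mod_cast h3
      rw [Int.cast_add] at h4
      linarith
    have hv2 : (0 : ℝ) < e.1.2 := by exact_mod_cast a3
    have hw2 : (0 : ℝ) < e.2.2 := by exact_mod_cast a4
    have hv1 : (e.1.1 : ℝ) = e.1.2 * (sl b e.1 - b / 2) := by
      unfold sl; field_simp; ring
    have hw1 : (e.2.1 : ℝ) = e.2.2 * (sl b e.2 - b / 2) := by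
      unfold sl; field_simp; ring
    have hsl : sl b (e.1 + e.2) = (e.1.2 * sl b e.1 + e.2.2 * sl b e.2) / (e.1.2 + e.2.2) := by
      have : sl b (e.1 + e.2) = ((e.1.1 : ℝ) + e.2.1) / (e.1.2 + e.2.2) + b / 2 := by
        unfold sl
        simp only [Prod.fst_add, Prod.snd_add]
        push_cast
        rfl
      rw [this, hv1, hw1]
      have hne : (e.1.2 : ℝ) + e.2.2 ≠ 0 := by linarith
      field_simp
      ring
    have b1 : lo ≤ sl b (e.1 + e.2) := by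
      rw [hsl, le_div_iff₀ (by linarith)]
      nlinarith
    have b2 : sl b (e.1 + e.2) ≤ H := by
      rw [hsl, div_le_iff₀ (by linarith)]
      nlinarith
    simp only [hF]
    split_ifs with h3
    · refine ⟨?_, h3, a3, p, ⟨by linarith, by linarith, s1, s2⟩, ⟨a9, a10⟩, ⟨b1, b2⟩⟩
      have : dt e.1 (e.1 + e.2) = dt e.1 e.2 := by
        simp only [dt, Prod.fst_add, Prod.snd_add]; ring
      rw [this, a1]
    · refine ⟨?_, ?_, p, a4, ⟨s1, s2, by linarith, by linarith⟩, ⟨b1, b2⟩, ⟨a11, a12⟩⟩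
      · have : dt (e.1 + e.2) e.2 = dt e.1 e.2 := by
          simp only [dt, Prod.fst_add, Prod.snd_add]; ring
        rw [this, a1]
      · simp only
        rcases h1 e.1 a3 with h4 | h4 <;> rcases h1 e.2 a4 with h5 | h5 <;>
          rcases h1 (e.1 + e.2) p with h6 | h6 <;> rw [h4, h5] at a2 <;> rw [h4, h6] at h3 <;>
          rw [h5, h6] <;> simp at a2 h3 ⊢

end Pool.Agent.H304R2
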