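import Mathlib
import Pool.Agent.H304R2.Cone
import Pool.Agent.Helper112.Arith

set_option autoImplicit false

open Finset

namespace Pool.Agent.H304R2

theorem ff_bound (b c n : ℤ) (R : ℝ) (hR : 1 ≤ R) (h : |(n : ℝ)| ≤ R) :
    ((ff b c n).natAbs : ℝ) ≤ (1 + |(b : ℝ)| + |(c : ℝ)|) * R ^ 2 := by
  have e : ((ff b c n).natAbs : ℝ) = |((ff b c n : ℤ) : ℝ)| := by
    rw [Nat.cast_natAbs, Int.cast_abs]
  rw [e]
  unfold ff
  push_cast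
  have h0 := abs_nonneg (n : ℝ)
  have h1 : |(n : ℝ) ^ 2| ≤ R ^ 2 := by
    rw [abs_pow]; exact pow_le_pow_left₀ h0 h 2
  have h2 : |(b : ℝ) * n| ≤ |(b : ℝ)| * R ^ 2 := by
    rw [abs_mul]
    apply mul_le_mul_of_nonneg_left _ (abs_nonneg _)
    nlinarith
  have h3 : |(c : ℝ)| ≤ |(c : ℝ)| * R ^ 2 := by
    have := abs_nonneg (c : ℝ)
    nlinarith [mul_nonneg this (by nlinarith : (0 : ℝ) ≤ R ^ 2 - 1)]
  have := abs_add_le ((n : ℝ) ^ 2 + b * n) c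
  have := abs_add_le ((n : ℝ) ^ 2) (b * n)
  linarith

theorem count_from_edges (b c : ℤ) (hD : ¬ IsSquare (b ^ 2 - 4 * c)) (lo H C : ℝ) (hlo : 0 < lo)
    (hloa : 0 < lo ^ 2 + aa b c) (hC : 0 < C) (k : ℕ) (hk : 1 ≤ k) :
    ∃ C9 C10 : ℝ, 0 < C9 ∧ 0 < C10 ∧ ∀ Y : ℕ, 1 ≤ Y → ∀ g : ℕ → ℤ,
      (∀ m n, m ≠ 0 → n ≠ 0 → g (m * n) = g m * g n) → ∀ (s : ℤ) (E : Finset ((ℤ × ℤ) × (ℤ × ℤ))),
      (∀ e ∈ E, dt e.1 e.2 = 1 ∧ fi b c g e.1 * fi b c g e.2 = s ∧ 0 < e.1.2 ∧ 0 < e.2.2 ∧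
          (((|e.1.1| : ℤ) : ℝ) ≤ C * (Y : ℝ) ^ k ∧ ((|e.1.2| : ℤ) : ℝ) ≤ C * (Y : ℝ) ^ k ∧
           ((|e.2.1| : ℤ) : ℝ) ≤ C * (Y : ℝ) ^ k ∧ ((|e.2.2| : ℤ) : ℝ) ≤ C * (Y : ℝ) ^ k) ∧
          (lo ≤ sl b e.1 ∧ sl b e.1 ≤ H) ∧ (lo ≤ sl b e.2 ∧ sl b e.2 ≤ H)) →
      ∀ N : ℕ, C10 * (Y : ℝ) ^ (2 * k) ≤ N →
        (E.card : ℝ) ≤ C9 * Y *
          ((((Icc 1 N).filter (fun n : ℕ => g (ff b c n).natAbs = s)).card : ℝ) + |(b : ℝ)| + 1) := by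
  classical
  obtain ⟨C0, hC0⟩ := cone_mul b c lo H hlo hloa
  obtain ⟨Cd, hCd, hdiv⟩ := Pool.Agent.Helper112.divisor_bound (1 / (4 * k : ℝ)) (by positivity)
  set A : ℝ := (1 + |(b : ℝ)| + |(c : ℝ)|) * C ^ 2 + 1 with hA
  have hA0 : 1 ≤ A := by
    have : 0 ≤ (1 + |(b : ℝ)| + |(c : ℝ)|) * C ^ 2 := by positivity
    linarith
  set A2 : ℝ := (1 + |(b : ℝ)| + |(c : ℝ)|) * A ^ 2 with hA2
  have hA20 : 0 < A2 := by positivity
  set C9 : ℝ := (2 * (C0 : ℝ) + 1) ^ 2 * (Cd * A2 ^ (1 / (4 * k : ℝ))) with hC9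
  refine ⟨C9, A, by positivity, by linarith, ?_⟩
  intro Y hY g hg1 s E hE N hN
  have hYr : (1 : ℝ) ≤ Y := by exact_mod_cast hY
  have hYk : (1 : ℝ) ≤ (Y : ℝ) ^ (2 * k) := one_le_pow₀ hYr
  set T := E.image (fun e => Bi b c e.1 e.2) with hT
  -- bound of n
  have hbd : ∀ e ∈ E, |(Bi b c e.1 e.2 : ℝ)| ≤ A * (Y : ℝ) ^ (2 * k) := by
    intro e he
    obtain ⟨a1, a2, a3, a4, ⟨a5, a6, a7, a8⟩, ⟨a9, a10⟩, ⟨a11, a12⟩⟩ := hE e he
    refine (Bi_bound a5 a6 a7 a8).trans ?_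
    rw [mul_pow, ← pow_mul, mul_comm k 2, hA]
    have : 0 ≤ (Y : ℝ) ^ (2 * k) := by positivity
    nlinarith
  have hfN : ∀ e ∈ E, ff b c (Bi b c e.1 e.2) ≠ 0 := by
    intro e he
    obtain ⟨a1, a2, a3, a4, ⟨a5, a6, a7, a8⟩, ⟨a9, a10⟩, ⟨a11, a12⟩⟩ := hE e he
    rw [← Nm_mul_Nm b c _ _ a1]
    exact mul_ne_zero (Nm_ne_zero b c hD _ (two_snd_pos _ a3)) (Nm_ne_zero b c hD _ (two_snd_pos _ a4))
  have hfib : ∀ n ∈ T, (((E.filter (fun e => Bi b c e.1 e.2 = n)).card : ℕ) : ℝ) ≤ C9 * Y := by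
    intro n hn
    rw [hT, mem_image] at hn
    obtain ⟨e0, he0, rfl⟩ := hn
    set n := Bi b c e0.1 e0.2 with hn
    have hne := hfN e0 he0
    have h1 := edges_card b c n C0 (E.filter (fun e => Bi b c e.1 e.2 = n)) hne (by
      intro e he
      rw [mem_filter] at he
      obtain ⟨a1, a2, a3, a4, ⟨a5, a6, a7, a8⟩, ⟨a9, a10⟩, ⟨a11, a12⟩⟩ := hE e he.1
      exact ⟨a1, he.2, cone_norm_pos a3 hlo hloa a9⟩) (by
      intro e he e' he' hN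
      rw [mem_filter] at he he'
      obtain ⟨a1, a2, a3, a4, ⟨a5, a6, a7, a8⟩, ⟨a9, a10⟩, ⟨a11, a12⟩⟩ := hE e he.1
      obtain ⟨b1, b2, b3, b4, ⟨b5, b6, b7, b8⟩, ⟨b9, b10⟩, ⟨b11, b12⟩⟩ := hE e' he'.1
      exact hC0 e.1 e'.1 a3 b3 a9 a10 b9 b10 hN)
    have h2 : (((E.filter (fun e => Bi b c e.1 e.2 = n)).card : ℕ) : ℝ) ≤
        (2 * (C0 : ℝ) + 1) ^ 2 * ((ff b c n).natAbs.divisors.card : ℝ) := by
      exact_mod_cast h1
    have hfpos : 1 ≤ (ff b c n).natAbs :=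
      Nat.one_le_iff_ne_zero.mpr (Int.natAbs_ne_zero.mpr hne)
    have h3 := hdiv (ff b c n).natAbs hfpos
    have h4 := ff_bound b c n (A * (Y : ℝ) ^ (2 * k)) (by nlinarith) (hbd e0 he0)
    have h5 : (1 + |(b : ℝ)| + |(c : ℝ)|) * (A * (Y : ℝ) ^ (2 * k)) ^ 2 = A2 * (Y : ℝ) ^ (4 * k) := by
      rw [mul_pow, ← pow_mul, hA2]
      have : 2 * k * 2 = 4 * k := by ring
      rw [this]; ring
    rw [h5] at h4
    have hk0 : (k : ℝ) ≠ 0 := by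
      have : (1 : ℝ) ≤ k := by exact_mod_cast hk
      linarith
    have h6 : ((ff b c n).natAbs : ℝ) ^ (1 / (4 * k : ℝ)) ≤ A2 ^ (1 / (4 * k : ℝ)) * Y := by
      refine (Real.rpow_le_rpow (by positivity) h4 (by positivity)).trans ?_
      rw [Real.mul_rpow hA20.le (by positivity), ← Real.rpow_natCast, ← Real.rpow_mul (by positivity)]
      push_cast
      have : (4 * k : ℝ) * (1 / (4 * k : ℝ)) = 1 := by field_simp
      rw [this, Real.rpow_one]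
    calc (((E.filter (fun e => Bi b c e.1 e.2 = n)).card : ℕ) : ℝ)
        ≤ (2 * (C0 : ℝ) + 1) ^ 2 * ((ff b c n).natAbs.divisors.card : ℝ) := h2
      _ ≤ (2 * (C0 : ℝ) + 1) ^ 2 * (Cd * (A2 ^ (1 / (4 * k : ℝ)) * Y)) := by
          apply mul_le_mul_of_nonneg_left _ (by positivity)
          exact h3.trans (mul_le_mul_of_nonneg_left h6 hCd.le)
      _ = C9 * Y := by rw [hC9]; ring
  have hTsub : T ⊆ (((Icc 1 N).filter (fun n : ℕ => g (ff b c n).natAbs = s)).image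
      (fun n : ℕ => (n : ℤ))) ∪ Icc (-|b|) 0 := by
    intro n hn
    rw [hT, mem_image] at hn
    obtain ⟨e, he, rfl⟩ := hn
    obtain ⟨a1, a2, a3, a4, ⟨a5, a6, a7, a8⟩, ⟨a9, a10⟩, ⟨a11, a12⟩⟩ := hE e he
    have h1 := Bi_pos a1 a3 a4 hlo hloa a9 a11
    rw [mem_union]
    by_cases hc : 1 ≤ Bi b c e.1 e.2
    · left
      rw [mem_image]
      refine ⟨(Bi b c e.1 e.2).toNat, ?_, by omega⟩
      have e1 : (((Bi b c e.1 e.2).toNat : ℕ) : ℤ) = Bi b c e.1 e.2 := by omega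
      rw [mem_filter, mem_Icc]
      refine ⟨⟨by omega, ?_⟩, ?_⟩
      · have h2 := (le_abs_self _).trans ((hbd e he).trans hN)
        have h3 : Bi b c e.1 e.2 ≤ (N : ℤ) := by exact_mod_cast h2
        omega
      · rw [e1, ← Nm_mul_Nm b c _ _ a1, Int.natAbs_mul,
          hg1 _ _ (Int.natAbs_ne_zero.mpr (Nm_ne_zero b c hD _ (two_snd_pos _ a3)))
            (Int.natAbs_ne_zero.mpr (Nm_ne_zero b c hD _ (two_snd_pos _ a4)))]
        exact a2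
    · right
      rw [mem_Icc]
      have := le_abs_self b
      omega
  have hTcard : (T.card : ℝ) ≤
      (((Icc 1 N).filter (fun n : ℕ => g (ff b c n).natAbs = s)).card : ℝ) + |(b : ℝ)| + 1 := by
    have h1 := (card_le_card hTsub).trans (card_union_le _ _)
    have h2 := card_image_le (s := (Icc 1 N).filter (fun n : ℕ => g (ff b c n).natAbs = s))
      (f := fun n : ℕ => (n : ℤ))
    rw [Int.card_Icc] at h1
    have h3 : ((0 + 1 - -|b|).toNat : ℤ) = |b| + 1 := by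
      have := abs_nonneg b
      omega
    have h4 : ((T.card : ℕ) : ℤ) ≤
        (((Icc 1 N).filter (fun n : ℕ => g (ff b c n).natAbs = s)).card : ℤ) + (|b| + 1) := by
      rw [← h3]
      exact_mod_cast h1.trans (Nat.add_le_add_right h2 _)
    have h5 : (((T.card : ℕ) : ℤ) : ℝ) ≤
        (((((Icc 1 N).filter (fun n : ℕ => g (ff b c n).natAbs = s)).card : ℤ) + (|b| + 1) : ℤ) : ℝ) := by
      exact_mod_cast h4
    push_cast at h5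
    linarith
  have hcard := card_eq_sum_card_fiberwise (f := fun e => Bi b c e.1 e.2) (s := E) (t := T)
    (fun x hx => mem_coe.mpr (mem_image_of_mem _ (mem_coe.mp hx)))
  have hcard' : (E.card : ℝ) = ∑ n ∈ T, ((E.filter (fun e => Bi b c e.1 e.2 = n)).card : ℝ) := by
    rw [hcard]; push_cast; rfl
  rw [hcard']
  calc ∑ n ∈ T, ((E.filter (fun e => Bi b c e.1 e.2 = n)).card : ℝ)
      ≤ ∑ n ∈ T, (C9 * Y) := sum_le_sum hfib
    _ = (T.card : ℝ) * (C9 * Y) := by rw [sum_const, nsmul_eq_mul]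
    _ ≤ _ := by
        rw [mul_comm]
        exact mul_le_mul_of_nonneg_left hTcard (by positivity)

end Pool.Agent.H304R2
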