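import Mathlib
import Pool.Agent.H304R2.Chain

set_option autoImplicit false

open Filter Topology

namespace Pool.Agent.H304R2

theorem Sg_sq (φ : ℤ × ℤ → ℤ) (Y : ℤ) (J : ℕ)
    (h : ∀ i : ℕ, i ≤ J → φ (Y + i, 1) = 1 ∨ φ (Y + i, 1) = -1) :
    ∀ k i : ℕ, k + i ≤ J → Sg φ Y k i * Sg φ Y k i = 1 := by
  intro k
  induction k with
  | zero =>
    intro i hi
    simp only [Sg]
    rcases h i (by omega) with h1 | h1 <;> rw [h1] <;> norm_num
  | succ k ih =>
    intro i hi
    simp only [Sg]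
    have h1 := ih i (by omega)
    have h2 := ih (i + 1) (by omega)
    calc Sg φ Y k i * Sg φ Y k (i + 1) * (Sg φ Y k i * Sg φ Y k (i + 1))
        = (Sg φ Y k i * Sg φ Y k i) * (Sg φ Y k (i + 1) * Sg φ Y k (i + 1)) := by ring
      _ = 1 := by rw [h1, h2]; norm_num

/-- greedy phase -/
theorem phase {b c : ℤ} {φ : ℤ × ℤ → ℤ} {P : ℤ × ℤ → Prop} {lo hi : ℝ} (xe r δ Δ : ℝ) (Lb : ℕ)
    (h1 : lo ≤ xe) (h3 : r ≤ hi) (V : ℝ → ℝ)
    (hδ : 0 < δ)
    (hblk : ∀ x, xe ≤ x → x ≤ r → ∃ l : List ℝ, Reach b c φ P lo hi l x (V x) 1 ∧ l.length ≤ Lb)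
    (hmove : ∀ x, xe ≤ x → x ≤ r → δ ≤ x - V x ∧ x - V x ≤ 2 * Δ) :
    ∀ (n : ℕ) (x : ℝ), xe ≤ x → x ≤ r → x ≤ xe + n * δ →
      ∃ (l : List ℝ) (y : ℝ), Reach b c φ P lo hi l x y 1 ∧ xe ≤ y ∧ y ≤ xe + 2 * Δ ∧ y ≤ r ∧
        l.length ≤ n * Lb + 1 := by
  intro n
  induction n with
  | zero =>
    intro x hx1 hx2 hx3
    have hx : x = xe := by
      push_cast at hx3
      linarith
    have h4 := hmove x hx1 hx2
    exact ⟨[x], x, Reach.nil x (by linarith) (by linarith), hx1, by linarith, hx2, by simp⟩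
  | succ n ih =>
    intro x hx1 hx2 hx3
    by_cases hst : x ≤ xe + 2 * Δ
    · exact ⟨[x], x, Reach.nil x (by linarith) (by linarith), hx1, hst, hx2, by simp⟩
    · push Not at hst
      have h4 := hmove x hx1 hx2
      obtain ⟨l1, g1, g2⟩ := hblk x hx1 hx2
      push_cast at hx3
      obtain ⟨l2, y, g3, g4, g5, g6, g7⟩ := ih (V x) (by linarith) (by linarith) (by linarith)
      obtain ⟨l3, g8, g9⟩ := g1.trans g3
      refine ⟨l3, y, ?_, g4, g5, g6, ?_⟩
      · rwa [one_mul] at g8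
      · have : (n + 1) * Lb + 1 = n * Lb + Lb + 1 := by ring
        omega

theorem phases {b c : ℤ} {φ : ℤ × ℤ → ℤ} {P : ℤ × ℤ → Prop} {lo hi xe r ε K c1 : ℝ} (Y : ℕ) (J : ℕ)
    (hlo : 0 < lo) (hxe : lo < xe) (hr : xe < r) (hhi : r < hi)
    (hK : K = hi ^ 2 + |aa b c|) (hc1 : c1 = lo ^ 2 + aa b c) (hc1p : 0 < c1)
    (hε : 0 ≤ ε) (hε2 : ε * (hi + |aa b c| + 1) ≤ 1 / 2)
    (hm1 : 2 ^ (J + 1) * (2 * K * ε) ≤ xe - lo) (hm2 : 2 ^ (J + 1) * (2 * K * ε) ≤ hi - r)
    (hcj : ∀ t, φ (cj b t) = φ t)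
    (hP : ∀ i : ℕ, i ≤ J → P ((Y : ℤ) + i, 1) ∧ P (cj b ((Y : ℤ) + i, 1)))
    (hφ : ∀ i : ℕ, i ≤ J → φ ((Y : ℤ) + i, 1) = 1 ∨ φ ((Y : ℤ) + i, 1) = -1)
    (hY : 1 ≤ (Y : ℝ) + b / 2) (hY2 : (Y : ℝ) + b / 2 ≤ 2 * Y) (hY3 : (1 : ℝ) ≤ Y)
    (hψ : ∀ k i : ℕ, k + i ≤ J → |psi (aa b c) k ((Y : ℝ) + b / 2 + i)| ≤ ε)
    (hb : ∀ k : ℕ, k ≤ J → (1 / 2) / ((Y : ℝ) + b / 2) ^ (k + 1) ≤ psi (aa b c) k ((Y : ℝ) + b / 2) ∧
      psi (aa b c) k ((Y : ℝ) + b / 2) ≤ (2 * k.factorial : ℝ) / ((Y : ℝ) + b / 2) ^ (k + 1))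
    (A : ℝ) (hA : A = 4 * (r - xe) / c1 + 64 * K * J.factorial / c1 + 2) :
    ∀ k : ℕ, k ≤ J → ∃ (l : List ℝ) (y : ℝ), Reach b c φ P lo hi l r y 1 ∧ xe ≤ y ∧
      y ≤ xe + 2 * (psi (aa b c) k ((Y : ℝ) + b / 2) * K) ∧ y ≤ r ∧
      (l.length : ℝ) ≤ (k + 1) * ((A * 2 ^ (J + 2) + 1) * Y) := by
  set a := aa b c with ha
  set s := (Y : ℝ) + (b : ℝ) / 2 with hs
  have hKp : 0 < K := by
    rw [hK]
    have : 0 < hi := by linarith
    have := abs_nonneg a
    positivity
  have hψp : ∀ k, k ≤ J → 0 < psi a k s := by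
    intro k hk
    have := (hb k hk).1
    have h2 : 0 < (1 / 2) / s ^ (k + 1) := by positivity
    linarith
  have hψe : ∀ k, k ≤ J → psi a k s ≤ ε := by
    intro k hk
    have := hψ k 0 (by omega)
    rw [Nat.cast_zero, add_zero] at this
    exact (le_abs_self _).trans this
  have hεhi : ε * hi ≤ 1 / 2 := by
    have := mul_le_mul_of_nonneg_left (by linarith [abs_nonneg a] : hi ≤ hi + |a| + 1) hε
    linarith
  -- moves
  have mv : ∀ k, k ≤ J → ∀ x, lo ≤ x → x ≤ hi → psi a k s * c1 / 2 ≤ x - Vp a (psi a k s) x ∧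
      x - Vp a (psi a k s) x ≤ psi a k s * K := by
    intro k hk x hx1 hx2
    have p := hψp k hk
    have e := hψe k hk
    have hx0 : 0 < x := by linarith
    have h5 : psi a k s * x ≤ 1 / 2 := by
      have : psi a k s * x ≤ ε * hi := mul_le_mul e hx2 hx0.le hε
      linarith
    have h6 : 0 < psi a k s * x := mul_pos p hx0
    have h7 : c1 ≤ x ^ 2 + a := by rw [hc1]; nlinarith
    have h8 : x ^ 2 + a ≤ K := by
      rw [hK]
      have := le_abs_self a
      nlinarith
    rw [Vp_move (by linarith)]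
    constructor
    · rw [le_div_iff₀ (by linarith)]
      have h9 : psi a k s * c1 / 2 * (1 + psi a k s * x) ≤ psi a k s * c1 / 2 * 2 := by
        apply mul_le_mul_of_nonneg_left (by linarith) (by positivity)
      have h10 : psi a k s * c1 ≤ psi a k s * (x ^ 2 + a) := mul_le_mul_of_nonneg_left h7 p.le
      linarith
    · rw [div_le_iff₀ (by linarith)]
      have h10 : psi a k s * (x ^ 2 + a) ≤ psi a k s * K := mul_le_mul_of_nonneg_left h8 p.le
      have h11 : 0 ≤ psi a k s * K * (psi a k s * x) := by positivity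
      nlinarith
  set η := 2 * K * ε with hη
  have hη0 : 0 ≤ η := by positivity
  have hpw : ∀ k, k ≤ J → (2 : ℝ) ^ (k + 1) * η ≤ 2 ^ (J + 1) * η := by
    intro k hk
    apply mul_le_mul_of_nonneg_right _ hη0
    exact pow_le_pow_right₀ (by norm_num) (by omega)
  have hblock := block (b := b) (c := c) (φ := φ) (P := P) (lo := lo) (hi := hi) (ε := ε) (Y : ℤ) J
    hlo hε hε2 hcj hP (by push_cast; linarith) (by push_cast; exact hψ)
  rw [← ha] at hblock
  have hη' : 2 * (hi ^ 2 + |a|) * ε = η := by rw [hη, hK]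
  rw [hη'] at hblock
  -- double block
  have dbl : ∀ k, k ≤ J → ∀ x, xe ≤ x → x ≤ r →
      ∃ l : List ℝ, Reach b c φ P lo hi l x (Vp a (psi a k s) (Vp a (psi a k s) x)) 1 ∧
        l.length ≤ 2 ^ (J + 2) := by
    intro k hk x hx1 hx2
    have q1 := hpw k hk
    have q2 : (2 : ℝ) ^ (k + 1) * η = 2 ^ k * η + 2 ^ k * η := by rw [pow_succ]; ring
    have q3 : η ≤ 2 ^ k * η := by
      have : (1 : ℝ) ≤ 2 ^ k := one_le_pow₀ (by norm_num)
      nlinarith
    have p := hψp k hk
    have e := hψe k hk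
    have sm := small_move (a := a) hlo hε hε2 (by rw [abs_of_pos p]; exact e : |psi a k s| ≤ ε)
      (by linarith : lo ≤ x) (by linarith : x ≤ hi)
    rw [hη', abs_le] at sm
    obtain ⟨⟨l1, g1, g2⟩, -⟩ := hblock k 0 (by omega) x (by linarith) (by linarith)
    rw [Nat.cast_zero, add_zero] at g1
    push_cast at g1
    rw [← hs] at g1
    obtain ⟨⟨l2, g3, g4⟩, -⟩ := hblock k 0 (by omega) (Vp a (psi a k s) x) (by linarith)
      (by linarith)
    rw [Nat.cast_zero, add_zero] at g3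
    push_cast at g3
    rw [← hs] at g3
    obtain ⟨l3, g5, g6⟩ := g1.trans g3
    rw [Sg_sq φ Y J hφ k 0 (by omega)] at g5
    refine ⟨l3, g5, ?_⟩
    have h1 : 2 ^ (k + 1) ≤ 2 ^ (J + 1) := Nat.pow_le_pow_right (by norm_num) (by omega)
    have h2 : 2 ^ (J + 2) = 2 ^ (J + 1) + 2 ^ (J + 1) := by ring
    omega
  have dmv : ∀ k, k ≤ J → ∀ x, xe ≤ x → x ≤ r →
      psi a k s * c1 / 2 ≤ x - Vp a (psi a k s) (Vp a (psi a k s) x) ∧
      x - Vp a (psi a k s) (Vp a (psi a k s) x) ≤ 2 * (psi a k s * K) := by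
    intro k hk x hx1 hx2
    have q1 := hpw k hk
    have q3 : η ≤ 2 ^ (k + 1) * η := by
      have : (1 : ℝ) ≤ 2 ^ (k + 1) := one_le_pow₀ (by norm_num)
      nlinarith
    have p := hψp k hk
    have e := hψe k hk
    have sm := small_move (a := a) hlo hε hε2 (by rw [abs_of_pos p]; exact e : |psi a k s| ≤ ε)
      (by linarith : lo ≤ x) (by linarith : x ≤ hi)
    rw [hη', abs_le] at sm
    have m1 := mv k hk x (by linarith) (by linarith)
    have m2 := mv k hk (Vp a (psi a k s) x) (by linarith) (by linarith)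
    have hp2 : 0 < psi a k s * c1 / 2 := by positivity
    constructor <;> linarith
  have hAp : 2 ≤ A := by
    rw [hA]
    have h1 : 0 ≤ 4 * (r - xe) / c1 := by
      apply div_nonneg _ hc1p.le
      linarith
    have h2 : 0 ≤ 64 * K * J.factorial / c1 := by positivity
    linarith
  have hsp : 0 < s := by linarith
  -- a phase from gap G
  have run : ∀ k, k ≤ J → ∀ G x, xe ≤ x → x ≤ r → x ≤ xe + G → 0 ≤ G →
      G / (psi a k s * c1 / 2) + 1 ≤ A * Y →
      ∃ (l : List ℝ) (y : ℝ), Reach b c φ P lo hi l x y 1 ∧ xe ≤ y ∧ y ≤ xe + 2 * (psi a k s * K) ∧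
        y ≤ r ∧ (l.length : ℝ) ≤ (A * 2 ^ (J + 2) + 1) * Y := by
    intro k hk G x hx1 hx2 hx3 hG hGA
    have p := hψp k hk
    have hδ : 0 < psi a k s * c1 / 2 := by positivity
    obtain ⟨l, y, g1, g2, g3, g4, g5⟩ := phase xe r (psi a k s * c1 / 2) (psi a k s * K)
      (2 ^ (J + 2)) hxe.le hhi.le (fun x => Vp a (psi a k s) (Vp a (psi a k s) x)) hδ
      (dbl k hk) (dmv k hk) ⌈G / (psi a k s * c1 / 2)⌉₊ x hx1 hx2 (by
        have := Nat.le_ceil (G / (psi a k s * c1 / 2))
        rw [div_le_iff₀ hδ] at this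
        linarith)
    refine ⟨l, y, g1, g2, g3, g4, ?_⟩
    have h1 : (⌈G / (psi a k s * c1 / 2)⌉₊ : ℝ) ≤ A * Y := by
      have := Nat.ceil_lt_add_one (div_nonneg hG hδ.le)
      linarith
    have h2 : (l.length : ℝ) ≤ (⌈G / (psi a k s * c1 / 2)⌉₊ : ℝ) * 2 ^ (J + 2) + 1 := by
      exact_mod_cast g5
    calc (l.length : ℝ) ≤ (⌈G / (psi a k s * c1 / 2)⌉₊ : ℝ) * 2 ^ (J + 2) + 1 := h2
      _ ≤ (A * Y) * 2 ^ (J + 2) + 1 * Y := by
          apply add_le_add _ (by linarith)
          exact mul_le_mul_of_nonneg_right h1 (by positivity)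
      _ = (A * 2 ^ (J + 2) + 1) * Y := by ring
  intro k
  induction k with
  | zero =>
    intro _
    obtain ⟨l, y, g1, g2, g3, g4, g5⟩ := run 0 (Nat.zero_le _) (r - xe) r hr.le le_rfl (by linarith)
      (by linarith) (by
        have e1 : psi a 0 s = 1 / s := rfl
        rw [e1]
        have e2 : (r - xe) / (1 / s * c1 / 2) = 2 * (r - xe) / c1 * s := by
          field_simp
        rw [e2, hA]
        have h1 : 0 ≤ 2 * (r - xe) / c1 := by
          apply div_nonneg _ hc1p.le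
          linarith
        have h2 : 0 ≤ 64 * K * J.factorial / c1 := by positivity
        have h3 : 2 * (r - xe) / c1 * s ≤ 2 * (r - xe) / c1 * (2 * Y) :=
          mul_le_mul_of_nonneg_left hY2 h1
        have h4 : 4 * (r - xe) / c1 = 2 * (2 * (r - xe) / c1) := by ring
        rw [h4]
        have h5 : 0 ≤ 64 * K * J.factorial / c1 * Y := by positivity
        nlinarith)
    refine ⟨l, y, g1, g2, g3, g4, ?_⟩
    push_cast
    linarith
  | succ k ih =>
    intro hk
    obtain ⟨l, y, g1, g2, g3, g4, g5⟩ := ih (by omega)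
    obtain ⟨l', y', g1', g2', g3', g4', g5'⟩ := run (k + 1) hk (2 * (psi a k s * K)) y g2 g4 g3
      (by have := hψp k (by omega); positivity) (by
        have p := hψp (k + 1) hk
        have b1 := (hb k (by omega)).2
        have b2 := (hb (k + 1) hk).1
        have e2 : 2 * (psi a k s * K) / (psi a (k + 1) s * c1 / 2) =
            4 * K / c1 * (psi a k s / psi a (k + 1) s) := by
          field_simp
          ring
        rw [e2]
        have h1 : psi a k s / psi a (k + 1) s ≤ 4 * J.factorial * s := by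
          rw [div_le_iff₀ p]
          have h2 : (2 * k.factorial : ℝ) / s ^ (k + 1) = 4 * k.factorial * s * ((1 / 2) / s ^ (k + 1 + 1)) := by
            rw [pow_succ s (k + 1)]
            field_simp
            ring
          have h3 : (k.factorial : ℝ) ≤ J.factorial := by
            exact_mod_cast Nat.factorial_le (by omega)
          have h5 : 0 ≤ (1 / 2) / s ^ (k + 1 + 1) := by positivity
          calc psi a k s ≤ 4 * k.factorial * s * ((1 / 2) / s ^ (k + 1 + 1)) := by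
                rw [← h2]; exact b1
            _ ≤ 4 * J.factorial * s * ((1 / 2) / s ^ (k + 1 + 1)) := by
                apply mul_le_mul_of_nonneg_right _ h5
                apply mul_le_mul_of_nonneg_right _ hsp.le
                linarith
            _ ≤ 4 * J.factorial * s * psi a (k + 1) s := by
                apply mul_le_mul_of_nonneg_left b2
                positivity
        have h6 : 4 * K / c1 * (psi a k s / psi a (k + 1) s) ≤
            4 * K / c1 * (4 * J.factorial * (2 * Y)) := by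
          apply mul_le_mul_of_nonneg_left _ (by positivity)
          refine h1.trans ?_
          apply mul_le_mul_of_nonneg_left hY2
          positivity
        rw [hA]
        have h7 : 0 ≤ 4 * (r - xe) / c1 := by
          apply div_nonneg _ hc1p.le
          linarith
        have h8 : 4 * K / c1 * (4 * J.factorial * (2 * Y)) ≤ 64 * K * J.factorial / c1 * Y := by
          have : 4 * K / c1 * (4 * J.factorial * (2 * (Y : ℝ))) =
              (32 * K * J.factorial / c1) * Y := by ring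
          rw [this]
          apply mul_le_mul_of_nonneg_right _ (by linarith)
          apply div_le_div_of_nonneg_right _ hc1p.le
          have : 0 ≤ K * J.factorial := by positivity
          linarith
        have h9 : 0 ≤ 4 * (r - xe) / c1 * Y := mul_nonneg h7 (by linarith)
        nlinarith)
    obtain ⟨l'', q1, q2⟩ := g1.trans g1'
    refine ⟨l'', y', by rwa [one_mul] at q1, g2', g3', g4', ?_⟩
    have : (l''.length : ℝ) ≤ l.length + l'.length := by
      exact_mod_cast (by omega : l''.length ≤ l.length + l'.length)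
    push_cast
    linarith

end Pool.Agent.H304R2
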