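import Mathlib
import Pool.Agent.H304R2.Chain2

set_option autoImplicit false

open Filter Topology

namespace Pool.Agent.H304R2

theorem chain_exists (b c : ℤ) (lo xe r hi H : ℝ) (J : ℕ)
    (hlo : 0 < lo) (hxe : lo < xe) (hr : xe < r) (hhi : r < hi)
    (hc1p : 0 < lo ^ 2 + aa b c) (hH : 0 ≤ H) :
    ∃ C : ℝ, 0 < C ∧ ∃ Y0 : ℕ, ∀ Y : ℕ, Y0 ≤ Y → ∀ φ : ℤ × ℤ → ℤ,
      (∀ t, φ (cj b t) = φ t) → (∀ t, 0 < Nm b c t → φ t = 1 ∨ φ t = -1) →
      ∃ (l : List ℝ) (y : ℝ), Reach b c φ (Stp b c (2 * Y) H) lo hi l r y 1 ∧ xe ≤ y ∧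
        y ≤ xe + C / (Y : ℝ) ^ (J + 1) ∧ (l.length : ℝ) ≤ C * Y := by
  set a := aa b c with ha
  set K := hi ^ 2 + |a| with hK
  set c1 := lo ^ 2 + a with hc1
  have hKp : 0 < K := by
    have : 0 < hi := by linarith
    have := abs_nonneg a
    positivity
  have hev : ∀ᶠ x : ℝ in atTop, ∀ k ∈ Finset.range (J + 1),
      (1 / 2) / x ^ (k + 1) ≤ psi a k x ∧ psi a k x ≤ (2 * k.factorial : ℝ) / x ^ (k + 1) :=
    (Filter.eventually_all_finset _).mpr fun k _ => psi_bounds a k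
  obtain ⟨x0, hx0⟩ := eventually_atTop.mp hev
  set F : ℝ := (J.factorial : ℝ) with hF
  have hF1 : 1 ≤ F := by
    rw [hF]; exact_mod_cast Nat.succ_le_of_lt (Nat.factorial_pos J)
  set m := min (xe - lo) (hi - r) with hm
  have hmp : 0 < m := lt_min (by linarith) (by linarith)
  set s0 := |x0| + 1 + 4 * F * (hi + |a| + 1) + 2 ^ (J + 1) * (4 * K * F) / m + (4 * H + |a| + 1)
    with hs0
  set A := 4 * (r - xe) / c1 + 64 * K * J.factorial / c1 + 2 with hA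
  have hhi0 : 0 < hi := by linarith
  have ha0 := abs_nonneg a
  have hAp : 0 ≤ A := by
    have h1 : 0 ≤ 4 * (r - xe) / c1 := by
      apply div_nonneg _ hc1p.le
      linarith
    have h2 : 0 ≤ 64 * K * J.factorial / c1 := by positivity
    linarith
  refine ⟨(J + 1) * (A * 2 ^ (J + 2) + 1) + 4 * K * F * 2 ^ (J + 1) + 1, by positivity,
    ⌈s0⌉₊ + b.natAbs + J + 1, ?_⟩
  intro Y hYY φ hcj hφ
  have hYr : s0 + |(b : ℝ)| + J + 1 ≤ Y := by
    have h1 : ((⌈s0⌉₊ + b.natAbs + J + 1 : ℕ) : ℝ) ≤ Y := by exact_mod_cast hYY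
    push_cast at h1
    have h2 := Nat.le_ceil s0
    have h3 : ((b.natAbs : ℕ) : ℝ) = |(b : ℝ)| := by
      rw [Nat.cast_natAbs, Int.cast_abs]
    rw [h3] at h1
    linarith
  have hbabs := abs_nonneg (b : ℝ)
  have hb1 := le_abs_self (b : ℝ)
  have hb2 := neg_abs_le (b : ℝ)
  set s := (Y : ℝ) + (b : ℝ) / 2 with hs
  have hJ0 : (0 : ℝ) ≤ J := Nat.cast_nonneg J
  have hss0 : s0 ≤ s := by linarith
  have p1 : 0 ≤ 4 * F * (hi + |a| + 1) := by positivity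
  have p2 : 0 ≤ 2 ^ (J + 1) * (4 * K * F) / m := by positivity
  have p3 : 0 ≤ 4 * H + |a| + 1 := by positivity
  have p4 := abs_nonneg x0
  have hs1 : 1 ≤ s := by linarith
  have hsx0 : x0 ≤ s := by linarith [le_abs_self x0]
  have hsp : 0 < s := by linarith
  set ε := 2 * F / s with hε
  have hε0 : 0 ≤ ε := by positivity
  have e1 : ε * (hi + |a| + 1) ≤ 1 / 2 := by
    rw [hε, div_mul_eq_mul_div, div_le_iff₀ hsp]
    linarith
  have e2 : 2 ^ (J + 1) * (2 * K * ε) ≤ m := by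
    have h1 : 2 ^ (J + 1) * (2 * K * ε) = 2 ^ (J + 1) * (4 * K * F) / s := by
      rw [hε]; ring
    rw [h1, div_le_iff₀ hsp]
    have h2 : 2 ^ (J + 1) * (4 * K * F) / m ≤ s := by linarith
    rw [div_le_iff₀ hmp] at h2
    linarith
  have hfac : ∀ k : ℕ, k ≤ J → (k.factorial : ℝ) ≤ F := by
    intro k hk
    rw [hF]
    exact_mod_cast Nat.factorial_le hk
  have hψ : ∀ k i : ℕ, k + i ≤ J → |psi a k (s + i)| ≤ ε := by
    intro k i hki
    have hi0 : (0 : ℝ) ≤ i := Nat.cast_nonneg i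
    obtain ⟨h1, h2⟩ := hx0 (s + i) (by linarith) k (Finset.mem_range.mpr (by omega))
    have hsi : 1 ≤ s + i := by linarith
    have h3 : 0 ≤ (1 / 2) / (s + i) ^ (k + 1) := by positivity
    rw [abs_of_nonneg (by linarith)]
    refine h2.trans ?_
    rw [hε]
    apply div_le_div₀ (by positivity) (by linarith [hfac k (by omega)]) hsp
    calc s ≤ s + i := by linarith
      _ = (s + i) ^ 1 := (pow_one _).symm
      _ ≤ (s + i) ^ (k + 1) := pow_le_pow_right₀ hsi (by omega)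
  have hbb : ∀ k : ℕ, k ≤ J → (1 / 2) / s ^ (k + 1) ≤ psi a k s ∧
      psi a k s ≤ (2 * k.factorial : ℝ) / s ^ (k + 1) := by
    intro k hk
    exact hx0 s hsx0 k (Finset.mem_range.mpr (by omega))
  have hP : ∀ i : ℕ, i ≤ J → Stp b c (2 * Y) H ((Y : ℤ) + i, 1) ∧
      Stp b c (2 * Y) H (cj b ((Y : ℤ) + i, 1)) := by
    intro i hiJ
    have hi0 : (0 : ℝ) ≤ i := Nat.cast_nonneg i
    apply stp_pair b c ((Y : ℤ) + i) (2 * Y) H hH
    · push_cast
      rw [← ha]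
      linarith
    · rw [abs_of_nonneg (by positivity)]
      have h1 : b.natAbs + J + 1 ≤ Y := by omega
      have h2 : |b| = (b.natAbs : ℤ) := Int.abs_eq_natAbs b
      rw [h2]
      omega
  obtain ⟨l, y, g1, g2, g3, g4, g5⟩ := phases (b := b) (c := c) (φ := φ)
    (P := Stp b c (2 * Y) H) (lo := lo) (hi := hi) (xe := xe) (r := r) (ε := ε) (K := K) (c1 := c1)
    Y J hlo hxe hr hhi hK hc1 hc1p hε0 e1 (e2.trans (min_le_left _ _)) (e2.trans (min_le_right _ _))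
    hcj hP (fun i hiJ => hφ _ (hP i hiJ).1.1) hs1 (by linarith) (by linarith) hψ hbb A hA J le_rfl
  refine ⟨l, y, g1, g2, ?_, ?_⟩
  · have h1 := (hbb J le_rfl).2
    have hYp : (0 : ℝ) < Y := by linarith
    have h2 : (2 * J.factorial : ℝ) / s ^ (J + 1) ≤ (2 * F * 2 ^ (J + 1)) / (Y : ℝ) ^ (J + 1) := by
      rw [div_le_div_iff₀ (by positivity) (by positivity)]
      have h3 : (Y : ℝ) ≤ 2 * s := by linarith
      have h4 : (Y : ℝ) ^ (J + 1) ≤ 2 ^ (J + 1) * s ^ (J + 1) := by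
        rw [← mul_pow]
        exact pow_le_pow_left₀ hYp.le h3 _
      have h5 : 2 * F * (Y : ℝ) ^ (J + 1) ≤ 2 * F * (2 ^ (J + 1) * s ^ (J + 1)) :=
        mul_le_mul_of_nonneg_left h4 (by positivity)
      linarith
    have h6 : 2 * (psi a J s * K) ≤ 4 * K * F * 2 ^ (J + 1) / (Y : ℝ) ^ (J + 1) := by
      have h7 : psi a J s * K ≤ (2 * F * 2 ^ (J + 1)) / (Y : ℝ) ^ (J + 1) * K :=
        mul_le_mul_of_nonneg_right (h1.trans h2) hKp.le
      have h8 : (2 * F * 2 ^ (J + 1)) / (Y : ℝ) ^ (J + 1) * K =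
          (2 * K * F * 2 ^ (J + 1)) / (Y : ℝ) ^ (J + 1) := by ring
      rw [h8] at h7
      have h9 : 4 * K * F * 2 ^ (J + 1) / (Y : ℝ) ^ (J + 1) =
          2 * ((2 * K * F * 2 ^ (J + 1)) / (Y : ℝ) ^ (J + 1)) := by ring
      rw [h9]
      linarith
    have h10 : 4 * K * F * 2 ^ (J + 1) / (Y : ℝ) ^ (J + 1) ≤
        ((J + 1) * (A * 2 ^ (J + 2) + 1) + 4 * K * F * 2 ^ (J + 1) + 1) / (Y : ℝ) ^ (J + 1) := by
      apply div_le_div_of_nonneg_right _ (by positivity)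
      have : (0 : ℝ) ≤ (J + 1) * (A * 2 ^ (J + 2) + 1) := by positivity
      linarith
    linarith
  · refine g5.trans ?_
    have hYp : (0 : ℝ) ≤ Y := by linarith
    have h1 : (0 : ℝ) ≤ (4 * K * F * 2 ^ (J + 1) + 1) * Y := by positivity
    have h2 : ((J : ℝ) + 1) * ((A * 2 ^ (J + 2) + 1) * Y) =
        ((J + 1) * (A * 2 ^ (J + 2) + 1)) * Y := by ring
    rw [h2]
    linarith

end Pool.Agent.H304R2
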