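import Mathlib
import Pool.Agent.H304R2.Good

set_option autoImplicit false

open Finset

namespace Pool.Agent.H304R2

theorem card_diam_int (S : Finset ℤ) (R : ℝ) (hR : 0 ≤ R)
    (h : ∀ m ∈ S, ∀ m' ∈ S, |(m : ℝ) - m'| ≤ R) : (S.card : ℝ) ≤ R + 1 := by
  rcases S.eq_empty_or_nonempty with rfl | hne
  · simp; linarith
  · set m0 := S.min' hne with hm0
    have hsub : S ⊆ Icc m0 (m0 + ⌊R⌋) := by
      intro m hm
      rw [mem_Icc]
      refine ⟨S.min'_le m hm, ?_⟩
      have h1 := h m hm m0 (S.min'_mem hne)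
      have h2 : ((m - m0 : ℤ) : ℝ) ≤ R := by
        push_cast
        exact (le_abs_self _).trans h1
      have h3 : m - m0 ≤ ⌊R⌋ := Int.le_floor.mpr h2
      omega
    have h1 := card_le_card hsub
    rw [Int.card_Icc] at h1
    have h2 : 0 ≤ ⌊R⌋ := Int.floor_nonneg.mpr hR
    have h3 : ((S.card : ℕ) : ℤ) ≤ ⌊R⌋ + 1 := by omega
    have h4 : (S.card : ℝ) ≤ ((⌊R⌋ + 1 : ℤ) : ℝ) := by exact_mod_cast h3
    push_cast at h4
    have h5 := Int.floor_le R
    linarith

theorem card_diam (S : Finset ℕ) (R : ℝ) (hR : 0 ≤ R)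
    (h : ∀ m ∈ S, ∀ m' ∈ S, |(m : ℝ) - m'| ≤ R) : (S.card : ℝ) ≤ R + 1 := by
  have h1 := card_diam_int (S.map ⟨fun n : ℕ => (n : ℤ), Nat.cast_injective⟩) R hR (by
    intro m hm m' hm'
    rw [mem_map] at hm hm'
    obtain ⟨x, hx, rfl⟩ := hm
    obtain ⟨y, hy, rfl⟩ := hm'
    simpa using h x hx y hy)
  rwa [card_map] at h1

theorem bad_count (b : ℤ) (τ : ℕ → ℝ) (L1 : ℕ) (W X H : ℝ) (hX : 0 < X)
    (hWX : W * ((L1 : ℝ) + 1) = X) (hH : 0 ≤ H) (S : Finset ℕ)
    (hsep : ∀ m ∈ S, ∀ m' ∈ S, |(m : ℝ) - m'| / X ≤ |τ m - τ m'|)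
    (hτ : ∀ m ∈ S, 0 ≤ τ m ∧ τ m ≤ H)
    (hS : ∀ m ∈ S, ∃ (d : ℕ) (k : ℤ), 1 ≤ d ∧ (d : ℝ) < W ∧
      |τ m - sl b (k, (d : ℤ))| ≤ 1 / (((L1 : ℝ) + 1) * d)) :
    (S.card : ℝ) ≤ 3 * (H + 3) * W ^ 2 := by
  classical
  choose! d k hd1 hdW hdk using hS
  have hL1 : (0 : ℝ) < (L1 : ℝ) + 1 := by positivity
  have hW : 0 < W := by
    by_contra hc
    push Not at hc
    have : W * ((L1 : ℝ) + 1) ≤ 0 := mul_nonpos_of_nonpos_of_nonneg hc hL1.le
    linarith
  have key : ∀ d0 : ℕ, 1 ≤ d0 → ((S.filter (fun m => d m = d0)).card : ℝ) ≤ 3 * (H + 3) * W := by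
    intro d0 hd0
    have hd0' : (1 : ℝ) ≤ d0 := by exact_mod_cast hd0
    set Sd := S.filter (fun m => d m = d0) with hSd
    rcases Sd.eq_empty_or_nonempty with he | ⟨m1, hm1⟩
    · rw [he, card_empty]; push_cast; positivity
    have hd0W : (d0 : ℝ) < W := by
      rw [hSd, mem_filter] at hm1
      rw [← hm1.2]
      exact hdW m1 hm1.1
    have himg : ((Sd.image k).card : ℝ) ≤ (H + 3) * d0 := by
      have h1 := card_diam_int (Sd.image k) ((H + 2) * d0) (by positivity) (by
        intro x hx y hy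
        rw [mem_image] at hx hy
        obtain ⟨m, hm, rfl⟩ := hx
        obtain ⟨m', hm', rfl⟩ := hy
        rw [hSd, mem_filter] at hm hm'
        have e1 := hdk m hm.1
        have e2 := hdk m' hm'.1
        rw [hm.2] at e1
        rw [hm'.2] at e2
        have e3 : 1 / (((L1 : ℝ) + 1) * d0) ≤ 1 := by
          rw [div_le_one (by positivity)]
          have : (1 : ℝ) ≤ (L1 : ℝ) + 1 := by
            have : (0 : ℝ) ≤ L1 := Nat.cast_nonneg _
            linarith
          nlinarith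
        have t1 := hτ m hm.1
        have t2 := hτ m' hm'.1
        have e4 := abs_le.mp (e1.trans e3)
        have e5 := abs_le.mp (e2.trans e3)
        have e6 : |sl b (k m, (d0 : ℤ)) - sl b (k m', (d0 : ℤ))| ≤ H + 2 := by
          rw [abs_le]; constructor <;> linarith
        have e7 : sl b (k m, (d0 : ℤ)) - sl b (k m', (d0 : ℤ)) = ((k m : ℝ) - k m') / d0 := by
          unfold sl
          simp only [Int.cast_natCast]
          ring
        rw [e7, abs_div, abs_of_pos (by linarith : (0 : ℝ) < (d0 : ℝ)),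
          div_le_iff₀ (by linarith)] at e6
        exact e6)
      nlinarith
    have hfib : ∀ k0 ∈ Sd.image k, ((Sd.filter (fun m => k m = k0)).card : ℝ) ≤ 3 * W / d0 := by
      intro k0 _
      have h1 := card_diam (Sd.filter (fun m => k m = k0)) (2 * W / d0) (by positivity) (by
        intro m hm m' hm'
        rw [mem_filter, hSd, mem_filter] at hm hm'
        have e1 := hdk m hm.1.1
        have e2 := hdk m' hm'.1.1
        rw [hm.1.2, hm.2] at e1
        rw [hm'.1.2, hm'.2] at e2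
        have e3 := hsep m hm.1.1 m' hm'.1.1
        have e4 : |τ m - τ m'| ≤ 2 * (1 / (((L1 : ℝ) + 1) * d0)) := by
          rw [abs_le] at e1 e2 ⊢
          constructor <;> linarith
        have e5 := e3.trans e4
        rw [div_le_iff₀ hX] at e5
        refine e5.trans (le_of_eq ?_)
        rw [← hWX]
        field_simp)
      have h2 : (1 : ℝ) ≤ W / d0 := by
        rw [le_div_iff₀ (by linarith)]; linarith
      have h3 : 3 * W / (d0 : ℝ) = 2 * W / d0 + W / d0 := by ring
      rw [h3]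
      linarith
    have hcard := card_eq_sum_card_fiberwise (f := k) (s := Sd) (t := Sd.image k)
      (fun x hx => mem_coe.mpr (mem_image_of_mem k (mem_coe.mp hx)))
    have hcard' : (Sd.card : ℝ) = ∑ k0 ∈ Sd.image k, ((Sd.filter (fun m => k m = k0)).card : ℝ) := by
      rw [hcard]; push_cast; rfl
    rw [hcard']
    calc ∑ k0 ∈ Sd.image k, ((Sd.filter (fun m => k m = k0)).card : ℝ)
        ≤ ∑ k0 ∈ Sd.image k, (3 * W / d0) := sum_le_sum hfib
      _ = ((Sd.image k).card : ℝ) * (3 * W / d0) := by rw [sum_const, nsmul_eq_mul]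
      _ ≤ ((H + 3) * d0) * (3 * W / d0) := mul_le_mul_of_nonneg_right himg (by positivity)
      _ = 3 * (H + 3) * W := by field_simp
  have hcard := card_eq_sum_card_fiberwise (f := d) (s := S) (t := Icc 1 ⌊W⌋₊) (by
    intro m hm
    rw [mem_coe] at hm ⊢
    rw [mem_Icc]
    exact ⟨hd1 m hm, Nat.le_floor (hdW m hm).le⟩)
  have hcard' : (S.card : ℝ) = ∑ d0 ∈ Icc 1 ⌊W⌋₊, ((S.filter (fun m => d m = d0)).card : ℝ) := by
    rw [hcard]; push_cast; rfl
  rw [hcard']
  calc ∑ d0 ∈ Icc 1 ⌊W⌋₊, ((S.filter (fun m => d m = d0)).card : ℝ)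
      ≤ ∑ d0 ∈ Icc 1 ⌊W⌋₊, (3 * (H + 3) * W) :=
        sum_le_sum (fun d0 h0 => key d0 (mem_Icc.mp h0).1)
    _ = (⌊W⌋₊ : ℝ) * (3 * (H + 3) * W) := by
        rw [sum_const, nsmul_eq_mul, Nat.card_Icc]; simp
    _ ≤ W * (3 * (H + 3) * W) :=
        mul_le_mul_of_nonneg_right (Nat.floor_le hW.le) (by positivity)
    _ = 3 * (H + 3) * W ^ 2 := by ring

/-- abstract counting -/
theorem count_core {E0 : Type*} (M : ℕ) (l : List ℝ) (R : ℕ → ℝ → E0 → Prop)
    (bad : ℕ → ℝ → Prop) (β : ℝ)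
    (hgood : ∀ m < M, (∀ x ∈ l, ¬ bad m x) → ∃ x ∈ l, ∃ e, R m x e)
    (hbad : ∀ x ∈ l, ∀ S : Finset ℕ, (∀ m ∈ S, m < M ∧ bad m x) → (S.card : ℝ) ≤ β)
    (hinj : ∀ m < M, ∀ m' < M, ∀ x ∈ l, ∀ e, R m x e → R m' x e → m = m') :
    ∃ E : Finset E0, (∀ e ∈ E, ∃ m < M, ∃ x ∈ l, R m x e) ∧
      (M : ℝ) ≤ l.length * β + l.length * E.card := by
  classical
  have hgood' : ∀ m : ℕ, ∃ (x : ℝ) (e : Option E0), m < M → (∀ x ∈ l, ¬ bad m x) →
      x ∈ l ∧ ∃ e', e = some e' ∧ R m x e' := by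
    intro m
    by_cases h : m < M ∧ (∀ x ∈ l, ¬ bad m x)
    · obtain ⟨x, hx, e, he⟩ := hgood m h.1 h.2
      exact ⟨x, some e, fun _ _ => ⟨hx, e, rfl, he⟩⟩
    · exact ⟨0, none, fun h1 h2 => absurd ⟨h1, h2⟩ h⟩
  choose X0 e0 h0 using hgood'
  set G := (range M).filter (fun m => ∀ x ∈ l, ¬ bad m x) with hG
  set E := G.biUnion (fun m => (e0 m).toFinset) with hE
  refine ⟨E, ?_, ?_⟩
  · intro e he
    rw [hE, mem_biUnion] at he
    obtain ⟨m, hm, he⟩ := he
    rw [hG, mem_filter, mem_range] at hm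
    obtain ⟨h1, e', h2, h3⟩ := h0 m hm.1 hm.2
    rw [h2, Option.toFinset_some, mem_singleton] at he
    exact ⟨m, hm.1, X0 m, h1, he ▸ h3⟩
  · have h1 : M ≤ ((range M).filter (fun m => ¬ ∀ x ∈ l, ¬ bad m x)).card + G.card := by
      have := card_filter_add_card_filter_not (s := range M) (fun m => ∀ x ∈ l, ¬ bad m x)
      rw [card_range, ← hG] at this
      exact le_of_eq (by rw [add_comm]; exact this.symm)
    have h2 : ((((range M).filter (fun m => ¬ ∀ x ∈ l, ¬ bad m x)).card : ℕ) : ℝ) ≤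
        l.length * β := by
      have hβ : l ≠ [] → 0 ≤ β := by
        intro hl
        obtain ⟨x, hx⟩ := List.exists_mem_of_ne_nil l hl
        have := hbad x hx ∅ (by simp)
        simpa using this
      have hsub : (range M).filter (fun m => ¬ ∀ x ∈ l, ¬ bad m x) ⊆
          l.toFinset.biUnion (fun x => (range M).filter (fun m => bad m x)) := by
        intro m hm
        rw [mem_filter] at hm
        obtain ⟨h3, h4⟩ := hm
        push Not at h4
        obtain ⟨x, hx, hb⟩ := h4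
        rw [mem_biUnion]
        exact ⟨x, List.mem_toFinset.mpr hx, by rw [mem_filter]; exact ⟨h3, hb⟩⟩
      have h3 := (card_le_card hsub).trans card_biUnion_le
      have h4 : (((∑ x ∈ l.toFinset, ((range M).filter (fun m => bad m x)).card : ℕ)) : ℝ) ≤
          ∑ x ∈ l.toFinset, β := by
        push_cast
        apply sum_le_sum
        intro x hx
        apply hbad x (List.mem_toFinset.mp hx)
        intro m hm
        rw [mem_filter, mem_range] at hm
        exact hm
      rw [sum_const, nsmul_eq_mul] at h4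
      refine le_trans (by exact_mod_cast h3) (h4.trans ?_)
      rcases eq_or_ne l [] with hl | hl
      · rw [hl]; simp
      · exact mul_le_mul_of_nonneg_right (by exact_mod_cast List.toFinset_card_le l) (hβ hl)
    have h3 : G.card ≤ l.toFinset.card * E.card := by
      have hinjG : Set.InjOn (fun m => (X0 m, e0 m)) (G : Set ℕ) := by
        intro m hm m' hm' heq
        rw [mem_coe, hG, mem_filter, mem_range] at hm hm'
        obtain ⟨h1, e', h2, h3⟩ := h0 m hm.1 hm.2
        obtain ⟨h1', e'', h2', h3'⟩ := h0 m' hm'.1 hm'.2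
        simp only [Prod.mk.injEq] at heq
        rw [h2, h2'] at heq
        have h4 : e' = e'' := Option.some.inj heq.2
        rw [← h4, ← heq.1] at h3'
        exact hinj m hm.1 m' hm'.1 _ h1 _ h3 h3'
      have hmaps : ∀ m ∈ G, (fun m => (X0 m, e0 m)) m ∈ l.toFinset ×ˢ (E.map Function.Embedding.some) := by
        intro m hm
        have hm' := hm
        rw [hG, mem_filter, mem_range] at hm'
        obtain ⟨h1, e', h2, h3⟩ := h0 m hm'.1 hm'.2
        rw [mem_product]
        refine ⟨List.mem_toFinset.mpr h1, ?_⟩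
        simp only [mem_map, Function.Embedding.some_apply]
        refine ⟨e', ?_, h2.symm⟩
        rw [hE, mem_biUnion]
        exact ⟨m, hm, by rw [h2]; simp⟩
      have := card_le_card_of_injOn _ hmaps hinjG
      rwa [card_product, card_map] at this
    have h4 : (G.card : ℝ) ≤ l.length * E.card := by
      have : G.card ≤ l.length * E.card := h3.trans (Nat.mul_le_mul_right _ (List.toFinset_card_le l))
      exact_mod_cast this
    have h5 : (M : ℝ) ≤ ((((range M).filter (fun m => ¬ ∀ x ∈ l, ¬ bad m x)).card : ℕ) : ℝ) +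
        G.card := by exact_mod_cast h1
    linarith

end Pool.Agent.H304R2
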