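import Mathlib
import Pool.Agent.H304R2.Bad

set_option autoImplicit false

open Finset

namespace Pool.Agent.H304R2

theorem exists_below (z a : ℝ) (hz : 0 < z) (hza : 0 < z ^ 2 + a) :
    ∃ z' : ℝ, 0 < z' ∧ z' < z ∧ 0 < z' ^ 2 + a := by
  set t := min (z / 2) ((z ^ 2 + a) / (4 * z)) with ht
  have h1 : 0 < t := lt_min (by linarith) (by positivity)
  have h2 : t ≤ z / 2 := min_le_left _ _
  have h3 : t ≤ (z ^ 2 + a) / (4 * z) := min_le_right _ _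
  rw [le_div_iff₀ (by positivity)] at h3
  refine ⟨z - t, by linarith, by linarith, ?_⟩
  nlinarith

theorem params (b c : ℤ) (α : ℤ × ℤ) (hαN : 0 < Nm b c α) (hα2 : 0 < α.2) (hαp : 0 < tp b α) :
    ∃ r lo lo' : ℝ, 2 + |aa b c| ≤ r ∧ 0 < lo' ∧ lo' < lo ∧ 0 < lo' ^ 2 + aa b c ∧
      0 < lo ^ 2 + aa b c ∧ lo < Mt b c α r ∧ Mt b c α r < r := by
  set a := aa b c with ha
  have ha' : (c : ℝ) - (b : ℝ) ^ 2 / 4 = a := rfl
  have hN : (Nm b c α : ℝ) = tp b α ^ 2 + a * (α.2 : ℝ) ^ 2 := by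
    rw [ha]; unfold Nm tp aa; push_cast; ring
  set p := tp b α with hp
  set q : ℝ := (α.2 : ℝ) with hq
  have hq0 : 0 < q := by rw [hq]; exact_mod_cast hα2
  have hNp : (0 : ℝ) < Nm b c α := by exact_mod_cast hαN
  rw [hN] at hNp
  have ha0 := abs_nonneg a
  have ha1 := le_abs_self a
  obtain ⟨r, hr1, hpr⟩ : ∃ r : ℝ, 2 + |a| ≤ r ∧ |a| * q < p * r := by
    refine ⟨2 + |a| + |a| * q / p, ?_, ?_⟩
    · have : 0 ≤ |a| * q / p := by positivity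
      linarith
    · have e : p * (2 + |a| + |a| * q / p) = p * (2 + |a|) + |a| * q := by field_simp
      rw [e]
      have : 0 < p * (2 + |a|) := by positivity
      linarith
  have hra := ra_pos hr1
  have hr0 : 0 < r := by linarith
  have hxe' : Mt b c α r = (p * r - a * q) / (q * r + p) := rfl
  have hden : 0 < q * r + p := by positivity
  have hxe0 : 0 < (p * r - a * q) / (q * r + p) := by
    apply div_pos _ hden
    have : a * q ≤ |a| * q := mul_le_mul_of_nonneg_right ha1 hq0.le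
    linarith
  have hxer : (p * r - a * q) / (q * r + p) < r := by
    rw [div_lt_iff₀ hden]
    have : 0 < q * (r ^ 2 + a) := by positivity
    nlinarith
  have hxea : 0 < ((p * r - a * q) / (q * r + p)) ^ 2 + a := by
    have e : ((p * r - a * q) / (q * r + p)) ^ 2 + a =
        (r ^ 2 + a) * (p ^ 2 + a * q ^ 2) / (q * r + p) ^ 2 := by
      field_simp
      ring
    rw [e]
    positivity
  obtain ⟨lo, hlo0, hloxe, hloa⟩ := exists_below _ a hxe0 hxea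
  obtain ⟨lo', hlo'0, hlo'lo, hlo'a⟩ := exists_below lo a hlo0 hloa
  exact ⟨r, lo, lo', hr1, hlo'0, hlo'lo, hlo'a, hloa, hxe' ▸ hloxe, hxe' ▸ hxer⟩

/-- one good starting point -/
theorem step_good {b c : ℤ} {φ : ℤ × ℤ → ℤ}
    (hs : ∀ (g : ℤ) (v : ℤ × ℤ), 0 < g → v ≠ 0 → φ (g * v.1, g * v.2) = φ v)
    (hm : ∀ t v, 0 < Nm b c t → 0 < v.2 → φ (mu b c t v) = φ t * φ v)
    (h1 : ∀ v : ℤ × ℤ, 0 < v.2 → φ v = 1 ∨ φ v = -1)
    {α : ℤ × ℤ} (hα : φ α = -1) (hαN : 0 < Nm b c α) (hα2 : 0 < α.2) (hαp : 0 < tp b α)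
    {r lo H : ℝ} (hr1 : 2 + |aa b c| ≤ r) (hlo0 : 0 < lo) (hloa : 0 < lo ^ 2 + aa b c)
    (hH : H = (r + 1) + ((r + 1) ^ 2 + |aa b c|) + 1)
    {T : ℤ} {l : List ℝ} {y : ℝ} (g1 : Reach b c φ (Stp b c T H) lo (r + 1) l r y 1)
    (hxr : Mt b c α r ≤ r + 1)
    {X C5 κ C6 : ℝ} (hX1 : 1 ≤ X) (hδlo : 1 / X ≤ lo)
    (hκ : (Nm b c α : ℝ) / tp b α ^ 2 ≤ κ) (hκ0 : 0 ≤ κ) (hC6 : 0 ≤ C6)
    (hy : |Mt b c α r - y| ≤ C6 / X)
    (hC5 : 2 + κ + 4 * ((r + 1) ^ 2 + |aa b c|) * C6 ≤ C5)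
    {L1 : ℕ} (hL1 : 0 < L1) {W : ℝ} (hW0 : 0 < W) (hWX : W * ((L1 : ℝ) + 1) = X)
    {L2 L : ℤ} (hB : (H + |(b : ℝ)| + 1) * L1 ≤ L2)
    (hL : (T + (|b| + |c| + 1) * 1) * L2 ≤ L) (hL' : L2 ≤ L)
    (hLα : ((|α.1| + |α.2|) + (|b| + |c| + 1) * |α.2|) * L2 ≤ L)
    {r' : ℝ} (hr' : r ≤ r') (hr'2 : r' ≤ r + 1)
    (hgood : ∀ x ∈ l, ¬ ∃ (d : ℕ) (k : ℤ), 1 ≤ d ∧ (d : ℝ) < W ∧
      |Tt (aa b c) r r' x - sl b (k, (d : ℤ))| ≤ 1 / (((L1 : ℝ) + 1) * d)) :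
    ∃ x ∈ l, ∃ e : (ℤ × ℤ) × (ℤ × ℤ), SE b φ L (C5 / X) (Tt (aa b c) r r' x) e.1 e.2 := by
  have hX0 : 0 < X := by linarith
  have hδ1 : 1 / X ≤ 1 := by rw [div_le_one hX0]; exact hX1
  have hδ0 : 0 < 1 / X := by positivity
  have ha0 := abs_nonneg (aa b c)
  have hsq : 0 ≤ (r + 1) ^ 2 + |aa b c| := by positivity
  have hTb : ∀ z, lo ≤ z → z ≤ r + 1 →
      z ≤ Tt (aa b c) r r' z ∧ Tt (aa b c) r r' z ≤ (r + 1) + ((r + 1) ^ 2 + |aa b c|) :=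
    fun z hz1 hz2 => Tt_bounds hr1 hlo0 hloa hz1 hz2 le_rfl hr' hr'2
  have hDne : ∀ z, lo ≤ z → z ≤ r + 1 → Dn (aa b c) r r' z ≠ 0 := by
    intro z hz1 hz2
    have h2 := Dn_lower (a := aa b c) (x := z) hr1 hz2 hr' hr'2
    have h3 := ra_pos hr1
    have : 0 < Dn (aa b c) r r' z := by linarith
    exact this.ne'
  have hA : ∀ x : ℝ, ∃ v : ℤ × ℤ, x ∈ l → Ap b L2 (1 / X) (Tt (aa b c) r r' x) v := by
    intro x
    by_cases hx : x ∈ l
    · have hxb := g1.bounds x hx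
      have hT := hTb x hxb.1 hxb.2
      rcases dirichlet b (Tt (aa b c) r r' x) W L1 hL1 (H + |(b : ℝ)| + 1) (by
          rw [abs_of_nonneg (by linarith)]
          linarith) L2 hB (1 / X) (by rw [mul_comm, hWX]) hW0 with h | h
      · obtain ⟨v, hv⟩ := h
        exact ⟨v, fun _ => hv⟩
      · exact absurd h (hgood x hx)
    · exact ⟨(0, 1), fun h => absurd h hx⟩
  choose A hA using hA
  have hyb := g1.bounds y g1.mem.2
  have hlip := Tt_lip (a := aa b c) (r := r) (r' := r') (x := Mt b c α r) (y := y) (lo := lo)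
    (hi := r + 1) hr1 hlo0 hxr hyb.2 le_rfl hr' hr'2
  have hlip2 : |Tt (aa b c) r r' (Mt b c α r) - Tt (aa b c) r r' y| ≤
      4 * ((r + 1) ^ 2 + |aa b c|) * C6 * (1 / X) := by
    refine hlip.trans ?_
    rw [mul_assoc (4 * ((r + 1) ^ 2 + |aa b c|)), mul_one_div]
    exact mul_le_mul_of_nonneg_left hy (by positivity)
  have hCC : 0 ≤ 4 * ((r + 1) ^ 2 + |aa b c|) * C6 := by positivity
  have hC5X : C5 / X = C5 * (1 / X) := by ring
  obtain ⟨z, hz, v, w, hh⟩ := good_edge (b := b) (c := c) (φ := φ) (T := T) (L2 := L2)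
    (L := L) (H := H) (lo := lo) (hi := r + 1) (r := r) (r' := r') (δ := 1 / X) (δ' := C5 / X)
    (κ := κ) hs hm h1 hL hL' hδ0.le hlo0.le (by linarith)
    (fun z hz1 hz2 => ⟨by linarith [(hTb z hz1 hz2).1], by linarith [(hTb z hz1 hz2).2]⟩)
    hDne (by have := ra_pos hr1; linarith) α hα hαN hα2 hαp hLα hκ
    (by
      rw [hC5X]
      exact mul_le_mul_of_nonneg_right (by linarith) hδ0.le)
    A (l := l) (y := y) g1
    (by
      rw [hC5X]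
      have h2 : (2 + κ + 4 * ((r + 1) ^ 2 + |aa b c|) * C6) * (1 / X) ≤ C5 * (1 / X) :=
        mul_le_mul_of_nonneg_right hC5 hδ0.le
      linarith) (fun z hz => hA z hz)
  exact ⟨z, hz, (v, w), hh⟩

theorem step_edges {b c : ℤ} {φ : ℤ × ℤ → ℤ}
    (hs : ∀ (g : ℤ) (v : ℤ × ℤ), 0 < g → v ≠ 0 → φ (g * v.1, g * v.2) = φ v)
    (hm : ∀ t v, 0 < Nm b c t → 0 < v.2 → φ (mu b c t v) = φ t * φ v)
    (h1 : ∀ v : ℤ × ℤ, 0 < v.2 → φ v = 1 ∨ φ v = -1)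
    {α : ℤ × ℤ} (hα : φ α = -1) (hαN : 0 < Nm b c α) (hα2 : 0 < α.2) (hαp : 0 < tp b α)
    {r lo H : ℝ} (hr1 : 2 + |aa b c| ≤ r) (hlo0 : 0 < lo) (hloa : 0 < lo ^ 2 + aa b c)
    (hH : H = (r + 1) + ((r + 1) ^ 2 + |aa b c|) + 1)
    {T : ℤ} {l : List ℝ} {y : ℝ} (g1 : Reach b c φ (Stp b c T H) lo (r + 1) l r y 1)
    (hxr : Mt b c α r ≤ r + 1)
    {X C5 κ C6 K : ℝ} (hX1 : 1 ≤ X) (hδlo : 1 / X ≤ lo)
    (hκ : (Nm b c α : ℝ) / tp b α ^ 2 ≤ κ) (hκ0 : 0 ≤ κ) (hC6 : 0 ≤ C6)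
    (hy : |Mt b c α r - y| ≤ C6 / X)
    (hC5 : 2 + κ + 4 * ((r + 1) ^ 2 + |aa b c|) * C6 ≤ C5)
    (hK0 : 0 < K) (hK : (lo ^ 2 + aa b c) / (4 * (r ^ 2 + aa b c)) * K = 2 * C5 + 1)
    {L1 : ℕ} (hL1 : 0 < L1) {W : ℝ} (hW0 : 0 < W) (hWX : W * ((L1 : ℝ) + 1) = X)
    {L2 L : ℤ} (hB : (H + |(b : ℝ)| + 1) * L1 ≤ L2)
    (hL : (T + (|b| + |c| + 1) * 1) * L2 ≤ L) (hL' : L2 ≤ L)
    (hLα : ((|α.1| + |α.2|) + (|b| + |c| + 1) * |α.2|) * L2 ≤ L)
    {M : ℕ} (hM : (M : ℝ) ≤ X / K) :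
    ∃ E : Finset ((ℤ × ℤ) × (ℤ × ℤ)),
      (∀ e ∈ E, ∃ τ : ℝ, lo ≤ τ ∧ τ + 1 ≤ H ∧ SE b φ L (C5 / X) τ e.1 e.2) ∧
      (M : ℝ) ≤ l.length * (3 * (H + 3) * W ^ 2) + l.length * E.card := by
  have hX0 : 0 < X := by linarith
  have ha0 := abs_nonneg (aa b c)
  have hr0 : 0 < r := by linarith
  have hH0 : 0 ≤ H := by rw [hH]; positivity
  have hC50 : 0 < C5 := by
    have : 0 ≤ 4 * ((r + 1) ^ 2 + |aa b c|) * C6 := by positivity
    linarith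
  have hrr1 : ∀ m : ℕ, r ≤ r + m * (K / X) := by
    intro m
    have : 0 ≤ (m : ℝ) * (K / X) := by positivity
    linarith
  have hrr2 : ∀ m : ℕ, m < M → r + m * (K / X) ≤ r + 1 := by
    intro m hm'
    have h2 : (m : ℝ) ≤ X / K := by
      have : (m : ℝ) ≤ M := by exact_mod_cast hm'.le
      linarith
    have h3 : (m : ℝ) * (K / X) ≤ (X / K) * (K / X) := mul_le_mul_of_nonneg_right h2 (by positivity)
    have h4 : (X / K) * (K / X) = 1 := by field_simp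
    linarith
  have hsep : ∀ m < M, ∀ m' < M, ∀ x ∈ l,
      (2 * C5 + 1) * |(m : ℝ) - m'| / X ≤
        |Tt (aa b c) r (r + m * (K / X)) x - Tt (aa b c) r (r + m' * (K / X)) x| := by
    intro m hm1 m' hm1' x hx
    have hxb := g1.bounds x hx
    have h2 := Tt_sep (a := aa b c) (r := r) (r' := r + m * (K / X)) (r'' := r + m' * (K / X))
      (x := x) (lo := lo) (hi := r + 1)
      hr1 hlo0 hloa hxb.1 hxb.2 le_rfl (hrr1 m) (hrr2 m hm1) (hrr1 m') (hrr2 m' hm1')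
    refine le_trans (le_of_eq ?_) h2
    have e : r + m * (K / X) - (r + m' * (K / X)) = ((m : ℝ) - m') * (K / X) := by ring
    rw [e, abs_mul, abs_of_pos (by positivity : 0 < K / X), ← hK]
    ring
  have hTb : ∀ m < M, ∀ z ∈ l, lo ≤ Tt (aa b c) r (r + m * (K / X)) z ∧
      Tt (aa b c) r (r + m * (K / X)) z + 1 ≤ H := by
    intro m hm1 z hz
    have hzb := g1.bounds z hz
    have := Tt_bounds (a := aa b c) (r := r) (r' := r + m * (K / X)) hr1 hlo0 hloa hzb.1 hzb.2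
      le_rfl (hrr1 m) (hrr2 m hm1)
    constructor
    · linarith [this.1]
    · rw [hH]; linarith [this.2]
  obtain ⟨E, hE1, hE2⟩ := count_core (E0 := (ℤ × ℤ) × (ℤ × ℤ)) M l
    (fun m x e => SE b φ L (C5 / X) (Tt (aa b c) r (r + m * (K / X)) x) e.1 e.2)
    (fun m x => ∃ (d : ℕ) (k : ℤ), 1 ≤ d ∧ (d : ℝ) < W ∧
      |Tt (aa b c) r (r + m * (K / X)) x - sl b (k, (d : ℤ))| ≤ 1 / (((L1 : ℝ) + 1) * d))
    (3 * (H + 3) * W ^ 2)
    (fun m hmM hgood => step_good hs hm h1 hα hαN hα2 hαp hr1 hlo0 hloa hH g1 hxr hX1 hδlo hκ hκ0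
      hC6 hy hC5 hL1 hW0 hWX hB hL hL' hLα (hrr1 m) (hrr2 m hmM) hgood)
    (by
      intro x hx S hS
      apply bad_count b (fun m => Tt (aa b c) r (r + m * (K / X)) x) L1 W X H hX0 hWX hH0 S
      · intro m hmS m' hmS'
        refine le_trans ?_ (hsep m (hS m hmS).1 m' (hS m' hmS').1 x hx)
        apply div_le_div_of_nonneg_right _ hX0.le
        have h2 := abs_nonneg ((m : ℝ) - m')
        have h3 : 1 * |(m : ℝ) - m'| ≤ (2 * C5 + 1) * |(m : ℝ) - m'| :=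
          mul_le_mul_of_nonneg_right (by linarith) h2
        rwa [one_mul] at h3
      · intro m hmS
        have := hTb m (hS m hmS).1 x hx
        constructor
        · linarith [this.1]
        · linarith [this.2]
      · intro m hmS
        exact (hS m hmS).2)
    (by
      intro m hmM m' hmM' x hx e he he'
      obtain ⟨-, -, -, -, -, e1, -⟩ := he
      obtain ⟨-, -, -, -, -, e2, -⟩ := he'
      have h2 := hsep m hmM m' hmM' x hx
      have h3 : |Tt (aa b c) r (r + m * (K / X)) x - Tt (aa b c) r (r + m' * (K / X)) x| ≤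
          2 * C5 / X := by
        have e : 2 * C5 / X = C5 / X + C5 / X := by ring
        rw [e]
        rw [abs_le] at e1 e2 ⊢
        constructor <;> linarith
      have h4 := h2.trans h3
      rw [div_le_div_iff_of_pos_right hX0] at h4
      by_contra hne
      have h5 : 1 ≤ |(m : ℝ) - m'| := by
        have : (1 : ℤ) ≤ |(m : ℤ) - m'| := by
          apply Int.one_le_abs
          omega
        have h6 : ((1 : ℤ) : ℝ) ≤ ((|(m : ℤ) - m'| : ℤ) : ℝ) := by exact_mod_cast this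
        push_cast at h6
        exact h6
      have h6 : (2 * C5 + 1) * 1 ≤ (2 * C5 + 1) * |(m : ℝ) - m'| :=
        mul_le_mul_of_nonneg_left h5 (by linarith)
      linarith)
  refine ⟨E, ?_, hE2⟩
  intro e he
  obtain ⟨m, hmM, x, hx, h2⟩ := hE1 e he
  exact ⟨_, (hTb m hmM x hx).1, (hTb m hmM x hx).2, h2⟩

end Pool.Agent.H304R2
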