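import Mathlib
import Pool.Agent.H304R2.Step
import Pool.Agent.H304R2.Chain3

set_option autoImplicit false

open Finset

namespace Pool.Agent.H304R2

theorem arith_L (Y G BB : ℝ) (hY : 1 ≤ Y) (hG : 0 ≤ G) (hBB : 0 < BB) (j : ℕ) :
    (2 * Y + G) * (BB * Y ^ (j + 2)) ≤ ((2 + G) * BB) * Y ^ (j + 3) := by
  have e : ((2 + G) * BB) * Y ^ (j + 3) = ((2 + G) * Y) * (BB * Y ^ (j + 2)) := by
    rw [show j + 3 = (j + 2) + 1 by omega, pow_succ]; ring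
  rw [e]
  apply mul_le_mul_of_nonneg_right _ (by positivity)
  nlinarith

theorem arith_W (Y W : ℝ) (hY : 1 ≤ Y) (j : ℕ) (hW : 0 < W)
    (h : W * (Y ^ (j + 2) + 1) = Y ^ (2 * j + 2)) : W ≤ Y ^ j := by
  have e : Y ^ (2 * j + 2) = Y ^ j * Y ^ (j + 2) := by rw [← pow_add]; congr 1; omega
  rw [e] at h
  have h1 : 0 < Y ^ (j + 2) := by positivity
  have h2 : W * Y ^ (j + 2) ≤ Y ^ j * Y ^ (j + 2) := by
    rw [← h]
    have : W * (Y ^ (j + 2) + 1) = W * Y ^ (j + 2) + W := by ring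
    linarith
  exact le_of_mul_le_mul_right h2 h1

theorem arith_count (Y M len W E K C1 H : ℝ) (j : ℕ) (hY : 1 ≤ Y) (hK : 0 < K) (hC1 : 0 < C1)
    (hH : 0 ≤ H) (hE : 0 ≤ E) (hW0 : 0 ≤ W) (hW : W ≤ Y ^ j) (hlen : len ≤ C1 * Y)
    (hM : Y ^ (2 * j + 2) / K - 1 ≤ M)
    (h : M ≤ len * (3 * (H + 3) * W ^ 2) + len * E)
    (hY1 : 4 * K ≤ Y) (hY2 : 12 * C1 * K * (H + 3) ≤ Y) :
    1 / (2 * K * C1) * Y ^ (2 * j + 1) ≤ E := by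
  have hβ : 3 * (H + 3) * W ^ 2 ≤ 3 * (H + 3) * Y ^ (2 * j) := by
    apply mul_le_mul_of_nonneg_left _ (by positivity)
    rw [show 2 * j = j * 2 by ring, pow_mul]
    exact pow_le_pow_left₀ hW0 hW 2
  have hY0 : 0 < Y := by linarith
  have e1 : len * (3 * (H + 3) * W ^ 2) ≤ (C1 * Y) * (3 * (H + 3) * Y ^ (2 * j)) := by
    calc len * (3 * (H + 3) * W ^ 2) ≤ (C1 * Y) * (3 * (H + 3) * W ^ 2) :=
          mul_le_mul_of_nonneg_right hlen (by positivity)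
      _ ≤ _ := mul_le_mul_of_nonneg_left hβ (by positivity)
  have e2 : len * E ≤ (C1 * Y) * E := mul_le_mul_of_nonneg_right hlen hE
  have e4 : Y ^ (2 * j + 2) = Y * (Y * Y ^ (2 * j)) := by rw [pow_add]; ring
  have e3 : (C1 * Y) * (3 * (H + 3) * Y ^ (2 * j)) ≤ Y ^ (2 * j + 2) / (4 * K) := by
    rw [le_div_iff₀ (by positivity)]
    have e5 : (C1 * Y) * (3 * (H + 3) * Y ^ (2 * j)) * (4 * K) =
        (12 * C1 * K * (H + 3)) * (Y * Y ^ (2 * j)) := by ring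
    rw [e4, e5]
    exact mul_le_mul_of_nonneg_right hY2 (by positivity)
  have hXY : Y ≤ Y ^ (2 * j + 2) := by
    calc Y = Y ^ 1 := (pow_one _).symm
      _ ≤ Y ^ (2 * j + 2) := pow_le_pow_right₀ hY (by omega)
  have e6 : 1 ≤ Y ^ (2 * j + 2) / (4 * K) := by
    rw [le_div_iff₀ (by positivity)]
    linarith
  have e7 : Y ^ (2 * j + 2) / K = 4 * (Y ^ (2 * j + 2) / (4 * K)) := by field_simp
  have e8 : 2 * (Y ^ (2 * j + 2) / (4 * K)) ≤ C1 * Y * E := by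
    rw [e7] at hM
    linarith
  have e9 : Y ^ (2 * j + 2) = Y * Y ^ (2 * j + 1) := by
    rw [show 2 * j + 2 = (2 * j + 1) + 1 by ring, pow_succ]; ring
  have e10 : 2 * (Y ^ (2 * j + 2) / (4 * K)) = C1 * Y * (1 / (2 * K * C1) * Y ^ (2 * j + 1)) := by
    rw [e9]; field_simp; ring
  rw [e10] at e8
  exact le_of_mul_le_mul_left e8 (by positivity)

theorem many_edges (b c : ℤ) (α : ℤ × ℤ) (hαN : 0 < Nm b c α) (hα2 : 0 < α.2)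
    (hαp : 0 < tp b α) (j : ℕ) :
    ∃ lo H C c0 : ℝ, 0 < lo ∧ 0 < lo ^ 2 + aa b c ∧ 0 < C ∧ 0 < c0 ∧ ∃ Y0 : ℕ, ∀ Y : ℕ, Y0 ≤ Y →
      ∀ φ : ℤ × ℤ → ℤ,
      (∀ (g : ℤ) (v : ℤ × ℤ), 0 < g → v ≠ 0 → φ (g * v.1, g * v.2) = φ v) →
      (∀ t v, 0 < Nm b c t → 0 < v.2 → φ (mu b c t v) = φ t * φ v) →
      (∀ v : ℤ × ℤ, 0 < v.2 → φ v = 1 ∨ φ v = -1) →
      (∀ t, φ (cj b t) = φ t) →
      (∀ t, 0 < Nm b c t → φ t = 1 ∨ φ t = -1) →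
      φ α = -1 →
      ∃ E : Finset ((ℤ × ℤ) × (ℤ × ℤ)), c0 * (Y : ℝ) ^ (2 * j + 1) ≤ E.card ∧
        ∀ e ∈ E, dt e.1 e.2 = 1 ∧ φ e.1 ≠ φ e.2 ∧ 0 < e.1.2 ∧ 0 < e.2.2 ∧
          (((|e.1.1| : ℤ) : ℝ) ≤ C * (Y : ℝ) ^ (j + 3) ∧ ((|e.1.2| : ℤ) : ℝ) ≤ C * (Y : ℝ) ^ (j + 3) ∧
           ((|e.2.1| : ℤ) : ℝ) ≤ C * (Y : ℝ) ^ (j + 3) ∧ ((|e.2.2| : ℤ) : ℝ) ≤ C * (Y : ℝ) ^ (j + 3)) ∧
          (lo ≤ sl b e.1 ∧ sl b e.1 ≤ H) ∧ (lo ≤ sl b e.2 ∧ sl b e.2 ≤ H) := by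
  obtain ⟨r, lo, lo', hr1, hlo'0, hlo'lo, hlo'a, hloa, hloxe, hxer⟩ := params b c α hαN hα2 hαp
  have hlo0 : 0 < lo := by linarith
  have ha0 := abs_nonneg (aa b c)
  have hra := ra_pos hr1
  have hr0 : 0 < r := by linarith
  obtain ⟨H, hH⟩ : ∃ H : ℝ, H = (r + 1) + ((r + 1) ^ 2 + |aa b c|) + 1 := ⟨_, rfl⟩
  have hH0 : 0 ≤ H := by rw [hH]; positivity
  obtain ⟨C1, hC1, Y1, hch⟩ := chain_exists b c lo (Mt b c α r) r (r + 1) H (2 * j + 1) hlo0 hloxe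
    hxer (by linarith) hloa hH0
  have hNp : (0 : ℝ) < Nm b c α := by exact_mod_cast hαN
  obtain ⟨κ, hκ⟩ : ∃ κ : ℝ, κ = (Nm b c α : ℝ) / tp b α ^ 2 := ⟨_, rfl⟩
  have hκ0 : 0 ≤ κ := by rw [hκ]; positivity
  obtain ⟨C5, hC5⟩ : ∃ C5 : ℝ, C5 = 2 + κ + 4 * ((r + 1) ^ 2 + |aa b c|) * C1 := ⟨_, rfl⟩
  have hC50 : 0 < C5 := by rw [hC5]; positivity
  obtain ⟨K, hK0, hK⟩ : ∃ K : ℝ, 0 < K ∧
      (lo ^ 2 + aa b c) / (4 * (r ^ 2 + aa b c)) * K = 2 * C5 + 1 := by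
    have hc2 : 0 < (lo ^ 2 + aa b c) / (4 * (r ^ 2 + aa b c)) := by
      apply div_pos hloa; linarith
    refine ⟨(2 * C5 + 1) / ((lo ^ 2 + aa b c) / (4 * (r ^ 2 + aa b c))), by positivity, ?_⟩
    rw [mul_div_cancel₀ _ hc2.ne']
  obtain ⟨BB, hBB⟩ : ∃ BB : ℤ, BB = ⌈H + |(b : ℝ)| + 1⌉ := ⟨_, rfl⟩
  have hBB' : H + |(b : ℝ)| + 1 ≤ BB := by rw [hBB]; exact Int.le_ceil _
  have hBBr : (0 : ℝ) < BB := by
    have := abs_nonneg (b : ℝ)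
    linarith
  have hBB0 : 0 < BB := by exact_mod_cast hBBr
  obtain ⟨G, hG⟩ : ∃ G : ℤ, G = (|b| + |c| + 1) * 1 + (|α.1| + |α.2|) + (|b| + |c| + 1) * |α.2| :=
    ⟨_, rfl⟩
  have g1 : 0 ≤ |b| + |c| + 1 := by
    have := abs_nonneg b
    have := abs_nonneg c
    linarith
  have g2 : 0 ≤ |α.1| + |α.2| := add_nonneg (abs_nonneg _) (abs_nonneg _)
  have g3 : 0 ≤ (|b| + |c| + 1) * |α.2| := mul_nonneg g1 (abs_nonneg _)
  have hG0 : 0 ≤ G := by rw [hG]; linarith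
  have hG0' : (0 : ℝ) ≤ G := by exact_mod_cast hG0
  have hlolo : 0 < lo - lo' := by linarith
  obtain ⟨Z, hZ⟩ : ∃ Z : ℝ, Z = 1 + 1 / lo + C5 / (lo - lo') + C5 + 4 * K + 12 * C1 * K * (H + 3) :=
    ⟨_, rfl⟩
  have z1 : 0 < 1 / lo := by positivity
  have z2 : 0 < C5 / (lo - lo') := by positivity
  have z3 : 0 < 12 * C1 * K * (H + 3) := by positivity
  refine ⟨lo', H, (2 + (G : ℝ)) * BB, 1 / (2 * K * C1), hlo'0, hlo'a, by positivity,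
    by positivity, Y1 + ⌈Z⌉₊, ?_⟩
  intro Y hY φ hs hm h1 hcj hpos hα
  have hYZ : Z ≤ Y := by
    have h2 := Nat.le_ceil Z
    have h3 : ((Y1 + ⌈Z⌉₊ : ℕ) : ℝ) ≤ Y := by exact_mod_cast hY
    push_cast at h3
    have : (0 : ℝ) ≤ Y1 := Nat.cast_nonneg _
    linarith
  have hY1 : (1 : ℝ) ≤ Y := by linarith
  have hYn : 1 ≤ Y := by exact_mod_cast hY1
  obtain ⟨X, hX⟩ : ∃ X : ℝ, X = (Y : ℝ) ^ (2 * j + 2) := ⟨_, rfl⟩
  have hX0 : 0 < X := by rw [hX]; positivity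
  have hXY : (Y : ℝ) ≤ X := by
    rw [hX]
    calc (Y : ℝ) = (Y : ℝ) ^ 1 := (pow_one _).symm
      _ ≤ (Y : ℝ) ^ (2 * j + 2) := pow_le_pow_right₀ hY1 (by omega)
  have hL1p : 0 < Y ^ (j + 2) := by positivity
  have hL1r : ((Y ^ (j + 2) : ℕ) : ℝ) = (Y : ℝ) ^ (j + 2) := by push_cast; rfl
  obtain ⟨W, hW⟩ : ∃ W : ℝ, W = X / (((Y ^ (j + 2) : ℕ) : ℝ) + 1) := ⟨_, rfl⟩
  have hW0 : 0 < W := by rw [hW]; positivity
  have hWX : W * (((Y ^ (j + 2) : ℕ) : ℝ) + 1) = X := by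
    rw [hW]
    have : (((Y ^ (j + 2) : ℕ) : ℝ) + 1) ≠ 0 := by positivity
    exact div_mul_cancel₀ _ this
  have hWj : W ≤ (Y : ℝ) ^ j := arith_W Y W hY1 j hW0 (by rw [← hL1r, hWX, hX])
  have hδlo : 1 / X ≤ lo := by
    rw [div_le_iff₀ hX0]
    have : 1 / lo ≤ X := by linarith
    rw [div_le_iff₀ hlo0] at this
    linarith
  have hC5X : C5 / X ≤ lo - lo' := by
    rw [div_le_iff₀ hX0]
    have : C5 / (lo - lo') ≤ X := by linarith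
    rw [div_le_iff₀ hlolo] at this
    linarith
  have hC5X1 : C5 / X ≤ 1 := by
    rw [div_le_one hX0]; linarith
  obtain ⟨l, y, k1, k2, k3, k4⟩ := hch Y (by omega) φ hcj hpos
  have hMle : ((⌊X / K⌋₊ : ℕ) : ℝ) ≤ X / K := Nat.floor_le (by positivity)
  have hMge : X / K - 1 ≤ ((⌊X / K⌋₊ : ℕ) : ℝ) := by
    have := Nat.lt_floor_add_one (X / K)
    linarith
  have hYi : (1 : ℤ) ≤ Y := by exact_mod_cast hYn
  have hL20 : (0 : ℤ) ≤ BB * ((Y ^ (j + 2) : ℕ) : ℤ) := by positivity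
  obtain ⟨E, hE1, hE2⟩ := step_edges (T := 2 * Y) (L1 := Y ^ (j + 2)) (W := W)
    (L2 := BB * ((Y ^ (j + 2) : ℕ) : ℤ))
    (L := (2 * (Y : ℤ) + G) * (BB * ((Y ^ (j + 2) : ℕ) : ℤ))) (M := ⌊X / K⌋₊)
    hs hm h1 hα hαN hα2 hαp hr1 hlo0 hloa hH k1 (by linarith) (by linarith : 1 ≤ X) hδlo
    (le_of_eq hκ.symm) hκ0 hC1.le (by
      rw [abs_sub_comm, abs_of_nonneg (by linarith), hX]
      linarith) (le_of_eq hC5.symm) hK0 hK hL1p hW0 hWX (by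
      push_cast
      exact mul_le_mul_of_nonneg_right hBB' (by positivity))
    (mul_le_mul_of_nonneg_right (by rw [hG]; linarith) hL20)
    (by
      have h2 : 1 * (BB * ((Y ^ (j + 2) : ℕ) : ℤ)) ≤
          (2 * (Y : ℤ) + G) * (BB * ((Y ^ (j + 2) : ℕ) : ℤ)) :=
        mul_le_mul_of_nonneg_right (by linarith) hL20
      rwa [one_mul] at h2)
    (mul_le_mul_of_nonneg_right (by rw [hG]; linarith) hL20) hMle
  refine ⟨E, ?_, ?_⟩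
  · exact arith_count Y _ _ W E.card K C1 H j hY1 hK0 hC1 hH0 (Nat.cast_nonneg _) hW0.le hWj k4
      (by rw [← hX]; exact hMge) hE2 (by linarith) (by linarith)
  · intro e he
    obtain ⟨τ, t1, t2, h2, h3, h4, h5, ⟨h6, h7, h8, h9⟩, h10, h11⟩ := hE1 e he
    rw [abs_le] at h10 h11
    have hLr : (((2 * (Y : ℤ) + G) * (BB * ((Y ^ (j + 2) : ℕ) : ℤ)) : ℤ) : ℝ) ≤
        ((2 + (G : ℝ)) * BB) * (Y : ℝ) ^ (j + 3) := by
      push_cast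
      exact arith_L Y G BB hY1 hG0' hBBr j
    have cast : ∀ z : ℤ, z ≤ (2 * (Y : ℤ) + G) * (BB * ((Y ^ (j + 2) : ℕ) : ℤ)) →
        (z : ℝ) ≤ ((2 + (G : ℝ)) * BB) * (Y : ℝ) ^ (j + 3) := by
      intro z hz
      refine le_trans ?_ hLr
      exact_mod_cast hz
    exact ⟨h2, h3, h4, h5, ⟨cast _ h6, cast _ h7, cast _ h8, cast _ h9⟩, ⟨by linarith, by linarith⟩,
      ⟨by linarith, by linarith⟩⟩

end Pool.Agent.H304R2
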