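import Mathlib

set_option autoImplicit false

open Finset

namespace Pool.Agent.H304R2

theorem exists_prime_root (D : ℤ) (hD : D ≠ 0) :
    ∃ p : ℕ, p.Prime ∧ p ≡ 1 [MOD 4 * D.natAbs] ∧ 4 * D.natAbs < p ∧
      ∃ ν : ℤ, (p : ℤ) ∣ ν ^ 2 - D := by
  have hk : 4 * D.natAbs ≠ 0 := by have := Int.natAbs_pos.mpr hD; omega
  obtain ⟨p, hp, hgt, hmod⟩ := Nat.exists_prime_gt_modEq_one (k := 4 * D.natAbs)
    (4 * D.natAbs) hk
  refine ⟨p, hp, hmod, hgt, ?_⟩
  have : Fact p.Prime := ⟨hp⟩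
  have hodd : Odd p := by
    rcases hp.eq_two_or_odd' with h | h
    · have := Int.natAbs_pos.mpr hD; omega
    · exact h
  have h1 : jacobiSym D p = 1 := by
    rw [jacobiSym.mod_right D hodd]
    have : p % (4 * D.natAbs) = 1 := by
      have h2 : p % (4 * D.natAbs) = 1 % (4 * D.natAbs) := hmod
      rw [h2]
      exact Nat.mod_eq_of_lt (by have := Int.natAbs_pos.mpr hD; omega)
    rw [this, jacobiSym.one_right]
  rw [← jacobiSym.legendreSym.to_jacobiSym] at h1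
  have h0 : ((D : ℤ) : ZMod p) ≠ 0 := by
    intro h
    have := (legendreSym.eq_zero_iff p D).mpr h
    omega
  obtain ⟨r, hr⟩ := (legendreSym.eq_one_iff p h0).mp h1
  refine ⟨(r.val : ℤ), ?_⟩
  rw [← ZMod.intCast_zmod_eq_zero_iff_dvd]
  push_cast
  rw [ZMod.natCast_zmod_val, hr]
  ring

theorem box_pigeon (D : ℕ) (hD : 0 < D) (p : ℕ) (hp : 0 < p) (ν : ℤ) :
    ∃ x y z : ℤ, (x, y, z) ≠ (0, 0, 0) ∧ x ^ 2 ≤ 3 * D * p ∧ y ^ 2 ≤ 3 * p ∧ z ^ 2 ≤ 3 * D ∧
      (2 : ℤ) ∣ y ∧ (2 * D : ℤ) ∣ x - z ∧ (p : ℤ) ∣ x - ν * y := by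
  classical
  have : NeZero (2 * D) := ⟨by omega⟩
  have : NeZero p := ⟨hp.ne'⟩
  set A1 := Nat.sqrt (3 * D * p)
  set A2 := Nat.sqrt (3 * p)
  set A3 := Nat.sqrt (3 * D)
  have a1 : 3 * D * p < (A1 + 1) ^ 2 := Nat.lt_succ_sqrt' _
  have a2 : 3 * p < (A2 + 1) ^ 2 := Nat.lt_succ_sqrt' _
  have a3 : 3 * D < (A3 + 1) ^ 2 := Nat.lt_succ_sqrt' _
  have b1 : A1 ^ 2 ≤ 3 * D * p := Nat.sqrt_le' _
  have b2 : A2 ^ 2 ≤ 3 * p := Nat.sqrt_le' _
  have b3 : A3 ^ 2 ≤ 3 * D := Nat.sqrt_le' _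
  let S := (range (A1 + 1)) ×ˢ (range (A2 + 1)) ×ˢ (range (A3 + 1))
  let f : ℕ × ℕ × ℕ → ZMod 2 × ZMod (2 * D) × ZMod p := fun t =>
    (((t.2.1 : ℤ) : ZMod 2), (((t.1 : ℤ) - (t.2.2 : ℤ) : ℤ) : ZMod (2 * D)),
      (((t.1 : ℤ) - ν * (t.2.1 : ℤ) : ℤ) : ZMod p))
  have hcard : (univ : Finset (ZMod 2 × ZMod (2 * D) × ZMod p)).card < S.card := by
    rw [card_univ, Fintype.card_prod, Fintype.card_prod, ZMod.card, ZMod.card, ZMod.card]
    simp only [S, card_product, card_range]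
    by_contra hcon
    push Not at hcon
    have h1 : ((A1 + 1) * ((A2 + 1) * (A3 + 1))) ^ 2 ≤ (2 * (2 * D * p)) ^ 2 :=
      Nat.pow_le_pow_left hcon 2
    have h2 : (3 * D * p) * ((3 * p) * (3 * D)) < ((A1 + 1) * ((A2 + 1) * (A3 + 1))) ^ 2 := by
      rw [mul_pow, mul_pow]
      exact Nat.mul_lt_mul'' a1 (Nat.mul_lt_mul'' a2 a3)
    have h3 : (2 * (2 * D * p)) ^ 2 ≤ (3 * D * p) * ((3 * p) * (3 * D)) := by
      have : (3 * D * p) * ((3 * p) * (3 * D)) = 27 * (D * p) ^ 2 := by ring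
      rw [this]
      have : (2 * (2 * D * p)) ^ 2 = 16 * (D * p) ^ 2 := by ring
      rw [this]
      exact Nat.mul_le_mul_right _ (by norm_num)
    omega
  obtain ⟨s, hs, t, ht, hne, heq⟩ := exists_ne_map_eq_of_card_lt_of_maps_to (f := f) hcard
    (fun _ _ => by simp)
  simp only [S, mem_product, mem_range] at hs ht
  simp only [f, Prod.mk.injEq] at heq
  obtain ⟨e1, e2, e3⟩ := heq
  refine ⟨(s.1 : ℤ) - t.1, (s.2.1 : ℤ) - t.2.1, (s.2.2 : ℤ) - t.2.2, ?_, ?_, ?_, ?_, ?_, ?_, ?_⟩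
  · intro h
    simp only [Prod.mk.injEq] at h
    apply hne
    refine Prod.ext ?_ (Prod.ext ?_ ?_) <;> omega
  · have : ((s.1 : ℤ) - t.1) ^ 2 ≤ (A1 : ℤ) ^ 2 := by
      apply sq_le_sq'
      · have := hs.1; have := ht.1; omega
      · have := hs.1; have := ht.1; omega
    have b1' : (A1 : ℤ) ^ 2 ≤ 3 * D * p := by exact_mod_cast b1
    linarith
  · have : ((s.2.1 : ℤ) - t.2.1) ^ 2 ≤ (A2 : ℤ) ^ 2 := by
      apply sq_le_sq'
      · have := hs.2.1; have := ht.2.1; omega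
      · have := hs.2.1; have := ht.2.1; omega
    have b1' : (A2 : ℤ) ^ 2 ≤ 3 * p := by exact_mod_cast b2
    linarith
  · have : ((s.2.2 : ℤ) - t.2.2) ^ 2 ≤ (A3 : ℤ) ^ 2 := by
      apply sq_le_sq'
      · have := hs.2.2; have := ht.2.2; omega
      · have := hs.2.2; have := ht.2.2; omega
    have b1' : (A3 : ℤ) ^ 2 ≤ 3 * D := by exact_mod_cast b3
    linarith
  · have := (ZMod.intCast_eq_intCast_iff_dvd_sub _ _ 2).mp e1
    have h2 : ((2 : ℕ) : ℤ) ∣ (s.2.1 : ℤ) - t.2.1 := by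
      rw [← dvd_neg]; simpa using this
    exact_mod_cast h2
  · have := (ZMod.intCast_eq_intCast_iff_dvd_sub _ _ (2 * D)).mp e2
    push_cast at this
    have h2 : (2 * (D : ℤ)) ∣ -(((t.1 : ℤ) - t.2.2) - ((s.1 : ℤ) - s.2.2)) := (dvd_neg).mpr this
    convert h2 using 1
    ring
  · have := (ZMod.intCast_eq_intCast_iff_dvd_sub _ _ p).mp e3
    have h2 : (p : ℤ) ∣ -(((t.1 : ℤ) - ν * t.2.1) - ((s.1 : ℤ) - ν * s.2.1)) := (dvd_neg).mpr this
    convert h2 using 1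
    ring

/-- parity of valuations: `D y^2 = p z^2` is impossible up to sign when `p` is a prime not
dividing `D` -/
theorem no_sol (D : ℤ) (p : ℕ) (hp : p.Prime) (hpD : ¬ (p : ℤ) ∣ D) (y z : ℤ) (hz : z ≠ 0)
    (h : D * y ^ 2 = p * z ^ 2) : False := by
  have hpi : Prime (p : ℤ) := Nat.prime_iff_prime_int.mp hp
  have hD0 : D ≠ 0 := by rintro rfl; exact hpD (dvd_zero _)
  have hy : y ≠ 0 := by
    rintro rfl
    have : (p : ℤ) * z ^ 2 = 0 := by rw [← h]; ring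
    rcases mul_eq_zero.mp this with h1 | h1
    · exact hpi.ne_zero h1
    · exact hz (pow_eq_zero_iff (two_ne_zero) |>.mp h1)
  have : Fact p.Prime := ⟨hp⟩
  have h1 := congrArg (padicValInt p) h
  rw [padicValInt.mul hD0 (pow_ne_zero 2 hy), padicValInt.mul hpi.ne_zero (pow_ne_zero 2 hz)] at h1
  have e1 : padicValInt p D = 0 := padicValInt.eq_zero_of_not_dvd hpD
  have e2 : padicValInt p (y ^ 2) = 2 * padicValInt p y := by
    rw [pow_two, padicValInt.mul hy hy]; ring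
  have e3 : padicValInt p (z ^ 2) = 2 * padicValInt p z := by
    rw [pow_two, padicValInt.mul hz hz]; ring
  have e4 : padicValInt p (p : ℤ) = 1 := by
    rw [padicValInt, Int.natAbs_natCast, padicValNat_self]
  omega

theorem exists_norm_prime (D : ℤ) (hD : ¬ IsSquare D) :
    ∃ p : ℕ, p.Prime ∧ ∃ x y w : ℤ, 0 < x ∧ 0 < y ∧ 0 < w ∧ x ^ 2 - D * y ^ 2 = p * w ^ 2 := by
  have hD0 : D ≠ 0 := by rintro rfl; exact hD ⟨0, by simp⟩
  have hpos := Int.natAbs_pos.mpr hD0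
  obtain ⟨p, hp, hmod, hgt, ν, hν⟩ := exists_prime_root D hD0
  have hp0 : (0 : ℤ) < p := by exact_mod_cast hp.pos
  obtain ⟨x, y, z, hne, hx, hy, hz, d1, d2, d3⟩ := box_pigeon D.natAbs hpos p hp.pos ν
  have hpi : Prime (p : ℤ) := Nat.prime_iff_prime_int.mp hp
  have hpD : ¬ (p : ℤ) ∣ D := by
    intro h
    have h2 := Int.natAbs_dvd_natAbs.mpr h
    rw [Int.natAbs_natCast] at h2
    have := Nat.le_of_dvd hpos h2
    omega
  -- reduce to a statement with nonzero coordinates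
  suffices h : ∃ x y w : ℤ, w ≠ 0 ∧ x ^ 2 - D * y ^ 2 = p * w ^ 2 by
    obtain ⟨x, y, w, hw, h⟩ := h
    have hx0 : x ≠ 0 := by
      rintro rfl
      apply no_sol (-D) p hp (by rwa [dvd_neg]) y w hw
      linarith
    have hy0 : y ≠ 0 := by
      rintro rfl
      apply no_sol 1 p hp (fun h => hpi.not_isUnit (isUnit_of_dvd_one h)) x w hw
      linarith
    exact ⟨p, hp, |x|, |y|, |w|, abs_pos.mpr hx0, abs_pos.mpr hy0, abs_pos.mpr hw, by
      rw [sq_abs, sq_abs, sq_abs]; exact h⟩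
  set F := x ^ 2 - D * y ^ 2 - p * z ^ 2 with hF
  have hDa : (D.natAbs : ℤ) = |D| := Int.natCast_natAbs D
  rw [hDa] at hx hz d2
  -- divisibility by 4 |D|
  have hm1 : (4 * D) ∣ (p : ℤ) - 1 := by
    have h1 := (Nat.modEq_iff_dvd.mp hmod.symm)
    push_cast at h1
    have h2 : |4 * D| ∣ (p : ℤ) - 1 := by
      rw [abs_mul]; simpa using h1
    exact (abs_dvd _ _).mp h2
  have hm2 : (2 * D) ∣ x - z := by
    have h2 : |2 * D| ∣ x - z := by
      rw [abs_mul]; simpa using d2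
    exact (abs_dvd _ _).mp h2
  obtain ⟨k, hk⟩ := hm2
  obtain ⟨y', hy'⟩ := d1
  obtain ⟨l, hl⟩ := hm1
  have f1 : (4 * D) ∣ F := by
    refine ⟨k * z + D * k ^ 2 - y' ^ 2 - l * z ^ 2, ?_⟩
    have hx' : x = z + 2 * D * k := by linarith
    have hp' : (p : ℤ) = 1 + 4 * D * l := by linarith
    rw [hF, hx', hy', hp']
    ring
  have f2 : (p : ℤ) ∣ F := by
    obtain ⟨m, hm⟩ := d3
    obtain ⟨n, hn⟩ := hν
    refine ⟨p * m ^ 2 + 2 * m * ν * y + n * y ^ 2 - z ^ 2, ?_⟩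
    have hx' : x = ν * y + p * m := by linarith
    have hD' : D = ν ^ 2 - p * n := by linarith
    have : F = (ν * y + p * m) ^ 2 - (ν ^ 2 - p * n) * y ^ 2 - p * z ^ 2 := by
      rw [hF, ← hx', ← hD']
    rw [this]
    ring
  have cop : IsCoprime (4 * D) (p : ℤ) := by
    refine ⟨-l, 1, ?_⟩
    linarith
  have f3 : (4 * D) * p ∣ F := cop.mul_dvd f1 f2
  obtain ⟨m, hm⟩ := f3
  have hcase : F = 0 ∨ F = -(4 * D * p) := by
    rcases lt_or_gt_of_ne hD0 with hneg | hposD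
    · rw [abs_of_neg hneg] at hx hz
      have g1 : F ≤ 6 * (-D) * p := by
        have : (-D) * y ^ 2 ≤ (-D) * (3 * p) := mul_le_mul_of_nonneg_left hy (by linarith)
        have h3 : 0 ≤ p * z ^ 2 := by positivity
        rw [hF]; linarith
      have g2 : -(3 * (-D) * p) ≤ F := by
        have : p * z ^ 2 ≤ p * (3 * -D) := mul_le_mul_of_nonneg_left hz hp0.le
        have h3 : 0 ≤ (-D) * y ^ 2 := mul_nonneg (by linarith) (sq_nonneg _)
        have h4 := sq_nonneg x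
        rw [hF]; linarith
      have hDp : 0 < (-D) * p := mul_pos (by linarith) hp0
      rw [hm] at g1 g2
      have m1 : m ≤ 0 := by
        by_contra hc
        have : (-D) * p * 1 ≤ (-D) * p * m := mul_le_mul_of_nonneg_left (by omega) hDp.le
        nlinarith
      have m2 : -1 ≤ m := by
        by_contra hc
        have : (-D) * p * m ≤ (-D) * p * (-2) := mul_le_mul_of_nonneg_left (by omega) hDp.le
        nlinarith
      have : m = 0 ∨ m = -1 := by omega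
      rcases this with h | h
      · left; rw [hm, h]; ring
      · right; rw [hm, h]; ring
    · rw [abs_of_pos hposD] at hx hz
      have g1 : F ≤ 3 * D * p := by
        have : 0 ≤ D * y ^ 2 := by positivity
        have h3 : 0 ≤ p * z ^ 2 := by positivity
        rw [hF]; linarith
      have g2 : -(6 * D * p) ≤ F := by
        have : p * z ^ 2 ≤ p * (3 * D) := mul_le_mul_of_nonneg_left hz hp0.le
        have h3 : D * y ^ 2 ≤ D * (3 * p) := mul_le_mul_of_nonneg_left hy hposD.le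
        have h4 := sq_nonneg x
        rw [hF]; linarith
      have hDp : 0 < D * p := mul_pos hposD hp0
      rw [hm] at g1 g2
      have m1 : m ≤ 0 := by
        by_contra hc
        have : D * p * 1 ≤ D * p * m := mul_le_mul_of_nonneg_left (by omega) hDp.le
        nlinarith
      have m2 : -1 ≤ m := by
        by_contra hc
        have : D * p * m ≤ D * p * (-2) := mul_le_mul_of_nonneg_left (by omega) hDp.le
        nlinarith
      have : m = 0 ∨ m = -1 := by omega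
      rcases this with h | h
      · left; rw [hm, h]; ring
      · right; rw [hm, h]; ring
  rcases hcase with h0 | h4
  · refine ⟨x, y, z, ?_, by linarith⟩
    rintro rfl
    have h5 : x ^ 2 = D * y ^ 2 := by linarith
    have hy0 : y ≠ 0 := by
      rintro rfl
      have : x = 0 := by
        have : x ^ 2 = 0 := by linarith
        exact pow_eq_zero_iff (two_ne_zero) |>.mp this
      exact hne (by rw [this])
    apply hD
    have : y ^ 2 ∣ x ^ 2 := ⟨D, by linarith⟩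
    obtain ⟨q, hq⟩ := (Int.pow_dvd_pow_iff (two_ne_zero)).mp this
    refine ⟨q, ?_⟩
    have h6 : y ^ 2 * D = y ^ 2 * (q * q) := by rw [hq] at h5; linarith
    exact mul_left_cancel₀ (pow_ne_zero 2 hy0) h6
  · refine ⟨x * z - 2 * D * y, y * z - 2 * x, z ^ 2 - 4 * D, ?_, ?_⟩
    · intro h
      apply hD
      have : (2 : ℤ) ^ 2 ∣ z ^ 2 := ⟨D, by linarith⟩
      obtain ⟨q, hq⟩ := (Int.pow_dvd_pow_iff (two_ne_zero)).mp this
      refine ⟨q, ?_⟩
      rw [hq] at h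
      linarith
    · have h5 : x ^ 2 - D * y ^ 2 = p * (z ^ 2 - 4 * D) := by linarith
      have : (x * z - 2 * D * y) ^ 2 - D * (y * z - 2 * x) ^ 2 =
          (x ^ 2 - D * y ^ 2) * (z ^ 2 - 4 * D) := by ring
      rw [this, h5]
      ring

end Pool.Agent.H304R2
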