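import Mathlib
import Pool.Agent.H304R2.Many
import Pool.Agent.H304R2.Count
import Pool.Agent.H304R2.Asym

set_option autoImplicit false

open Finset

namespace Pool.Agent.H304R2

theorem main_g (b c : ℤ) (hD : ¬ IsSquare (b ^ 2 - 4 * c)) (x y : ℤ) (hx : 0 < x) (hy : 0 < y)
    (hxy : 0 < x ^ 2 - (b ^ 2 - 4 * c) * y ^ 2) (ε : ℝ) (hε : 0 < ε) :
    ∃ N0 : ℕ, ∀ N : ℕ, N0 ≤ N → ∀ g : ℕ → ℤ,
      (∀ m n, m ≠ 0 → n ≠ 0 → g (m * n) = g m * g n) →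
      (∀ n, n ≠ 0 → g n = 1 ∨ g n = -1) →
      g (x ^ 2 - (b ^ 2 - 4 * c) * y ^ 2).natAbs = -1 →
      ∀ s : ℤ, (s = 1 ∨ s = -1) → (N : ℝ) ^ (1 - ε) ≤
      (((Finset.Icc 1 N).filter (fun n : ℕ => g (ff b c n).natAbs = s)).card : ℝ) := by
  have hNα : Nm b c (x - b * y, 2 * y) = x ^ 2 - (b ^ 2 - 4 * c) * y ^ 2 := by
    simp only [Nm]; ring
  have hNne : ∀ t : ℤ × ℤ, 0 < Nm b c t → t ≠ 0 := by
    rintro t ht rfl
    simp [Nm] at ht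
  obtain ⟨j, hj1, hjε⟩ : ∃ j : ℕ, 1 ≤ j ∧ 3 < ε * (j + 3) := by
    refine ⟨⌈3 / ε⌉₊ + 1, by omega, ?_⟩
    have h1 : 3 / ε ≤ (⌈3 / ε⌉₊ : ℝ) := Nat.le_ceil _
    rw [div_le_iff₀ hε] at h1
    push_cast
    nlinarith
  obtain ⟨lo, H, C, c0, hlo, hloa, hC, hc0, Y0, hmain⟩ := many_edges b c
    (x - b * y, 2 * y) (by rw [hNα]; exact hxy)
    (by simp only; omega) (by
      unfold tp
      push_cast
      have : ((x : ℝ) - b * y + b * (2 * y) / 2) = x := by ring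
      rw [this]; exact_mod_cast hx) j
  obtain ⟨C9, C10, hC9, hC10, hcount⟩ := count_from_edges b c hD lo H (2 * C) hlo hloa
    (by positivity) (j + 3) (by omega)
  obtain ⟨N0, hN0⟩ := final_asym (c0 / (2 * C9)) C10 (|(b : ℝ)| + 1) ε j (j + 3) (by positivity)
    hC10 (by omega) hj1 (by push_cast; nlinarith) (Y0 + 1)
  refine ⟨N0, ?_⟩
  intro N hN g hg1 hg2 hgα s hs
  apply hN0 N hN
  intro Y hY hYN
  set φ := fi b c g with hφ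
  have hφ1 : ∀ v : ℤ × ℤ, 0 < v.2 → φ v = 1 ∨ φ v = -1 := fun v hv =>
    fi_val hD hg2 v (two_snd_pos v hv)
  obtain ⟨E, hE1, hE2⟩ := hmain Y (by omega) φ
    (fun k v hk hv => fi_smul hD hg1 hg2 k v hk hv)
    (fun t v ht hv => fi_mu hD hg1 t v (hNne t ht) (two_snd_pos v hv))
    hφ1 (fun t => fi_cj t) (fun t ht => fi_val hD hg2 t (hNne t ht))
    (by rw [hφ]; unfold fi; rw [hNα]; exact hgα)
  have hYpos : (0 : ℝ) ≤ C * (Y : ℝ) ^ (j + 3) := by positivity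
  have hYr : (1 : ℝ) ≤ Y := by
    have : 1 ≤ Y := by omega
    exact_mod_cast this
  obtain ⟨E', hE'1, hE'2⟩ : ∃ E' : Finset ((ℤ × ℤ) × (ℤ × ℤ)), c0 / 2 * (Y : ℝ) ^ (2 * j + 1) ≤
      E'.card ∧ (∀ e ∈ E', dt e.1 e.2 = 1 ∧ fi b c g e.1 * fi b c g e.2 = s ∧ 0 < e.1.2 ∧
        0 < e.2.2 ∧
        (((|e.1.1| : ℤ) : ℝ) ≤ 2 * C * (Y : ℝ) ^ (j + 3) ∧
         ((|e.1.2| : ℤ) : ℝ) ≤ 2 * C * (Y : ℝ) ^ (j + 3) ∧
         ((|e.2.1| : ℤ) : ℝ) ≤ 2 * C * (Y : ℝ) ^ (j + 3) ∧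
         ((|e.2.2| : ℤ) : ℝ) ≤ 2 * C * (Y : ℝ) ^ (j + 3)) ∧
        (lo ≤ sl b e.1 ∧ sl b e.1 ≤ H) ∧ (lo ≤ sl b e.2 ∧ sl b e.2 ≤ H)) := by
    rcases hs with hs | hs
    · obtain ⟨E', g1, g2⟩ := even_edges φ b lo H (C * (Y : ℝ) ^ (j + 3)) hφ1 E hE2
      refine ⟨E', ?_, ?_⟩
      · have : (E.card : ℝ) ≤ 2 * E'.card := by exact_mod_cast g1
        linarith
      · intro e he
        obtain ⟨a1, a2, a3, a4, ⟨a5, a6, a7, a8⟩, a9, a10⟩ := g2 e he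
        refine ⟨a1, ?_, a3, a4, ⟨by linarith, by linarith, by linarith, by linarith⟩, a9, a10⟩
        rw [hs, ← hφ, ← a2]
        rcases hφ1 e.1 a3 with h | h <;> rw [h] <;> norm_num
    · refine ⟨E, ?_, ?_⟩
      · have : 0 ≤ c0 / 2 * (Y : ℝ) ^ (2 * j + 1) := by positivity
        linarith
      · intro e he
        obtain ⟨a1, a2, a3, a4, ⟨a5, a6, a7, a8⟩, a9, a10⟩ := hE2 e he
        refine ⟨a1, ?_, a3, a4, ⟨by linarith, by linarith, by linarith, by linarith⟩, a9, a10⟩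
        rw [hs, ← hφ]
        rcases hφ1 e.1 a3 with h | h <;> rcases hφ1 e.2 a4 with h' | h' <;> rw [h, h'] at a2 ⊢ <;>
          simp at a2 ⊢
  have h2 := hE'1.trans (hcount Y (by omega) g hg1 s E' hE'2 N hYN)
  have h3 : c0 / 2 * (Y : ℝ) ^ (2 * j + 1) = C9 * Y * (c0 / (2 * C9) * (Y : ℝ) ^ (2 * j)) := by
    rw [pow_succ]; field_simp
  rw [h3] at h2
  have h4 := le_of_mul_le_mul_left h2 (by positivity)
  linarith

end Pool.Agent.H304R2
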