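import Mathlib
import Pool.Agent.H304R2.MainG
import Pool.Agent.H304R2.Legendre

set_option autoImplicit false

open Finset

namespace Pool.Agent.H304R2

theorem lam_mul (m n : ℕ) (hm : m ≠ 0) (hn : n ≠ 0) :
    (-1 : ℤ) ^ (ArithmeticFunction.cardFactors (m * n)) =
      (-1 : ℤ) ^ (ArithmeticFunction.cardFactors m) * (-1 : ℤ) ^ (ArithmeticFunction.cardFactors n) := by
  rw [ArithmeticFunction.cardFactors_mul hm hn, pow_add]

/-- the Liouville function on values of a monic quadratic polynomial -/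
theorem main_lam (b c : ℤ) (hD : ¬ IsSquare (b ^ 2 - 4 * c)) (s : ℤ) (hs : s = 1 ∨ s = -1)
    (ε : ℝ) (hε : 0 < ε) :
    ∃ N0 : ℕ, ∀ N : ℕ, N0 ≤ N → (N : ℝ) ^ (1 - ε) ≤
      (((Finset.Icc 1 N).filter (fun n : ℕ =>
        (-1 : ℤ) ^ (ArithmeticFunction.cardFactors ((n : ℤ) ^ 2 + b * n + c).natAbs) = s)).card : ℝ) := by
  obtain ⟨p, hp, x, y, w, hx, hy, hw, h⟩ := exists_norm_prime (b ^ 2 - 4 * c) hD
  have hw0 : w.natAbs ≠ 0 := Int.natAbs_ne_zero.mpr hw.ne'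
  have hval : (-1 : ℤ) ^ (ArithmeticFunction.cardFactors
      (x ^ 2 - (b ^ 2 - 4 * c) * y ^ 2).natAbs) = -1 := by
    rw [h, Int.natAbs_mul, Int.natAbs_natCast, Int.natAbs_pow, lam_mul _ _ hp.ne_zero
      (pow_ne_zero 2 hw0), pow_two, lam_mul _ _ hw0 hw0,
      ArithmeticFunction.cardFactors_apply_prime hp]
    rcases neg_one_pow_eq_or ℤ (ArithmeticFunction.cardFactors w.natAbs) with h1 | h1 <;>
      rw [h1] <;> norm_num
  have hpos : 0 < x ^ 2 - (b ^ 2 - 4 * c) * y ^ 2 := by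
    rw [h]
    have : (0 : ℤ) < p := by exact_mod_cast hp.pos
    positivity
  obtain ⟨N0, hN0⟩ := main_g b c hD x y hx hy hpos ε hε
  refine ⟨N0, fun N hN => ?_⟩
  exact hN0 N hN (fun n => (-1 : ℤ) ^ (ArithmeticFunction.cardFactors n)) lam_mul
    (fun n _ => neg_one_pow_eq_or ℤ _) hval s hs

end Pool.Agent.H304R2
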