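import Mathlib
import Pool.Agent.H304R2.Bad
import Pool.Agent.Helper112.Arith

set_option autoImplicit false

open Finset

namespace Pool.Agent.H304R2

/-- integers in an interval, congruent modulo `q` -/
theorem card_mod_le (M q : ℕ) (hq : 0 < q) (S : Finset ℤ) (hS : ∀ m ∈ S, |m| ≤ M)
    (hc : ∀ m ∈ S, ∀ m' ∈ S, (q : ℤ) ∣ m - m') : (S.card : ℝ) ≤ 2 * M / q + 1 := by
  rcases S.eq_empty_or_nonempty with rfl | ⟨m1, hm1⟩
  · simp; positivity
  · have hq0 : (0 : ℝ) < q := by exact_mod_cast hq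
    have hinj : Set.InjOn (fun m : ℤ => (m - m1) / (q : ℤ)) (S : Set ℤ) := by
      intro a ha b hb hab
      obtain ⟨x, hx⟩ := hc a (mem_coe.mp ha) m1 hm1
      obtain ⟨y, hy⟩ := hc b (mem_coe.mp hb) m1 hm1
      have hqz : (q : ℤ) ≠ 0 := by exact_mod_cast hq.ne'
      simp only at hab
      rw [hx, hy, Int.mul_ediv_cancel_left _ hqz, Int.mul_ediv_cancel_left _ hqz] at hab
      rw [hab] at hx
      linarith
    have h1 := card_diam_int (S.image (fun m : ℤ => (m - m1) / (q : ℤ))) (2 * M / q)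
      (by positivity) (by
        intro x hx y hy
        rw [mem_image] at hx hy
        obtain ⟨a, ha, rfl⟩ := hx
        obtain ⟨b, hb, rfl⟩ := hy
        obtain ⟨x, hx⟩ := hc a ha m1 hm1
        obtain ⟨y, hy⟩ := hc b hb m1 hm1
        have hqz : (q : ℤ) ≠ 0 := by exact_mod_cast hq.ne'
        rw [hx, hy, Int.mul_ediv_cancel_left _ hqz, Int.mul_ediv_cancel_left _ hqz]
        rw [le_div_iff₀ hq0]
        have h2 : |(a : ℝ)| ≤ M := by
          have := hS a ha
          have h3 : ((|a| : ℤ) : ℝ) ≤ ((M : ℤ) : ℝ) := by exact_mod_cast this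
          rwa [Int.cast_abs, Int.cast_natCast] at h3
        have h3 : |(b : ℝ)| ≤ M := by
          have := hS b hb
          have h3 : ((|b| : ℤ) : ℝ) ≤ ((M : ℤ) : ℝ) := by exact_mod_cast this
          rwa [Int.cast_abs, Int.cast_natCast] at h3
        have hx' : (a : ℝ) - m1 = q * x := by exact_mod_cast hx
        have hy' : (b : ℝ) - m1 = q * y := by exact_mod_cast hy
        have h4 : |(x : ℝ) - y| * q = |(a : ℝ) - b| := by
          have h5 : ((x : ℝ) - y) * q = (a : ℝ) - b := by linarith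
          rw [← h5, abs_mul, abs_of_pos hq0]
        rw [h4]
        have := abs_sub (a : ℝ) b
        linarith)
    rwa [card_image_of_injOn hinj] at h1

/-- solutions of `m^2 = D` modulo `s^2` -/
theorem count_s (D : ℤ) (hD : D ≠ 0) (M s : ℕ) (hs : 0 < s) :
    (((Icc (-(M : ℤ)) M).filter (fun m => (s : ℤ) ^ 2 ∣ m ^ 2 - D)).card : ℝ) ≤
      ((s ^ 2).divisors.card : ℝ) * (8 * |(D : ℝ)| * M / (s : ℝ) ^ 2 + 1) := by
  classical
  set F := (Icc (-(M : ℤ)) M).filter (fun m => (s : ℤ) ^ 2 ∣ m ^ 2 - D) with hF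
  have hD0 : (0 : ℝ) < |(D : ℝ)| := by
    rw [abs_pos]; exact_mod_cast hD
  have hs0 : (0 : ℝ) < s := by exact_mod_cast hs
  rcases F.eq_empty_or_nonempty with he | ⟨m0, hm0⟩
  · rw [he, card_empty]; push_cast; positivity
  have hs2 : s ^ 2 ≠ 0 := pow_ne_zero 2 hs.ne'
  have hm0' := hm0
  rw [hF, mem_filter, mem_Icc] at hm0'
  have hmaps : ∀ m ∈ F, Nat.gcd (s ^ 2) (m - m0).natAbs ∈ (s ^ 2).divisors := by
    intro m _
    rw [Nat.mem_divisors]
    exact ⟨Nat.gcd_dvd_left _ _, hs2⟩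
  have hcard := card_eq_sum_card_fiberwise (f := fun m => Nat.gcd (s ^ 2) (m - m0).natAbs)
    (s := F) (t := (s ^ 2).divisors) (fun m hm => mem_coe.mpr (hmaps m (mem_coe.mp hm)))
  have hcard' : (F.card : ℝ) = ∑ d ∈ (s ^ 2).divisors,
      ((F.filter (fun m => Nat.gcd (s ^ 2) (m - m0).natAbs = d)).card : ℝ) := by
    rw [hcard]; push_cast; rfl
  rw [hcard']
  have hfib : ∀ d ∈ (s ^ 2).divisors,
      ((F.filter (fun m => Nat.gcd (s ^ 2) (m - m0).natAbs = d)).card : ℝ) ≤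
        8 * |(D : ℝ)| * M / (s : ℝ) ^ 2 + 1 := by
    intro d hd
    rw [Nat.mem_divisors] at hd
    obtain ⟨e, he⟩ := hd.1
    have hd0 : 0 < d := Nat.pos_of_ne_zero (by rintro rfl; rw [zero_mul] at he; exact hs2 he)
    have he0 : 0 < e := Nat.pos_of_ne_zero (by rintro rfl; rw [mul_zero] at he; exact hs2 he)
    rcases (F.filter (fun m => Nat.gcd (s ^ 2) (m - m0).natAbs = d)).eq_empty_or_nonempty with
      hemp | ⟨m1, hm1⟩
    · rw [hemp, card_empty]; push_cast; positivity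
    have key : ∀ m ∈ F.filter (fun m => Nat.gcd (s ^ 2) (m - m0).natAbs = d),
        (d : ℤ) ∣ m - m0 ∧ (e : ℤ) ∣ m + m0 := by
      intro m hm
      rw [mem_filter, hF, mem_filter, mem_Icc] at hm
      obtain ⟨⟨-, hmd⟩, hg⟩ := hm
      have h1 : (d : ℤ) ∣ m - m0 := by
        rw [Int.natCast_dvd, ← hg]
        exact Nat.gcd_dvd_right _ _
      refine ⟨h1, ?_⟩
      obtain ⟨k, hk⟩ := h1
      have h2 : (s : ℤ) ^ 2 ∣ (m - m0) * (m + m0) := by
        have : (m - m0) * (m + m0) = (m ^ 2 - D) - (m0 ^ 2 - D) := by ring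
        rw [this]
        exact dvd_sub hmd hm0'.2
      have hs2' : (s : ℤ) ^ 2 = d * e := by exact_mod_cast he
      rw [hs2', hk, mul_assoc] at h2
      have hdz : (d : ℤ) ≠ 0 := by exact_mod_cast hd0.ne'
      have h3 : (e : ℤ) ∣ k * (m + m0) := (mul_dvd_mul_iff_left hdz).mp h2
      -- gcd(e, k) = 1
      have h4 : Nat.Coprime e k.natAbs := by
        rw [hk, Int.natAbs_mul, Int.natAbs_natCast, he, Nat.gcd_mul_left] at hg
        have : d * Nat.gcd e k.natAbs = d * 1 := by rw [hg, mul_one]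
        exact Nat.eq_of_mul_eq_mul_left hd0 this
      have h5 : IsCoprime (e : ℤ) k := by
        rw [Int.isCoprime_iff_gcd_eq_one]
        simpa [Int.gcd] using h4
      exact h5.dvd_of_dvd_mul_left h3
    obtain ⟨k1, k2⟩ := key m1 hm1
    -- the gcd g of d and e
    set g := Nat.gcd d e with hg
    have hg0 : 0 < g := Nat.gcd_pos_of_pos_left _ hd0
    have hgD : g ≤ 4 * D.natAbs := by
      have hgd : (g : ℤ) ∣ d := Int.natCast_dvd_natCast.mpr (Nat.gcd_dvd_left _ _)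
      have hge : (g : ℤ) ∣ e := Int.natCast_dvd_natCast.mpr (Nat.gcd_dvd_right _ _)
      have h1 : (g : ℤ) ∣ 2 * m0 := by
        have : 2 * m0 = (m1 + m0) - (m1 - m0) := by ring
        rw [this]
        exact dvd_sub (hge.trans k2) (hgd.trans k1)
      have h2 : (g : ℤ) ^ 2 ∣ 4 * m0 ^ 2 := by
        have : 4 * m0 ^ 2 = (2 * m0) ^ 2 := by ring
        rw [this]
        exact pow_dvd_pow_of_dvd h1 2
      have h3 : (g : ℤ) ^ 2 ∣ 4 * (m0 ^ 2 - D) := by
        have h4 : (g : ℤ) ^ 2 ∣ (s : ℤ) ^ 2 := by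
          have hs2' : (s : ℤ) ^ 2 = d * e := by exact_mod_cast he
          rw [hs2', pow_two]
          exact mul_dvd_mul hgd hge
        exact (h4.trans hm0'.2).mul_left 4
      have h4 : (g : ℤ) ^ 2 ∣ 4 * D := by
        have : 4 * D = 4 * m0 ^ 2 - 4 * (m0 ^ 2 - D) := by ring
        rw [this]
        exact dvd_sub h2 h3
      have h5 : g ^ 2 ∣ 4 * D.natAbs := by
        have := Int.natAbs_dvd_natAbs.mpr h4
        rwa [Int.natAbs_pow, Int.natAbs_natCast, Int.natAbs_mul] at this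
      have h6 := Nat.le_of_dvd (by have := Int.natAbs_pos.mpr hD; omega) h5
      nlinarith
    have hlcm : d * e = g * Nat.lcm d e := (Nat.gcd_mul_lcm d e).symm
    have hl0 : 0 < Nat.lcm d e := Nat.lcm_pos hd0 he0
    have h1 := card_mod_le M (Nat.lcm d e) hl0
      (F.filter (fun m => Nat.gcd (s ^ 2) (m - m0).natAbs = d)) (by
        intro m hm
        rw [mem_filter, hF, mem_filter, mem_Icc] at hm
        rw [abs_le]; exact hm.1.1) (by
        intro m hm m' hm'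
        obtain ⟨a1, a2⟩ := key m hm
        obtain ⟨b1, b2⟩ := key m' hm'
        have c1 : (d : ℤ) ∣ m - m' := by
          have : m - m' = (m - m0) - (m' - m0) := by ring
          rw [this]; exact dvd_sub a1 b1
        have c2 : (e : ℤ) ∣ m - m' := by
          have : m - m' = (m + m0) - (m' + m0) := by ring
          rw [this]; exact dvd_sub a2 b2
        have c3 : Nat.lcm d e ∣ (m - m').natAbs :=
          Nat.lcm_dvd (Int.natCast_dvd.mp c1) (Int.natCast_dvd.mp c2)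
        exact Int.natCast_dvd.mpr c3)
    refine h1.trans ?_
    have hl0' : (0 : ℝ) < (Nat.lcm d e : ℝ) := by exact_mod_cast hl0
    have h2 : (s : ℝ) ^ 2 ≤ 4 * |(D : ℝ)| * (Nat.lcm d e : ℝ) := by
      have e1 : (s : ℝ) ^ 2 = (g : ℝ) * (Nat.lcm d e : ℝ) := by
        rw [hlcm] at he
        exact_mod_cast he
      have e2 : (g : ℝ) ≤ 4 * |(D : ℝ)| := by
        have : (g : ℝ) ≤ ((4 * D.natAbs : ℕ) : ℝ) := by exact_mod_cast hgD
        rw [Nat.cast_mul, Nat.cast_natAbs, Int.cast_abs] at this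
        exact_mod_cast this
      rw [e1]
      exact mul_le_mul_of_nonneg_right e2 hl0'.le
    have h3 : 2 * (M : ℝ) / (Nat.lcm d e : ℝ) ≤ 8 * |(D : ℝ)| * M / (s : ℝ) ^ 2 := by
      rw [div_le_div_iff₀ hl0' (by positivity)]
      have hM : (0 : ℝ) ≤ M := Nat.cast_nonneg _
      nlinarith
    linarith
  calc ∑ d ∈ (s ^ 2).divisors,
      ((F.filter (fun m => Nat.gcd (s ^ 2) (m - m0).natAbs = d)).card : ℝ)
      ≤ ∑ d ∈ (s ^ 2).divisors, (8 * |(D : ℝ)| * M / (s : ℝ) ^ 2 + 1) := sum_le_sum hfib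
    _ = _ := by rw [sum_const, nsmul_eq_mul]

open Classical in
/-- large square divisors: Pell part -/
theorem count_pell (D : ℤ) (hD : D ≠ 0) (M Z : ℕ) (hZ : 0 < Z) (hZD : |D| < (Z : ℤ) ^ 2)
    (hMD : |D| ≤ (M : ℤ) ^ 2) (k : ℕ) (hk : 1 ≤ k) :
    (((Icc (1 : ℤ) M).filter (fun m => ∃ s : ℕ, Z < s ∧ m ^ 2 - D = k * (s : ℤ) ^ 2)).card : ℝ) ≤
      8 * |(D : ℝ)| * (M : ℝ) ^ 2 / (Z : ℝ) ^ 2 + 2 := by
  classical
  set F := (Icc (1 : ℤ) M).filter (fun m => ∃ s : ℕ, Z < s ∧ m ^ 2 - D = k * (s : ℤ) ^ 2) with hF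
  have hZ0 : (0 : ℝ) < Z := by exact_mod_cast hZ
  have hex : ∀ m ∈ F, ∃ s : ℕ, Z < s ∧ m ^ 2 - D = k * (s : ℤ) ^ 2 := fun m hm =>
    (mem_filter.mp hm).2
  choose! s hs1 hs2 using hex
  have hk1 : (1 : ℝ) ≤ k := by exact_mod_cast hk
  have hsM : ∀ m ∈ F, (s m : ℝ) ≤ 2 * M := by
    intro m hm
    have hmI := (mem_filter.mp hm).1
    rw [mem_Icc] at hmI
    have h1 : ((s m : ℤ)) ^ 2 ≤ k * (s m : ℤ) ^ 2 := by
      have : (1 : ℤ) ≤ k := by exact_mod_cast hk
      nlinarith [sq_nonneg (s m : ℤ)]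
    have h2 : (s m : ℤ) ^ 2 ≤ (2 * (M : ℤ)) ^ 2 := by
      rw [← hs2 m hm] at h1
      have h3 : m ^ 2 ≤ (M : ℤ) ^ 2 := by nlinarith
      have h4 := neg_abs_le D
      nlinarith
    have h3 : (s m : ℤ) ≤ 2 * (M : ℤ) := by
      apply le_of_sq_le_sq h2
      positivity
    exact_mod_cast h3
  have hspos : ∀ m ∈ F, (0 : ℝ) < s m := by
    intro m hm
    have := hs1 m hm
    exact_mod_cast (by omega : 0 < s m)
  have heq : ∀ m ∈ F, (m : ℝ) ^ 2 - D = k * (s m : ℝ) ^ 2 := by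
    intro m hm
    exact_mod_cast hs2 m hm
  have hM0 : (F.Nonempty) → (0 : ℝ) < M := by
    rintro ⟨m, hm⟩
    have hmI := (mem_filter.mp hm).1
    rw [mem_Icc] at hmI
    have : (0 : ℤ) < M := by omega
    exact_mod_cast this
  -- separation
  have hsep : ∀ m ∈ F, ∀ m' ∈ F, m ≠ m' →
      1 / (4 * (M : ℝ) ^ 2) ≤ |(m : ℝ) / s m - (m' : ℝ) / s m'| := by
    intro m hm m' hm' hne
    have p1 := hspos m hm
    have p2 := hspos m' hm'
    have hΔ : m * (s m' : ℤ) - m' * (s m : ℤ) ≠ 0 := by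
      intro h0
      have e1 := hs2 m hm
      have e2 := hs2 m' hm'
      -- D (s'^2 - s^2) = 0
      have e3 : D * ((s m' : ℤ) ^ 2 - (s m : ℤ) ^ 2) = 0 := by
        have : D * ((s m' : ℤ) ^ 2 - (s m : ℤ) ^ 2) =
            (m * (s m' : ℤ) - m' * (s m : ℤ)) * (m * (s m' : ℤ) + m' * (s m : ℤ)) := by
          linear_combination (s m : ℤ) ^ 2 * e2 - (s m' : ℤ) ^ 2 * e1
        rw [this, h0, zero_mul]
      have hs0 : (0 : ℤ) < s m := by have := hs1 m hm; omega
      have hs0' : (0 : ℤ) < s m' := by have := hs1 m' hm'; omega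
      rcases mul_eq_zero.mp e3 with h | h
      · exact hD h
      · have h5 : (s m' : ℤ) = s m := by nlinarith
        rw [h5] at h0
        have : (m - m') * (s m : ℤ) = 0 := by linarith
        rcases mul_eq_zero.mp this with h6 | h6
        · exact hne (by linarith)
        · omega
    have h1 : (1 : ℝ) ≤ |(m : ℝ) * s m' - m' * s m| := by
      have := Int.one_le_abs hΔ
      have h2 : ((1 : ℤ) : ℝ) ≤ ((|m * (s m' : ℤ) - m' * (s m : ℤ)| : ℤ) : ℝ) := by
        exact_mod_cast this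
      push_cast at h2
      exact h2
    rw [div_sub_div _ _ p1.ne' p2.ne', abs_div, abs_of_pos (mul_pos p1 p2),
      div_le_div_iff₀ (by have := hM0 ⟨m, hm⟩; positivity) (mul_pos p1 p2)]
    have h2 : (s m : ℝ) * s m' ≤ (2 * M) * (2 * M) :=
      mul_le_mul (hsM m hm) (hsM m' hm') p2.le (by have := hM0 ⟨m, hm⟩; positivity)
    have h3 : (m : ℝ) * s m' - s m * m' = (m : ℝ) * s m' - m' * s m := by ring
    rw [h3]
    have h4 : 0 < 4 * (M : ℝ) ^ 2 := by have := hM0 ⟨m, hm⟩; positivity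
    nlinarith
  -- closeness to the square root
  have hclose : ∀ m ∈ F, |(m : ℝ) / s m - Real.sqrt k| ≤ |(D : ℝ)| / (Z : ℝ) ^ 2 := by
    intro m hm
    have p1 := hspos m hm
    have hmI := (mem_filter.mp hm).1
    rw [mem_Icc] at hmI
    have hm0 : (0 : ℝ) < m := by exact_mod_cast (by omega : 0 < m)
    have hsk : 1 ≤ Real.sqrt k := by
      rw [Real.one_le_sqrt]; exact hk1
    have hsq : Real.sqrt k ^ 2 = k := Real.sq_sqrt (by linarith)
    have hx0 : 0 < (m : ℝ) / s m := by positivity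
    have e1 : ((m : ℝ) / s m - Real.sqrt k) * ((m : ℝ) / s m + Real.sqrt k) = D / (s m : ℝ) ^ 2 := by
      have h2 : ((m : ℝ) / s m - Real.sqrt k) * ((m : ℝ) / s m + Real.sqrt k) =
          (m : ℝ) ^ 2 / (s m : ℝ) ^ 2 - Real.sqrt k ^ 2 := by ring
      rw [h2, hsq]
      have h3 := heq m hm
      field_simp
      linarith
    have e2 : |(m : ℝ) / s m - Real.sqrt k| * ((m : ℝ) / s m + Real.sqrt k) =
        |(D : ℝ)| / (s m : ℝ) ^ 2 := by
      have h3 : |(m : ℝ) / s m + Real.sqrt k| = (m : ℝ) / s m + Real.sqrt k :=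
        abs_of_pos (by linarith)
      rw [← h3, ← abs_mul, e1, abs_div, abs_of_pos (by positivity : 0 < (s m : ℝ) ^ 2)]
    have e3 : |(m : ℝ) / s m - Real.sqrt k| ≤ |(D : ℝ)| / (s m : ℝ) ^ 2 := by
      rw [← e2]
      have := abs_nonneg ((m : ℝ) / s m - Real.sqrt k)
      nlinarith
    refine e3.trans ?_
    apply div_le_div_of_nonneg_left (abs_nonneg _) (by positivity)
    have h4 : (Z : ℝ) ≤ s m := by
      have := hs1 m hm
      exact_mod_cast this.le
    exact pow_le_pow_left₀ hZ0.le h4 2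
  rcases F.eq_empty_or_nonempty with he | hne
  · rw [he, card_empty]; push_cast; positivity
  have hMp := hM0 hne
  set fl : ℤ → ℤ := fun m => ⌊(m : ℝ) / s m * (4 * (M : ℝ) ^ 2)⌋ with hfl
  have h4M : 0 < 4 * (M : ℝ) ^ 2 := by positivity
  have hinj : Set.InjOn fl (F : Set ℤ) := by
    intro a ha b hb hab
    by_contra hne'
    have h1 := hsep a (mem_coe.mp ha) b (mem_coe.mp hb) hne'
    have h2 := Int.abs_sub_lt_one_of_floor_eq_floor hab
    rw [← sub_mul, abs_mul, abs_of_pos h4M] at h2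
    rw [div_le_iff₀ h4M] at h1
    linarith
  have h1 := card_diam_int (F.image fl) (8 * |(D : ℝ)| * (M : ℝ) ^ 2 / (Z : ℝ) ^ 2 + 1)
    (by positivity) (by
      intro x hx y hy
      rw [mem_image] at hx hy
      obtain ⟨a, ha, rfl⟩ := hx
      obtain ⟨b, hb, rfl⟩ := hy
      have c1 := abs_le.mp (hclose a ha)
      have c2 := abs_le.mp (hclose b hb)
      have e1 := Int.floor_le ((a : ℝ) / s a * (4 * (M : ℝ) ^ 2))
      have e2 := Int.lt_floor_add_one ((a : ℝ) / s a * (4 * (M : ℝ) ^ 2))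
      have e3 := Int.floor_le ((b : ℝ) / s b * (4 * (M : ℝ) ^ 2))
      have e4 := Int.lt_floor_add_one ((b : ℝ) / s b * (4 * (M : ℝ) ^ 2))
      have e5 : |(a : ℝ) / s a - (b : ℝ) / s b| ≤ 2 * (|(D : ℝ)| / (Z : ℝ) ^ 2) := by
        rw [abs_le]; constructor <;> linarith
      have e6 : |(a : ℝ) / s a * (4 * (M : ℝ) ^ 2) - (b : ℝ) / s b * (4 * (M : ℝ) ^ 2)| ≤
          8 * |(D : ℝ)| * (M : ℝ) ^ 2 / (Z : ℝ) ^ 2 := by
        rw [← sub_mul, abs_mul, abs_of_pos h4M]
        calc |(a : ℝ) / s a - (b : ℝ) / s b| * (4 * (M : ℝ) ^ 2)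
            ≤ 2 * (|(D : ℝ)| / (Z : ℝ) ^ 2) * (4 * (M : ℝ) ^ 2) :=
              mul_le_mul_of_nonneg_right e5 h4M.le
          _ = 8 * |(D : ℝ)| * (M : ℝ) ^ 2 / (Z : ℝ) ^ 2 := by ring
      have e7 := abs_le.mp e6
      simp only [hfl]
      rw [abs_le]
      constructor <;> linarith)
  rw [card_image_of_injOn hinj] at h1
  linarith

end Pool.Agent.H304R2
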