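import Mathlib
import Pool.Agent.H304R2.Sqf

set_option autoImplicit false

open Finset Filter

namespace Pool.Agent.H304R2

theorem ev_pow (C α β : ℝ) (h : α < β) :
    ∀ᶠ N : ℕ in atTop, C * (N : ℝ) ^ α ≤ (N : ℝ) ^ β := by
  have t : Tendsto (fun N : ℕ => (N : ℝ) ^ (β - α)) atTop atTop :=
    (tendsto_rpow_atTop (sub_pos.mpr h)).comp tendsto_natCast_atTop_atTop
  filter_upwards [t.eventually_ge_atTop C, eventually_ge_atTop 1] with N h1 h2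
  have hN : (0 : ℝ) < N := by exact_mod_cast h2
  have e : (N : ℝ) ^ β = (N : ℝ) ^ (β - α) * (N : ℝ) ^ α := by
    rw [← Real.rpow_add hN]; congr 1; ring
  rw [e]
  exact mul_le_mul_of_nonneg_right h1 (by positivity)

open Classical in
/-- part A: moderately large square divisors -/
theorem partA (D : ℤ) (hD : D ≠ 0) (η : ℝ) (hη : 0 < η) :
    ∃ Cd : ℝ, 0 < Cd ∧ ∀ (M Z : ℕ) (S : ℝ), 0 < S → 1 ≤ Z →
      (((Icc (-(M : ℤ)) M).filter (fun m => ∃ s : ℕ, S < s ∧ s ≤ Z ∧ (s : ℤ) ^ 2 ∣ m ^ 2 - D)).card : ℝ)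
        ≤ Cd * (Z : ℝ) ^ (2 * η) * (8 * |(D : ℝ)| * M / S * (1 + Real.log Z) + Z) := by
  obtain ⟨Cd, hCd, hdiv⟩ := Pool.Agent.Helper112.divisor_bound η hη
  refine ⟨Cd, hCd, ?_⟩
  intro M Z S hS hZ
  set I := (Icc 1 Z).filter (fun s : ℕ => S < s) with hI
  have hsub : (Icc (-(M : ℤ)) M).filter
      (fun m => ∃ s : ℕ, S < s ∧ s ≤ Z ∧ (s : ℤ) ^ 2 ∣ m ^ 2 - D) ⊆
      I.biUnion (fun s => (Icc (-(M : ℤ)) M).filter (fun m => (s : ℤ) ^ 2 ∣ m ^ 2 - D)) := by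
    intro m hm
    rw [mem_filter] at hm
    obtain ⟨h1, s, h2, h3, h4⟩ := hm
    rw [mem_biUnion]
    refine ⟨s, ?_, by rw [mem_filter]; exact ⟨h1, h4⟩⟩
    rw [hI, mem_filter, mem_Icc]
    have h5 : (0 : ℝ) < s := hS.trans h2
    have h6 : 0 < s := by exact_mod_cast h5
    exact ⟨⟨h6, h3⟩, h2⟩
  have h1 := (card_le_card hsub).trans card_biUnion_le
  have h2 : (((Icc (-(M : ℤ)) M).filter
      (fun m => ∃ s : ℕ, S < s ∧ s ≤ Z ∧ (s : ℤ) ^ 2 ∣ m ^ 2 - D)).card : ℝ) ≤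
      ∑ s ∈ I, (((Icc (-(M : ℤ)) M).filter (fun m => (s : ℤ) ^ 2 ∣ m ^ 2 - D)).card : ℝ) := by
    exact_mod_cast h1
  refine h2.trans ?_
  have hZ0 : (0 : ℝ) < Z := by exact_mod_cast hZ
  have h3 : ∀ s ∈ I, (((Icc (-(M : ℤ)) M).filter (fun m => (s : ℤ) ^ 2 ∣ m ^ 2 - D)).card : ℝ) ≤
      Cd * (Z : ℝ) ^ (2 * η) * (8 * |(D : ℝ)| * M / S * (1 / (s : ℝ)) + 1) := by
    intro s hs
    rw [hI, mem_filter, mem_Icc] at hs
    obtain ⟨⟨hs1, hs2⟩, hs3⟩ := hs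
    have hs0 : (0 : ℝ) < s := by exact_mod_cast hs1
    have k1 := count_s D hD M s hs1
    have k2 := hdiv (s ^ 2) (Nat.one_le_pow _ _ hs1)
    have k3 : (((s ^ 2 : ℕ) : ℝ)) ^ η ≤ (Z : ℝ) ^ (2 * η) := by
      push_cast
      rw [← Real.rpow_natCast, ← Real.rpow_mul hs0.le]
      push_cast
      exact Real.rpow_le_rpow hs0.le (by exact_mod_cast hs2) (by positivity)
    have k4 : ((s ^ 2).divisors.card : ℝ) ≤ Cd * (Z : ℝ) ^ (2 * η) :=
      k2.trans (mul_le_mul_of_nonneg_left k3 hCd.le)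
    have k5 : 8 * |(D : ℝ)| * M / (s : ℝ) ^ 2 ≤ 8 * |(D : ℝ)| * M / S * (1 / (s : ℝ)) := by
      rw [div_mul_div_comm, mul_one]
      apply div_le_div_of_nonneg_left (by positivity) (by positivity)
      rw [pow_two]
      exact mul_le_mul_of_nonneg_right hs3.le hs0.le
    refine k1.trans ?_
    apply mul_le_mul k4 (by linarith) (by positivity) (by positivity)
  refine (sum_le_sum h3).trans ?_
  rw [← mul_sum]
  apply mul_le_mul_of_nonneg_left _ (by positivity)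
  rw [sum_add_distrib, ← mul_sum, sum_const, nsmul_eq_mul, mul_one]
  have h4 : ∑ s ∈ I, (1 / (s : ℝ)) ≤ 1 + Real.log Z := by
    refine le_trans ?_ (Pool.Agent.Helper112.harm_le Z hZ)
    apply sum_le_sum_of_subset_of_nonneg (filter_subset _ _)
    intro i _ _
    positivity
  have h5 : (I.card : ℝ) ≤ Z := by
    have : I.card ≤ Z := by
      have := card_le_card (filter_subset (fun s : ℕ => S < s) (Icc 1 Z))
      rwa [Nat.card_Icc, Nat.add_sub_cancel] at this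
    exact_mod_cast this
  have h6 : 8 * |(D : ℝ)| * M / S * ∑ s ∈ I, (1 / (s : ℝ)) ≤
      8 * |(D : ℝ)| * M / S * (1 + Real.log Z) :=
    mul_le_mul_of_nonneg_left h4 (by positivity)
  linarith

open Classical in
/-- part B: very large square divisors -/
theorem partB (D : ℤ) (hD : ¬ IsSquare D) (M Z : ℕ) (hZ : 0 < Z) (hZD : |D| < (Z : ℤ) ^ 2)
    (hMD : |D| ≤ (M : ℤ) ^ 2) :
    (((Icc (-(M : ℤ)) M).filter (fun m => ∃ s : ℕ, Z < s ∧ (s : ℤ) ^ 2 ∣ m ^ 2 - D)).card : ℝ) ≤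
      2 * (2 * (M : ℝ) ^ 2 / (Z : ℝ) ^ 2) * (8 * |(D : ℝ)| * (M : ℝ) ^ 2 / (Z : ℝ) ^ 2 + 2) := by
  have hD0 : D ≠ 0 := by rintro rfl; exact hD ⟨0, by simp⟩
  have hZ0 : (0 : ℝ) < Z := by exact_mod_cast hZ
  set K := ⌊2 * (M : ℝ) ^ 2 / (Z : ℝ) ^ 2⌋₊ with hK
  set P : ℕ → Finset ℤ := fun k => (Icc (1 : ℤ) M).filter
    (fun m => ∃ s : ℕ, Z < s ∧ m ^ 2 - D = k * (s : ℤ) ^ 2) with hP
  have hsub : (Icc (-(M : ℤ)) M).filter (fun m => ∃ s : ℕ, Z < s ∧ (s : ℤ) ^ 2 ∣ m ^ 2 - D) ⊆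
      (Icc 1 K).biUnion (fun k => P k ∪ (P k).image (fun m => -m)) := by
    intro m hm
    rw [mem_filter, mem_Icc] at hm
    obtain ⟨⟨hm1, hm2⟩, s, hs, k, hk⟩ := hm
    have hs0 : (Z : ℤ) < s := by exact_mod_cast hs
    have hZp : (0 : ℤ) < Z := by exact_mod_cast hZ
    have hs2 : (Z : ℤ) ^ 2 < (s : ℤ) ^ 2 := by nlinarith
    have hmsq : m ^ 2 ≤ (M : ℤ) ^ 2 := by nlinarith
    have hDa := neg_abs_le D
    have hDb := le_abs_self D
    have hk0 : 0 < k := by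
      by_contra hc
      push Not at hc
      rcases hc.lt_or_eq with h | h
      · have h1 : (s : ℤ) ^ 2 * k ≤ (s : ℤ) ^ 2 * (-1) :=
          mul_le_mul_of_nonneg_left (by omega) (sq_nonneg _)
        nlinarith [sq_nonneg m]
      · rw [h, mul_zero] at hk
        exact hD ⟨m, by linarith⟩
    have hkK : k ≤ K := by
      have h1 : (k : ℝ) * (Z : ℝ) ^ 2 ≤ 2 * (M : ℝ) ^ 2 := by
        have h2 : k * (Z : ℤ) ^ 2 ≤ 2 * (M : ℤ) ^ 2 := by
          have h3 : k * (Z : ℤ) ^ 2 ≤ k * (s : ℤ) ^ 2 := mul_le_mul_of_nonneg_left hs2.le hk0.le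
          nlinarith
        exact_mod_cast h2
      have h2 : (k : ℝ) ≤ 2 * (M : ℝ) ^ 2 / (Z : ℝ) ^ 2 := by
        rw [le_div_iff₀ (by positivity)]; exact h1
      have h3 : (((k.toNat : ℕ)) : ℝ) ≤ 2 * (M : ℝ) ^ 2 / (Z : ℝ) ^ 2 := by
        have : (((k.toNat : ℕ) : ℤ) : ℝ) = (k : ℝ) := by rw [Int.toNat_of_nonneg hk0.le]
        rw [Int.cast_natCast] at this
        rw [this]; exact h2
      have h4 := Nat.le_floor h3
      omega
    have hkk : ((k.toNat : ℕ) : ℤ) = k := Int.toNat_of_nonneg hk0.le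
    rw [mem_biUnion]
    refine ⟨k.toNat, by rw [mem_Icc]; omega, ?_⟩
    have hm0 : m ≠ 0 := by
      rintro rfl
      have h1 : (s : ℤ) ^ 2 * 1 ≤ (s : ℤ) ^ 2 * k := mul_le_mul_of_nonneg_left (by omega) (sq_nonneg _)
      nlinarith
    rw [mem_union]
    rcases lt_or_gt_of_ne hm0 with h | h
    · right
      rw [mem_image]
      refine ⟨-m, ?_, by ring⟩
      rw [hP, mem_filter, mem_Icc]
      exact ⟨⟨by omega, by omega⟩, s, hs, by rw [hkk]; linarith⟩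
    · left
      rw [hP, mem_filter, mem_Icc]
      exact ⟨⟨by omega, by omega⟩, s, hs, by rw [hkk]; linarith⟩
  have h1 := (card_le_card hsub).trans card_biUnion_le
  have h2 : (((Icc (-(M : ℤ)) M).filter
      (fun m => ∃ s : ℕ, Z < s ∧ (s : ℤ) ^ 2 ∣ m ^ 2 - D)).card : ℝ) ≤
      ∑ k ∈ Icc 1 K, ((P k ∪ (P k).image (fun m => -m)).card : ℝ) := by
    exact_mod_cast h1
  refine h2.trans ?_
  have h3 : ∀ k ∈ Icc 1 K, ((P k ∪ (P k).image (fun m => -m)).card : ℝ) ≤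
      2 * (8 * |(D : ℝ)| * (M : ℝ) ^ 2 / (Z : ℝ) ^ 2 + 2) := by
    intro k hk
    rw [mem_Icc] at hk
    have k1 := count_pell D hD0 M Z hZ hZD hMD k hk.1
    have k2 : (P k ∪ (P k).image (fun m => -m)).card ≤ (P k).card + (P k).card :=
      (card_union_le _ _).trans (Nat.add_le_add_left card_image_le _)
    have k3 : ((P k ∪ (P k).image (fun m => -m)).card : ℝ) ≤ ((P k).card : ℝ) + (P k).card := by
      exact_mod_cast k2
    have k4 : ((P k).card : ℝ) ≤ 8 * |(D : ℝ)| * (M : ℝ) ^ 2 / (Z : ℝ) ^ 2 + 2 := k1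
    linarith
  refine (sum_le_sum h3).trans ?_
  rw [sum_const, nsmul_eq_mul, Nat.card_Icc, Nat.add_sub_cancel]
  have h4 : (K : ℝ) ≤ 2 * (M : ℝ) ^ 2 / (Z : ℝ) ^ 2 := Nat.floor_le (by positivity)
  have h5 : 0 ≤ 8 * |(D : ℝ)| * (M : ℝ) ^ 2 / (Z : ℝ) ^ 2 + 2 := by positivity
  have h6 := mul_le_mul_of_nonneg_right h4
    (by linarith : 0 ≤ 2 * (8 * |(D : ℝ)| * (M : ℝ) ^ 2 / (Z : ℝ) ^ 2 + 2))
  linarith

end Pool.Agent.H304R2
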