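import Mathlib
import Pool.Agent.H304R2.Sqf2
import Pool.Agent.H304R2.Lam

set_option autoImplicit false

open Finset Filter

namespace Pool.Agent.H304R2

/-- numeric estimate for part A -/
theorem num_A (Cd d ε : ℝ) (hCd : 0 < Cd) (hd : 0 ≤ d) (h0 : 0 < ε) (N Z : ℕ)
    (hN : 1 ≤ N) (hZ : 1 ≤ Z) (hZN : (Z : ℝ) ≤ (N : ℝ) ^ (1 - ε / 8)) :
    Cd * (Z : ℝ) ^ (2 * (ε / 64)) *
      (8 * d * ((3 * N : ℕ) : ℝ) / (N : ℝ) ^ ε * (1 + Real.log Z) + Z) ≤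
      Cd * (24 * d * (1 + 32 / ε) + 1) * (N : ℝ) ^ (1 - 3 * ε / 32) := by
  have hN0 : (0 : ℝ) < N := by exact_mod_cast hN
  have hN1 : (1 : ℝ) ≤ N := by exact_mod_cast hN
  have hZ0 : (0 : ℝ) < Z := by exact_mod_cast hZ
  have hZle : (Z : ℝ) ≤ N := hZN.trans (by
    calc (N : ℝ) ^ (1 - ε / 8) ≤ (N : ℝ) ^ (1 : ℝ) :=
          Real.rpow_le_rpow_of_exponent_le hN1 (by linarith)
      _ = N := Real.rpow_one _)
  have a1 : (Z : ℝ) ^ (2 * (ε / 64)) ≤ (N : ℝ) ^ (ε / 32) := by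
    have : 2 * (ε / 64) = ε / 32 := by ring
    rw [this]
    exact Real.rpow_le_rpow hZ0.le hZle (by positivity)
  have a2 : 1 + Real.log Z ≤ (1 + 32 / ε) * (N : ℝ) ^ (ε / 32) := by
    have b1 : Real.log Z ≤ Real.log N := Real.log_le_log hZ0 hZle
    have b2 : Real.log N ≤ (N : ℝ) ^ (ε / 32) / (ε / 32) :=
      Real.log_le_rpow_div hN0.le (by positivity)
    have b3 : (1 : ℝ) ≤ (N : ℝ) ^ (ε / 32) := Real.one_le_rpow hN1 (by positivity)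
    have b4 : (N : ℝ) ^ (ε / 32) / (ε / 32) = 32 / ε * (N : ℝ) ^ (ε / 32) := by
      field_simp
    rw [b4] at b2
    linarith
  have a3 : 8 * d * ((3 * N : ℕ) : ℝ) / (N : ℝ) ^ ε = 24 * d * (N : ℝ) ^ (1 - ε) := by
    rw [Real.rpow_sub hN0, Real.rpow_one]; push_cast; ring
  rw [a3]
  have a4 : 24 * d * (N : ℝ) ^ (1 - ε) * (1 + Real.log Z) ≤
      24 * d * (1 + 32 / ε) * (N : ℝ) ^ (1 - ε / 8) := by
    calc 24 * d * (N : ℝ) ^ (1 - ε) * (1 + Real.log Z) ≤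
        24 * d * (N : ℝ) ^ (1 - ε) * ((1 + 32 / ε) * (N : ℝ) ^ (ε / 32)) :=
          mul_le_mul_of_nonneg_left a2 (by positivity)
      _ = 24 * d * (1 + 32 / ε) * (N : ℝ) ^ (1 - ε + ε / 32) := by
          rw [Real.rpow_add hN0]; ring
      _ ≤ 24 * d * (1 + 32 / ε) * (N : ℝ) ^ (1 - ε / 8) := by
          apply mul_le_mul_of_nonneg_left _ (by positivity)
          exact Real.rpow_le_rpow_of_exponent_le hN1 (by linarith)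
  have hlog : 0 ≤ Real.log Z := Real.log_natCast_nonneg Z
  calc Cd * (Z : ℝ) ^ (2 * (ε / 64)) * (24 * d * (N : ℝ) ^ (1 - ε) * (1 + Real.log Z) + Z)
      ≤ Cd * (N : ℝ) ^ (ε / 32) *
        (24 * d * (1 + 32 / ε) * (N : ℝ) ^ (1 - ε / 8) + (N : ℝ) ^ (1 - ε / 8)) := by
        apply mul_le_mul (mul_le_mul_of_nonneg_left a1 hCd.le) (by linarith) (by positivity)
          (by positivity)
    _ = Cd * (24 * d * (1 + 32 / ε) + 1) * (N : ℝ) ^ (ε / 32 + (1 - ε / 8)) := by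
        rw [Real.rpow_add hN0]; ring
    _ = Cd * (24 * d * (1 + 32 / ε) + 1) * (N : ℝ) ^ (1 - 3 * ε / 32) := by
        congr 2; ring

/-- numeric estimate for part B -/
theorem num_B (d ε : ℝ) (hd : 0 ≤ d) (h0 : 0 < ε) (N Z : ℕ)
    (hN : 1 ≤ N) (hZ : 1 ≤ Z) (hZN : (N : ℝ) ^ (1 - ε / 8) ≤ 2 * Z) :
    2 * (2 * (((3 * N : ℕ) : ℝ)) ^ 2 / (Z : ℝ) ^ 2) *
        (8 * d * (((3 * N : ℕ) : ℝ)) ^ 2 / (Z : ℝ) ^ 2 + 2) ≤
      144 * (288 * d + 2) * (N : ℝ) ^ (ε / 2) := by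
  have hN0 : (0 : ℝ) < N := by exact_mod_cast hN
  have hN1 : (1 : ℝ) ≤ N := by exact_mod_cast hN
  have hZ0 : (0 : ℝ) < Z := by exact_mod_cast hZ
  have a1 : (N : ℝ) ^ 2 / (Z : ℝ) ^ 2 ≤ 4 * (N : ℝ) ^ (ε / 4) := by
    rw [div_le_iff₀ (by positivity)]
    have e1 : (N : ℝ) ^ 2 = (N : ℝ) ^ (ε / 4) * ((N : ℝ) ^ (1 - ε / 8)) ^ 2 := by
      rw [← Real.rpow_natCast ((N : ℝ) ^ (1 - ε / 8)), ← Real.rpow_mul hN0.le,
        ← Real.rpow_add hN0, ← Real.rpow_natCast]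
      congr 1; push_cast; ring
    rw [e1]
    have e2 : ((N : ℝ) ^ (1 - ε / 8)) ^ 2 ≤ (2 * Z) ^ 2 :=
      pow_le_pow_left₀ (by positivity) hZN 2
    calc (N : ℝ) ^ (ε / 4) * ((N : ℝ) ^ (1 - ε / 8)) ^ 2 ≤
        (N : ℝ) ^ (ε / 4) * (2 * Z) ^ 2 := mul_le_mul_of_nonneg_left e2 (by positivity)
      _ = 4 * (N : ℝ) ^ (ε / 4) * (Z : ℝ) ^ 2 := by ring
  set q := (N : ℝ) ^ 2 / (Z : ℝ) ^ 2 with hq
  set P := (N : ℝ) ^ (ε / 4) with hP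
  have hP1 : 1 ≤ P := Real.one_le_rpow hN1 (by positivity)
  have hPP : (N : ℝ) ^ (ε / 2) = P * P := by
    rw [hP, ← Real.rpow_add hN0]; congr 1; ring
  have hq0 : 0 ≤ q := by rw [hq]; positivity
  have e3 : 2 * (((3 * N : ℕ) : ℝ)) ^ 2 / (Z : ℝ) ^ 2 = 18 * q := by
    rw [hq]; push_cast; ring
  have e4 : 8 * d * (((3 * N : ℕ) : ℝ)) ^ 2 / (Z : ℝ) ^ 2 = 72 * d * q := by
    rw [hq]; push_cast; ring
  rw [e3, e4, hPP]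
  have a2 : 72 * d * q ≤ 288 * d * P := by
    have := mul_le_mul_of_nonneg_left a1 (by positivity : 0 ≤ 72 * d)
    linarith
  have a3 : 72 * d * q + 2 ≤ (288 * d + 2) * P := by linarith
  calc 2 * (18 * q) * (72 * d * q + 2) ≤ 2 * (18 * (4 * P)) * ((288 * d + 2) * P) := by
        apply mul_le_mul _ a3 (by positivity) (by positivity)
        linarith
    _ = 144 * (288 * d + 2) * (P * P) := by ring

open Classical in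
/-- few `m` have `m^2 - D` divisible by a large square -/
theorem sqf_exc (D : ℤ) (hD : ¬ IsSquare D) (ε : ℝ) (h0 : 0 < ε) (h1 : ε ≤ 1) :
    ∀ᶠ N : ℕ in atTop, (((Icc (-((3 * N : ℕ) : ℤ)) ((3 * N : ℕ) : ℤ)).filter
      (fun m => ∃ s : ℕ, (N : ℝ) ^ ε < s ∧ (s : ℤ) ^ 2 ∣ m ^ 2 - D)).card : ℝ) ≤
      (N : ℝ) ^ (1 - ε / 16) := by
  have hD0 : D ≠ 0 := by rintro rfl; exact hD ⟨0, by simp⟩
  obtain ⟨Cd, hCd, hA⟩ := partA D hD0 (ε / 64) (by positivity)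
  have hev1 := ev_pow (2 * (Cd * (24 * |(D : ℝ)| * (1 + 32 / ε) + 1))) (1 - 3 * ε / 32)
    (1 - ε / 16) (by linarith)
  have hev2 := ev_pow (2 * (144 * (288 * |(D : ℝ)| + 2))) (ε / 2) (1 - ε / 16) (by linarith)
  have hev3 := ev_pow (2 * (|(D : ℝ)| + 1)) 0 (1 - ε / 8) (by linarith)
  filter_upwards [hev1, hev2, hev3, eventually_ge_atTop 1, eventually_ge_atTop D.natAbs]
    with N e1 e2 e3 hN hND
  have hN0 : (0 : ℝ) < N := by exact_mod_cast hN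
  rw [Real.rpow_zero, mul_one] at e3
  have hDn : 0 ≤ |(D : ℝ)| := abs_nonneg _
  set Z := ⌊(N : ℝ) ^ (1 - ε / 8)⌋₊ with hZdef
  have hZle : (Z : ℝ) ≤ (N : ℝ) ^ (1 - ε / 8) := Nat.floor_le (by positivity)
  have hZlt : (N : ℝ) ^ (1 - ε / 8) < Z + 1 := Nat.lt_floor_add_one _
  have hZge : |(D : ℝ)| + 1 ≤ Z := by linarith
  have hZ1r : (1 : ℝ) ≤ Z := by linarith
  have hZ1 : 1 ≤ Z := by exact_mod_cast hZ1r
  have hZ2 : (N : ℝ) ^ (1 - ε / 8) ≤ 2 * Z := by linarith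
  have hZD : |D| < (Z : ℤ) ^ 2 := by
    have : |(D : ℝ)| < (Z : ℝ) ^ 2 := by nlinarith
    exact_mod_cast this
  have hMD : |D| ≤ ((3 * N : ℕ) : ℤ) ^ 2 := by
    have : |D| ≤ N := by rw [Int.abs_eq_natAbs]; exact_mod_cast hND
    push_cast
    nlinarith
  have kA := hA (3 * N) Z ((N : ℝ) ^ ε) (by positivity) hZ1
  have kB := partB D hD (3 * N) Z (by omega) hZD hMD
  have kA' := kA.trans (num_A Cd |(D : ℝ)| ε hCd hDn h0 N Z hN hZ1 hZle)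
  have kB' := kB.trans (num_B |(D : ℝ)| ε hDn h0 N Z hN hZ1 hZ2)
  have hsub : (Icc (-((3 * N : ℕ) : ℤ)) ((3 * N : ℕ) : ℤ)).filter
      (fun m => ∃ s : ℕ, (N : ℝ) ^ ε < s ∧ (s : ℤ) ^ 2 ∣ m ^ 2 - D) ⊆
      (Icc (-((3 * N : ℕ) : ℤ)) ((3 * N : ℕ) : ℤ)).filter
        (fun m => ∃ s : ℕ, (N : ℝ) ^ ε < s ∧ s ≤ Z ∧ (s : ℤ) ^ 2 ∣ m ^ 2 - D) ∪
      (Icc (-((3 * N : ℕ) : ℤ)) ((3 * N : ℕ) : ℤ)).filter
        (fun m => ∃ s : ℕ, Z < s ∧ (s : ℤ) ^ 2 ∣ m ^ 2 - D) := by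
    intro m hm
    rw [mem_filter] at hm
    obtain ⟨hm1, s, hs1, hs2⟩ := hm
    rw [mem_union, mem_filter, mem_filter]
    rcases le_or_gt s Z with h | h
    · exact Or.inl ⟨hm1, s, hs1, h, hs2⟩
    · exact Or.inr ⟨hm1, s, h, hs2⟩
  have k1 := (card_le_card hsub).trans (card_union_le _ _)
  have k2 : (((Icc (-((3 * N : ℕ) : ℤ)) ((3 * N : ℕ) : ℤ)).filter
      (fun m => ∃ s : ℕ, (N : ℝ) ^ ε < s ∧ (s : ℤ) ^ 2 ∣ m ^ 2 - D)).card : ℝ) ≤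
      (((Icc (-((3 * N : ℕ) : ℤ)) ((3 * N : ℕ) : ℤ)).filter
        (fun m => ∃ s : ℕ, (N : ℝ) ^ ε < s ∧ s ≤ Z ∧ (s : ℤ) ^ 2 ∣ m ^ 2 - D)).card : ℝ) +
      (((Icc (-((3 * N : ℕ) : ℤ)) ((3 * N : ℕ) : ℤ)).filter
        (fun m => ∃ s : ℕ, Z < s ∧ (s : ℤ) ^ 2 ∣ m ^ 2 - D)).card : ℝ) := by
    exact_mod_cast k1
  linarith

end Pool.Agent.H304R2
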