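import Mathlib
import Pool.Agent.H304R2.Sqf3

set_option autoImplicit false

open Finset Filter

namespace Pool.Agent.H304R2

open Classical in
/-- nearly squarefree values of a monic quadratic with prescribed Moebius sign -/
theorem main_mu (b c : ℤ) (hD : ¬ IsSquare (b ^ 2 - 4 * c)) (e : ℤ) (he : e = 1 ∨ e = -1)
    (ε : ℝ) (hε : 0 < ε) :
    ∃ N0 : ℕ, ∀ N : ℕ, N0 ≤ N → (N : ℝ) ^ (1 - ε) ≤
      (((Finset.Icc 1 N).filter (fun n : ℕ => ∃ s m : ℕ,
        ((n : ℤ) ^ 2 + b * n + c).natAbs = s ^ 2 * m ∧ (s : ℝ) ≤ (N : ℝ) ^ ε ∧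
          ArithmeticFunction.moebius m = e)).card : ℝ) := by
  set δ := min ε 1 with hδ
  have hδ0 : 0 < δ := lt_min hε one_pos
  have hδ1 : δ ≤ 1 := min_le_right _ _
  have hδε : δ ≤ ε := min_le_left _ _
  obtain ⟨N1, hN1⟩ := main_lam b c hD e he (δ / 32) (by positivity)
  have hexc := sqf_exc (b ^ 2 - 4 * c) hD δ hδ0 hδ1
  have hev := ev_pow 2 (1 - δ / 16) (1 - δ / 32) (by linarith)
  have key : ∀ᶠ N : ℕ in atTop, (N : ℝ) ^ (1 - ε) ≤
      (((Finset.Icc 1 N).filter (fun n : ℕ => ∃ s m : ℕ,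
        ((n : ℤ) ^ 2 + b * n + c).natAbs = s ^ 2 * m ∧ (s : ℝ) ≤ (N : ℝ) ^ ε ∧
          ArithmeticFunction.moebius m = e)).card : ℝ) := by
    filter_upwards [hexc, hev, eventually_ge_atTop N1, eventually_ge_atTop 1,
      eventually_ge_atTop b.natAbs] with N hx1 hx2 hx3 hx4 hx5
    have hNr : (1 : ℝ) ≤ N := by exact_mod_cast hx4
    have hl := hN1 N hx3
    set G := (Finset.Icc 1 N).filter (fun n : ℕ =>
        (-1 : ℤ) ^ (ArithmeticFunction.cardFactors ((n : ℤ) ^ 2 + b * n + c).natAbs) = e) with hG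
    set Bd := G.filter (fun n : ℕ => ∃ s : ℕ, (N : ℝ) ^ δ < s ∧
      (s : ℤ) ^ 2 ∣ (n : ℤ) ^ 2 + b * n + c) with hBd
    set T := (Finset.Icc 1 N).filter (fun n : ℕ => ∃ s m : ℕ,
        ((n : ℤ) ^ 2 + b * n + c).natAbs = s ^ 2 * m ∧ (s : ℝ) ≤ (N : ℝ) ^ ε ∧
          ArithmeticFunction.moebius m = e) with hT
    have hb1 : (Bd.card : ℝ) ≤ (N : ℝ) ^ (1 - δ / 16) := by
      refine le_trans ?_ hx1
      have hinj : Set.InjOn (fun n : ℕ => 2 * (n : ℤ) + b) (Bd : Set ℕ) := by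
        intro x _ y _ hxy
        simp only at hxy
        omega
      rw [← card_image_of_injOn hinj]
      have hsub : Bd.image (fun n : ℕ => 2 * (n : ℤ) + b) ⊆
          (Icc (-((3 * N : ℕ) : ℤ)) ((3 * N : ℕ) : ℤ)).filter
            (fun m => ∃ s : ℕ, (N : ℝ) ^ δ < s ∧ (s : ℤ) ^ 2 ∣ m ^ 2 - (b ^ 2 - 4 * c)) := by
        intro m hm
        rw [mem_image] at hm
        obtain ⟨n, hn, rfl⟩ := hm
        rw [hBd, mem_filter, hG, mem_filter, mem_Icc] at hn
        obtain ⟨⟨⟨hn1, hn2⟩, _⟩, s, hs1, hs2⟩ := hn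
        rw [mem_filter, mem_Icc]
        refine ⟨⟨by push_cast; omega, by push_cast; omega⟩, s, hs1, ?_⟩
        have e1 : (2 * (n : ℤ) + b) ^ 2 - (b ^ 2 - 4 * c) = ((n : ℤ) ^ 2 + b * n + c) * 4 := by ring
        rw [e1]
        exact Dvd.dvd.mul_right hs2 4
      exact_mod_cast card_le_card hsub
    have hsubT : G \ Bd ⊆ T := by
      intro n hn
      rw [Finset.mem_sdiff] at hn
      obtain ⟨hnG, hnB⟩ := hn
      have hnG' := hnG
      rw [hG, mem_filter] at hnG'
      obtain ⟨hn1, hn2⟩ := hnG'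
      rw [hT, mem_filter]
      refine ⟨hn1, ?_⟩
      have hf0 : ((n : ℤ) ^ 2 + b * n + c).natAbs ≠ 0 := by
        rw [Int.natAbs_ne_zero]
        intro h0
        exact hD ⟨2 * n + b, by linarith⟩
      obtain ⟨m, s, hms, hsq⟩ := Nat.sq_mul_squarefree ((n : ℤ) ^ 2 + b * n + c).natAbs
      refine ⟨s, m, hms.symm, ?_, ?_⟩
      · by_contra hc
        push Not at hc
        apply hnB
        rw [hBd, mem_filter]
        refine ⟨hnG, s, ?_, ?_⟩
        · refine lt_of_le_of_lt ?_ hc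
          exact Real.rpow_le_rpow_of_exponent_le hNr hδε
        · have h1 : s ^ 2 ∣ ((n : ℤ) ^ 2 + b * n + c).natAbs := ⟨m, hms.symm⟩
          have h2 := Int.natCast_dvd.mpr h1
          push_cast at h2
          exact h2
      · have hm0 : m ≠ 0 := hsq.ne_zero
        have hs0 : s ^ 2 ≠ 0 := by
          intro h0
          rw [h0, zero_mul] at hms
          exact hf0 hms.symm
        have hs00 : s ≠ 0 := by
          rintro rfl
          exact hs0 (by norm_num)
        rw [ArithmeticFunction.moebius_apply_of_squarefree hsq]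
        rw [← hms, lam_mul _ _ hs0 hm0, pow_two, lam_mul _ _ hs00 hs00] at hn2
        rcases neg_one_pow_eq_or ℤ (ArithmeticFunction.cardFactors s) with h1 | h1 <;>
          rw [h1] at hn2 <;> simpa using hn2
    have hc1 : G.card ≤ T.card + Bd.card := by
      have h1 := card_le_card hsubT
      have h2 := Finset.le_card_sdiff Bd G
      omega
    have hc2 : (G.card : ℝ) ≤ T.card + Bd.card := by exact_mod_cast hc1
    have h3 : (N : ℝ) ^ (1 - ε) ≤ (N : ℝ) ^ (1 - δ / 16) :=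
      Real.rpow_le_rpow_of_exponent_le hNr (by linarith)
    linarith
  exact eventually_atTop.mp key

end Pool.Agent.H304R2
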